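import Mathlib
import Pool.Agent.RNK.Defs

/-!
# RNP: common definitions (MP_870c49_nt, rank one, general orders and functions)

The same as `RNK.Defs` with three changes: no Bezout hypothesis on the order; the functions have no
invariance property; `Prim w` means that `w` has minimal norm on its line; the prime elements `π`
have a finite residue field `F` with `|w|²` elements (`π.p` is the number of its elements).
`Vec`, `Mat`, `Ord`, `Fld`, `det2`, `nq`, `Ms` etc. are those of `RNK`.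
-/

open RNK

namespace RNP

noncomputable section

/-- an imaginary quadratic order -/
structure OD where
  a : UNI.Par

/-- the order -/
abbrev OD.O (D : OD) : Subring ℂ := Ord D.a

/-- the field -/
abbrev OD.K (D : OD) : Subfield ℂ := Fld D.a

/-- `w ∈ O²` -/
def O2 (D : OD) (w : Vec) : Prop := w.1 ∈ D.O ∧ w.2 ∈ D.O

/-- `w ∈ K²` -/
def K2 (D : OD) (w : Vec) : Prop := w.1 ∈ D.K ∧ w.2 ∈ D.K

/-- `w ∈ K²`, `w ≠ 0`; the cusp is the line of `w` -/
def Cu (D : OD) (w : Vec) : Prop := K2 D w ∧ w ≠ 0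

/-- `x` and `y` are in `O` and coprime -/
def Cop (D : OD) (x y : ℂ) : Prop :=
  x ∈ D.O ∧ y ∈ D.O ∧ ∃ u ∈ D.O, ∃ v ∈ D.O, u * x + v * y = 1

/-- vectors of `O²` of minimal norm on their line -/
def Prim (D : OD) (w : Vec) : Prop :=
  O2 D w ∧ w ≠ 0 ∧ ∀ t : ℂ, t ≠ 0 → O2 D (t • w) → 1 ≤ ‖t‖

/-! ### matrices -/

/-- entries in `O`, determinant not zero -/
def MO (D : OD) (g : Mat) : Prop :=
  (g.a ∈ D.O ∧ g.b ∈ D.O ∧ g.c ∈ D.O ∧ g.d ∈ D.O) ∧ g.det ≠ 0

/-- `GL₂(O)` -/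
def GO (D : OD) (g : Mat) : Prop := MO D g ∧ g.det⁻¹ ∈ D.O

/-- `GL₂(K)` -/
def GK (D : OD) (g : Mat) : Prop :=
  (g.a ∈ D.K ∧ g.b ∈ D.K ∧ g.c ∈ D.K ∧ g.d ∈ D.K) ∧ g.det ≠ 0

/-! ### functions -/

/-- functions on `O² / M O²`, extended by `0`, with nonzero values in `V` -/
structure Fn (D : OD) (M : ℕ) (V : Finset ℂ) (f : Vec → ℂ) : Prop where
  val : ∀ w, f w ≠ 0 → f w ∈ V
  supp : ∀ w, f w ≠ 0 → O2 D w
  per : ∀ w v, O2 D v → f (w + (M : ℂ) • v) = f w

/-- locally constant functions with compact support on `K²` with values in `K` -/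
structure Adm (D : OD) (m : ℕ) (f : Vec → ℂ) : Prop where
  pos : 0 < m
  val : ∀ w, f w ∈ D.K
  supp : ∀ w, f w ≠ 0 → O2 D ((m : ℂ) • w)
  per : ∀ w v, O2 D v → f (w + (m : ℂ) • v) = f w

/-- `Adm` for some `m` -/
def AdmE (D : OD) (f : Vec → ℂ) : Prop := ∃ m : ℕ, Adm D m f

/-- the abstract properties of the symbol `s(f; x, y, z; p)` -/
structure Coc (D : OD) where
  s : (Vec → ℂ) → Vec → Vec → Vec → Vec → ℂ
  add : ∀ f g, AdmE D f → AdmE D g → ∀ x y z p, Cu D x → Cu D y → Cu D z → K2 D p →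
    s (fun w => f w + g w) x y z p = s f x y z p + s g x y z p
  smul : ∀ f, AdmE D f → ∀ k ∈ D.K, ∀ x y z p, Cu D x → Cu D y → Cu D z → K2 D p →
    s (fun w => k * f w) x y z p = k * s f x y z p
  a12 : ∀ f, AdmE D f → ∀ x y z p, Cu D x → Cu D y → Cu D z → K2 D p →
    s f y x z p = -s f x y z p
  a23 : ∀ f, AdmE D f → ∀ x y z p, Cu D x → Cu D y → Cu D z → K2 D p →
    s f x z y p = -s f x y z p
  coc : ∀ f, AdmE D f → ∀ x y z w p, Cu D x → Cu D y → Cu D z → Cu D w → K2 D p →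
    s f y z w p - s f x z w p + s f x y w p - s f x y z p = 0
  scal : ∀ f, AdmE D f → ∀ k ∈ D.K, k ≠ 0 → ∀ x y z p, Cu D x → Cu D y → Cu D z → K2 D p →
    s f (k • x) y z p = s f x y z p
  equiv : ∀ f, AdmE D f → ∀ g, GK D g → ∀ x y z p, Cu D x → Cu D y → Cu D z → K2 D p →
    s (fun w => f (g.act w)) x y z p =
      ((‖g.det‖ ^ 2 : ℝ) : ℂ) * s f (g.act x) (g.act y) (g.act z) (g.act p)
  quad : ∀ f, AdmE D f → ∀ x y z, Cu D x → Cu D y → Cu D z → ∃ S11 S12 S22 : ℂ, ∀ p, K2 D p →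
    s f x y z p = p.1 ^ 2 * S11 + p.1 * p.2 * S12 + p.2 ^ 2 * S22

/-! ### measures -/

/-- probability measures on cusps -/
structure PM (D : OD) (μ : Ms) : Prop where
  cu : ∀ w, μ w ≠ 0 → Cu D w
  nn : ∀ w, 0 ≤ μ w
  one : (μ.sum fun _ a => a) = 1

/-- the trilinear extension of `s(f; ·, ·, ·; p)` -/
def Coc.sg {D : OD} (S : Coc D) (f : Vec → ℂ) (p : Vec) (μ ν ρ : Ms) : ℂ :=
  RNK.sg (fun x y z => S.s f x y z p) μ ν ρ

open Classical in
/-- the weight before normalisation -/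
def q0 (D : OD) (κ : ℝ) (C : Mat) (w : Vec) : ℝ :=
  if Prim D w then max 0 (1 - nq (C.act w) / (κ * ‖C.det‖)) else 0

open Classical in
/-- the same as a finitely supported function -/
def qq (D : OD) (κ : ℝ) (C : Mat) : Ms :=
  if h : (Function.support (q0 D κ C)).Finite then Finsupp.ofSupportFinite (q0 D κ C) h else 0

/-- the weight -/
def rr (D : OD) (κ : ℝ) (C : Mat) : Ms :=
  (((qq D κ C).sum fun _ a => a)⁻¹ : ℝ) • qq D κ C

/-- the weight of the lattice `B O²` at the point `A` -/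
def mu (D : OD) (κ : ℝ) (B A : Mat) : Ms := (rr D κ (A.mul B)).mapDomain B.act

/-- the property of the constant `κ` -/
structure Kap (D : OD) (κ : ℝ) : Prop where
  one : 1 ≤ κ
  mink : ∀ C : Mat, C.det ≠ 0 → ∃ w, Prim D w ∧ nq (C.act w) ≤ κ / 2 * ‖C.det‖

/-! ### principal primes -/

/-- a prime element `w` with its residue map (used on `O` only) to the field `F` with `|w|²`
elements -/
structure PD (D : OD) where
  F : Type
  fld : Field F
  fin : Fintype F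
  w : ℂ
  hw : w ∈ D.O
  nw : w * (starRingEnd ℂ) w = (Fintype.card F : ℂ)
  r : ℂ → F
  radd : ∀ x ∈ D.O, ∀ y ∈ D.O, r (x + y) = r x + r y
  rmul : ∀ x ∈ D.O, ∀ y ∈ D.O, r (x * y) = r x * r y
  rone : r 1 = 1
  rsur : ∀ t : F, ∃ x ∈ D.O, r x = t
  rker : ∀ x ∈ D.O, r x = 0 ↔ ∃ y ∈ D.O, x = w * y

instance PD.instF {D : OD} (π : PD D) : Field π.F := π.fld

instance PD.instFin {D : OD} (π : PD D) : Fintype π.F := π.fin

instance PD.instDec {D : OD} (π : PD D) : DecidableEq π.F := Classical.decEq _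

/-- the number of elements of the residue field -/
abbrev PD.p {D : OD} (π : PD D) : ℕ := Fintype.card π.F

/-- a lift of an element of the residue field -/
def PD.lf {D : OD} (π : PD D) (t : π.F) : ℂ := Classical.choose (π.rsur t)

theorem PD.lf_O {D : OD} (π : PD D) (t : π.F) : π.lf t ∈ D.O :=
  (Classical.choose_spec (π.rsur t)).1

theorem PD.r_lf {D : OD} (π : PD D) (t : π.F) : π.r (π.lf t) = t :=
  (Classical.choose_spec (π.rsur t)).2

/-- the index set `P¹(F)` -/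
abbrev PD.T {D : OD} (π : PD D) : Type := Option π.F

/-- the indicator function (on `O²`) of the lattice with index `t` -/
def PD.ind {D : OD} (π : PD D) (t : π.T) (w : Vec) : ℂ :=
  match t with
  | some τ => if π.r w.1 = τ * π.r w.2 then 1 else 0
  | none => if π.r w.2 = 0 then 1 else 0

/-- a basis of the lattice of all `w ∈ α O ⊕ β O` with `ind t w = 1` -/
def PD.B {D : OD} (π : PD D) (α β : ℂ) (t : π.T) : Mat :=
  match t with
  | some τ => ⟨π.w * α, π.lf (τ * π.r β * (π.r α)⁻¹) * α, 0, β⟩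
  | none => ⟨α, 0, 0, π.w * β⟩

/-- an error which tends to `0` along the primes -/
def Tends0 {D : OD} (e : PD D → ℂ) : Prop :=
  ∀ ε : ℝ, 0 < ε → ∃ P0 : ℕ, ∀ π : PD D, P0 < π.p → ‖e π‖ ≤ ε

/-! ### edge functionals -/

/-- the edge functional of the lattice `B O²` along the geodesic `A_{2^k} P`, with the cusp `c` -/
def ep {D : OD} (S : Coc D) (κ : ℝ) (B P : Mat) (c : Vec) (f : Vec → ℂ) (p : Vec) : ℂ :=
  ∑ᶠ k : ℤ, S.sg f p (dl c) (mu D κ B (pt P k)) (mu D κ B (pt P (k + 1)))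

/-- the sum over `t` of the edge functionals of `f 1_t`, lattice `α O ⊕ β O` -/
def EG {D : OD} (S : Coc D) (κ : ℝ) (π : PD D) (α β : ℂ) (P : Mat) (c : Vec) (f : Vec → ℂ)
    (p : Vec) : ℂ :=
  ∑ t : π.T, ep S κ (π.B α β t) P c (fun w => f w * π.ind t w) p

/-- the edge functional of `α O ⊕ β O` along the geodesic of the two coordinate cusps -/
def E {D : OD} (S : Coc D) (κ : ℝ) (π : PD D) (α β : ℂ) (f : Vec → ℂ) (p : Vec) : ℂ :=
  EG S κ π α β (Ah (‖α‖ / ‖β‖)) e1 f p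

/-- `f` is supported on `α O ⊕ β O` -/
def SuppIn (D : OD) (α β : ℂ) (f : Vec → ℂ) : Prop :=
  ∀ w, f w ≠ 0 → ∃ u, O2 D u ∧ w = (dg α β).act u

/-! ### the base property -/

/-- `C` is a set of nonunits dividing `N`, and an element of `O` which is not divisible by any of
them divides `N` up to elements prime to `N` -/
structure Bp (D : OD) (N : ℕ) (C : Finset ℂ) : Prop where
  pos : 0 < N
  mem : ∀ c ∈ C, c ∈ D.O ∧ (∃ z ∈ D.O, (N : ℂ) = c * z) ∧ ¬ ∃ y ∈ D.O, c * y = 1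
  base : ∀ y ∈ D.O, (∀ c ∈ C, ¬ ∃ z ∈ D.O, y = c * z) →
    ∃ z ∈ D.O, ∃ v ∈ D.O, y * z = N + (N : ℂ) ^ 2 * v

/-- every modulus has a multiple with the base property -/
def Bps (D : OD) : Prop := ∀ N : ℕ, 0 < N → ∃ N' : ℕ, N ∣ N' ∧ ∃ C : Finset ℂ, Bp D N' C

/-! ### the kernel -/

/-- `Σ t⁻⁴ t̄⁻²` over `O` -/
def Lam (D : OD) : ℂ :=
  ∑' m : ℤ × ℤ, 1 / (UNI.xx D.a m ^ 4 * (starRingEnd ℂ) (UNI.xx D.a m) ^ 2)

end

end RNP
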