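import Pool.Agent.RNP.Sm

/-!
# RNP.Ls: summability of the line sums

`f` is bounded (`AdmE_bdd`), and for a cusp `c` there is a natural `n > 0` with `f (t c) ≠ 0 → n t ∈ O` (see step 1 of
`RNK/Sl`). So the terms are bounded by `C n⁶ |s|⁻⁶`, `s = n t ∈ O`, and `Σ_{s ∈ O} |s|⁻⁶` converges
(`RNK/Sl`, `Lam_summable`; take norms: `Summable.norm`). `Function.Injective.summable_iff` for `m ↦ xx m / n`.
-/

open RNK

namespace RNP

noncomputable section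

variable {D : OD}

/-- the sum of `f(t c) t⁻⁴ t̄⁻²` over the line of `c` -/
def ls (f : Vec → ℂ) (c : Vec) : ℂ := ∑' t : ℂ, f (t • c) * (t ^ 4 * (starRingEnd ℂ) t ^ 2)⁻¹

private theorem ls_xx_inj (a : UNI.Par) : Function.Injective (UNI.xx a) := by
  intro x y h
  have h1 := UNI.om_im_pos a
  have h2 : (UNI.xx a x).im = (UNI.xx a y).im := by rw [h]
  have h3 : (UNI.xx a x).re = (UNI.xx a y).re := by rw [h]
  simp only [UNI.xx, Complex.add_im, Complex.mul_im, Complex.add_re, Complex.mul_re,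
    Complex.intCast_im, Complex.intCast_re, zero_add, zero_mul, add_zero, sub_zero] at h2 h3
  have h4 : (x.2 : ℝ) = y.2 := mul_right_cancel₀ h1.ne' h2
  have h5 : (x.1 : ℝ) = y.1 := by
    rw [h4] at h3
    linarith
  ext
  · exact_mod_cast h5
  · exact_mod_cast h4

private theorem ls_lam (a : UNI.Par) : Summable (fun m : ℤ × ℤ => (‖UNI.xx a m‖ ^ 6)⁻¹) := by
  set z : UpperHalfPlane := ⟨UNI.om a, UNI.om_im_pos a⟩ with hz
  have hzc : (z : ℂ) = UNI.om a := rfl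
  have h1 : Summable fun x : Fin 2 → ℤ => EisensteinSeries.r z ^ (-(6 : ℝ)) * ‖x‖ ^ (-(6 : ℝ)) :=
    (EisensteinSeries.summable_one_div_norm_rpow (by norm_num)).mul_left _
  have h2 : Summable fun x : Fin 2 → ℤ => ‖(x 0 : ℂ) * (z : ℂ) + x 1‖ ^ (-(6 : ℝ)) :=
    Summable.of_nonneg_of_le (fun x => by positivity)
      (fun x => EisensteinSeries.summand_bound z (by norm_num) x) h1
  let e : ℤ × ℤ ≃ (Fin 2 → ℤ) := (Equiv.prodComm ℤ ℤ).trans (finTwoArrowEquiv ℤ).symm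
  have h3 := (Equiv.summable_iff e).2 h2
  refine h3.congr fun m => ?_
  have h4 : ((e m) 0 : ℂ) * (z : ℂ) + (e m) 1 = UNI.xx a m := by
    simp only [e, hzc, UNI.xx, Equiv.trans_apply, Equiv.prodComm_apply, finTwoArrowEquiv_symm_apply,
      Prod.fst_swap, Prod.snd_swap, Matrix.cons_val_zero, Matrix.cons_val_one]
    ring
  simp only [Function.comp_apply]
  rw [h4, Real.rpow_neg (norm_nonneg _)]
  norm_num

theorem ls_summable {f : Vec → ℂ} (hf : AdmE D f) {c : Vec} (hc : Cu D c) :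
    Summable (fun t : ℂ => f (t • c) * (t ^ 4 * (starRingEnd ℂ) t ^ 2)⁻¹) := by
  obtain ⟨C, hC⟩ := AdmE_bdd hf
  obtain ⟨m, hf⟩ := hf
  have hm := hf.pos
  -- the denominator
  have hn1 : ∃ n1 : ℕ, 0 < n1 ∧ ∀ t : ℂ, f (t • c) ≠ 0 → ((n1 * m : ℕ) : ℂ) * t ∈ D.O := by
    have key : ∀ ci : ℂ, ci ∈ D.K → ci ≠ 0 → ∃ n1 : ℕ, 0 < n1 ∧ ∀ t : ℂ,
        (m : ℂ) * (t * ci) ∈ D.O → ((n1 * m : ℕ) : ℂ) * t ∈ D.O := by
      intro ci hci hci0
      obtain ⟨n1, hn1, h1⟩ := D.K.inv_mem hci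
      refine ⟨n1, hn1, fun t ht => ?_⟩
      have h2 := D.O.mul_mem h1 ht
      have e : (n1 : ℂ) * ci⁻¹ * ((m : ℂ) * (t * ci)) = ((n1 * m : ℕ) : ℂ) * t := by
        push_cast
        field_simp
      rwa [e] at h2
    by_cases h1 : c.1 = 0
    · have h2 : c.2 ≠ 0 := fun h2 => hc.2 (Prod.ext h1 h2)
      obtain ⟨n1, hn1, h3⟩ := key c.2 hc.1.2 h2
      exact ⟨n1, hn1, fun t ht => h3 t (hf.supp _ ht).2⟩
    · obtain ⟨n1, hn1, h3⟩ := key c.1 hc.1.1 h1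
      exact ⟨n1, hn1, fun t ht => h3 t (hf.supp _ ht).1⟩
  obtain ⟨n1, hn1, hden⟩ := hn1
  obtain ⟨n, hn, hden'⟩ : ∃ n : ℕ, 0 < n ∧ ∀ t : ℂ, f (t • c) ≠ 0 → (n : ℂ) * t ∈ D.O :=
    ⟨n1 * m, Nat.mul_pos hn1 hm, hden⟩
  have hn' : (n : ℂ) ≠ 0 := by exact_mod_cast hn.ne'
  let φ : ℤ × ℤ → ℂ := fun x => (n : ℂ)⁻¹ * UNI.xx D.a x
  have hφ : Function.Injective φ := by
    intro x y h
    exact ls_xx_inj _ (mul_left_cancel₀ (inv_ne_zero hn') h)
  refine (Function.Injective.summable_iff hφ ?_).1 ?_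
  · intro t ht
    by_contra h
    have h0 : f (t • c) ≠ 0 := fun h' => h (by rw [h', zero_mul])
    obtain ⟨x, hx⟩ := hden' t h0
    apply ht
    refine ⟨x, ?_⟩
    simp only [φ]
    rw [← hx]
    field_simp
  · refine Summable.of_norm_bounded
      (g := fun x : ℤ × ℤ => (C * (n : ℝ) ^ 6) * (‖UNI.xx D.a x‖ ^ 6)⁻¹)
      ((ls_lam D.a).mul_left _) ?_
    intro x
    simp only [Function.comp_apply]
    have e1 : ‖(φ x ^ 4 * (starRingEnd ℂ) (φ x) ^ 2)⁻¹‖ =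
        (n : ℝ) ^ 6 * (‖UNI.xx D.a x‖ ^ 6)⁻¹ := by
      rw [norm_inv, norm_mul, norm_pow, norm_pow, RCLike.norm_conj, ← pow_add]
      simp only [φ]
      rw [norm_mul, norm_inv, Complex.norm_natCast, mul_pow, mul_inv, inv_pow, inv_inv]
    rw [norm_mul, e1]
    calc ‖f (φ x • c)‖ * ((n : ℝ) ^ 6 * (‖UNI.xx D.a x‖ ^ 6)⁻¹)
        ≤ C * ((n : ℝ) ^ 6 * (‖UNI.xx D.a x‖ ^ 6)⁻¹) :=
          mul_le_mul_of_nonneg_right (hC _) (by positivity)
      _ = _ := by ring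

end

end RNP
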