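import Pool.Agent.RNP.CiA
import Pool.Agent.RNK.Ci

/-!
# RNP.Ci: the symbols `ρ (Σ_i TT (P_i f))`

`Tw D Λ`: to each admissible `f` belong families `P` of admissible functions (`R f P`), compatible with sums,
`K`-multiples and `GL₂(K)`, such that `Σ_i TT (P_i)` depends only on `f` and the sums `Σ_i ls (P_i) c` are in `K Λ`.
Let `z ∉ K Λ`. There is a `K`-linear `ρ` with `ρ Λ = 0`, `ρ z ≠ 0`, and `s f x y z p = ρ (Σ_i TT (P_i) x y z p)` is a `Coc`.
-/

open RNK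

namespace RNP

variable {D : OD}

/-- a `K`-linear map which vanishes at `Λ` and not at `z` -/
theorem exists_rho {Λ z : ℂ} (hz : ∀ k ∈ D.K, z ≠ k * Λ) :
    ∃ ρ : ℂ → ℂ, (∀ u v, ρ (u + v) = ρ u + ρ v) ∧ (∀ k ∈ D.K, ∀ u, ρ (k * u) = k * ρ u) ∧
      ρ Λ = 0 ∧ ρ z ≠ 0 := by
  have hnot : z ∉ Submodule.span D.K ({Λ} : Set ℂ) := by
    intro hmem
    obtain ⟨k, hk⟩ := Submodule.mem_span_singleton.1 hmem
    exact hz k.1 k.2 (by rw [← hk]; rfl)
  obtain ⟨φ, hφ, hle⟩ := Submodule.exists_le_ker_of_notMem hnot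
  refine ⟨fun u => ((φ u : D.K) : ℂ), fun u v => by simp, fun k hk u => ?_, ?_, ?_⟩
  · have h1 : k * u = (⟨k, hk⟩ : D.K) • u := rfl
    simp only [h1, map_smul]
    rfl
  · have h1 : Λ ∈ LinearMap.ker φ := hle (Submodule.mem_span_singleton_self _)
    rw [LinearMap.mem_ker] at h1
    simp [h1]
  · intro h
    exact hφ (Subtype.ext h)

theorem TT_add {f g : Vec → ℂ} (hf : AdmE D f) (hg : AdmE D g) {x y z p : Vec} (hx : Cu D x)
    (hy : Cu D y) (hz : Cu D z) (hp : K2 D p) :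
    TT (fun w => f w + g w) x y z p = TT f x y z p + TT g x y z p := by
  unfold TT
  rw [← (TT_summable hf hx hy hz hp).tsum_add (TT_summable hg hx hy hz hp)]
  exact tsum_congr fun w => by ring

theorem TT_quad {f : Vec → ℂ} (hf : AdmE D f) {x y z : Vec} (hx : Cu D x) (hy : Cu D y)
    (hz : Cu D z) (p : Vec) :
    TT f x y z p = p.1 ^ 2 * TT f x y z e1 +
      p.1 * p.2 * (TT f x y z v11 - TT f x y z e1 - TT f x y z e2) + p.2 ^ 2 * TT f x y z e2 := by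
  obtain ⟨k11, k12, k22, hk⟩ := KG_quad x y z
  have h1 : ∀ w, KG x y z e1 w = k11 w := fun w => by
    rw [hk]; simp [e1]
  have h2 : ∀ w, KG x y z e2 w = k22 w := fun w => by
    rw [hk]; simp [e2]
  have h3 : ∀ w, KG x y z v11 w = k11 w + k12 w + k22 w := fun w => by
    rw [hk]; simp [v11]
  have s1 := TT_summable hf hx hy hz (Cu_e1 (D := D)).1
  have s2 := TT_summable hf hx hy hz (Cu_e2 (D := D)).1
  have s3 := TT_summable hf hx hy hz (Cu_v11 (D := D)).1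
  unfold TT
  have e : ∀ w, f w * KG x y z p w = p.1 ^ 2 * (f w * KG x y z e1 w) +
      p.1 * p.2 * (f w * KG x y z v11 w - f w * KG x y z e1 w - f w * KG x y z e2 w) +
      p.2 ^ 2 * (f w * KG x y z e2 w) := fun w => by
    rw [h1, h2, h3, hk]
    ring
  rw [tsum_congr e, Summable.tsum_add, Summable.tsum_add, tsum_mul_left, tsum_mul_left,
    tsum_mul_left, Summable.tsum_sub, Summable.tsum_sub]
  · exact s3
  · exact s1
  · exact s3.sub s1
  · exact s2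
  · exact s1.mul_left _
  · exact ((s3.sub s1).sub s2).mul_left _
  · exact (s1.mul_left _).add (((s3.sub s1).sub s2).mul_left _)
  · exact s2.mul_left _

/-- presentations of functions by families of functions -/
structure Tw (D : OD) (Λ : ℂ) where
  ι : Type
  fin : Fintype ι
  R : (Vec → ℂ) → (ι → Vec → ℂ) → Prop
  adm : ∀ f P, R f P → ∀ i, AdmE D (P i)
  ex : ∀ f, AdmE D f → ∃ P, R f P
  uniq : ∀ f P Q, R f P → R f Q → ∀ x y z p, Cu D x → Cu D y → Cu D z → K2 D p →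
    ∑ i, TT (P i) x y z p = ∑ i, TT (Q i) x y z p
  add : ∀ f g, AdmE D f → AdmE D g → ∃ P Q, R f P ∧ R g Q ∧
    R (fun w => f w + g w) (fun i w => P i w + Q i w)
  smul : ∀ f P, R f P → ∀ k ∈ D.K, R (fun w => k * f w) (fun i w => k * P i w)
  act : ∀ f, AdmE D f → ∀ g, GK D g → ∃ P, R f P ∧
    R (fun w => f (g.act w)) (fun i w => P i (g.act w))
  line : ∀ f P, R f P → ∀ c, Cu D c → ∃ k ∈ D.K, ∑ i, ls (P i) c = k * Λ

instance Tw.instFin {Λ : ℂ} (T : Tw D Λ) : Fintype T.ι := T.fin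

open Classical in
/-- the value of the twisted symbol -/
noncomputable def Tw.V {Λ : ℂ} (T : Tw D Λ) (f : Vec → ℂ) (x y z p : Vec) : ℂ :=
  if h : ∃ P, T.R f P then ∑ i, TT (Classical.choose h i) x y z p else 0

theorem Tw.V_eq {Λ : ℂ} (T : Tw D Λ) {f : Vec → ℂ} {P : T.ι → Vec → ℂ} (h : T.R f P)
    {x y z p : Vec} (hx : Cu D x) (hy : Cu D y) (hz : Cu D z) (hp : K2 D p) :
    T.V f x y z p = ∑ i, TT (P i) x y z p := by
  have h' : ∃ P, T.R f P := ⟨P, h⟩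
  unfold Tw.V
  rw [dif_pos h']
  exact T.uniq f _ _ (Classical.choose_spec h') h x y z p hx hy hz hp

theorem exists_coc {Λ z : ℂ} (T : Tw D Λ) (hz : ∀ k ∈ D.K, z ≠ k * Λ) : ∃ S : Coc D, ∃ ρ : ℂ → ℂ,
    (∀ f x y z' p, S.s f x y z' p = ρ (T.V f x y z' p)) ∧ ρ z ≠ 0 := by
  obtain ⟨ρ, hadd, hsm, hL, hρz⟩ := exists_rho hz
  have h0 : ρ 0 = 0 := by
    have := hsm 0 D.K.zero_mem 0
    simpa using this
  have hneg : ∀ u, ρ (-u) = -ρ u := fun u => by
    have := hsm (-1) (D.K.neg_mem D.K.one_mem) u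
    simpa using this
  have hsub : ∀ u v, ρ (u - v) = ρ u - ρ v := fun u v => by
    rw [sub_eq_add_neg, hadd, hneg, ← sub_eq_add_neg]
  refine ⟨{
    s := fun f x y z p => ρ (T.V f x y z p)
    add := ?_
    smul := ?_
    a12 := ?_
    a23 := ?_
    coc := ?_
    scal := ?_
    equiv := ?_
    quad := ?_ }, ρ, fun _ _ _ _ _ => rfl, hρz⟩
  · intro f g hf hg x y z p hx hy hz hp
    show ρ _ = ρ _ + ρ _
    obtain ⟨P, Q, hP, hQ, hPQ⟩ := T.add f g hf hg
    rw [T.V_eq hPQ hx hy hz hp, T.V_eq hP hx hy hz hp, T.V_eq hQ hx hy hz hp, ← hadd,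
      ← Finset.sum_add_distrib]
    congr 1
    exact Finset.sum_congr rfl fun i _ =>
      TT_add (T.adm f P hP i) (T.adm g Q hQ i) hx hy hz hp
  · intro f hf k hk x y z p hx hy hz hp
    show ρ _ = k * ρ _
    obtain ⟨P, hP⟩ := T.ex f hf
    rw [T.V_eq (T.smul f P hP k hk) hx hy hz hp, T.V_eq hP hx hy hz hp, ← hsm k hk,
      Finset.mul_sum]
    congr 1
    exact Finset.sum_congr rfl fun i _ => TT_smul k (P i) x y z p
  · intro f hf x y z p hx hy hz hp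
    show ρ _ = -ρ _
    obtain ⟨P, hP⟩ := T.ex f hf
    rw [T.V_eq hP hy hx hz hp, T.V_eq hP hx hy hz hp, ← hneg, ← Finset.sum_neg_distrib]
    congr 1
    exact Finset.sum_congr rfl fun i _ => TT_a12 (P i) x y z p
  · intro f hf x y z p hx hy hz hp
    show ρ _ = -ρ _
    obtain ⟨P, hP⟩ := T.ex f hf
    rw [T.V_eq hP hx hz hy hp, T.V_eq hP hx hy hz hp, ← hneg, ← Finset.sum_neg_distrib]
    congr 1
    exact Finset.sum_congr rfl fun i _ => TT_a23 (P i) x y z p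
  · intro f hf x y z w p hx hy hz hw hp
    show ρ _ - ρ _ + ρ _ - ρ _ = 0
    obtain ⟨P, hP⟩ := T.ex f hf
    rw [T.V_eq hP hy hz hw hp, T.V_eq hP hx hz hw hp, T.V_eq hP hx hy hw hp,
      T.V_eq hP hx hy hz hp, ← hsub, ← hadd, ← hsub]
    obtain ⟨a1, ha1, a2, ha2, a3, ha3, a4, ha4, h4⟩ := TT_coc4 hx hy hz hw hp
    obtain ⟨k1, hk1, e1⟩ := T.line f P hP x hx
    obtain ⟨k2, hk2, e2⟩ := T.line f P hP y hy
    obtain ⟨k3, hk3, e3⟩ := T.line f P hP z hz
    obtain ⟨k4, hk4, e4⟩ := T.line f P hP w hw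
    have e : ∑ i, TT (P i) y z w p - ∑ i, TT (P i) x z w p + ∑ i, TT (P i) x y w p -
        ∑ i, TT (P i) x y z p = (a1 * k1 + a2 * k2 + a3 * k3 + a4 * k4) * Λ := by
      rw [← Finset.sum_sub_distrib, ← Finset.sum_add_distrib, ← Finset.sum_sub_distrib,
        Finset.sum_congr rfl fun i _ => h4 (P i) (T.adm f P hP i), Finset.sum_add_distrib,
        Finset.sum_add_distrib, Finset.sum_add_distrib, ← Finset.mul_sum, ← Finset.mul_sum,
        ← Finset.mul_sum, ← Finset.mul_sum, e1, e2, e3, e4]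
      ring
    rw [e, hsm _ (D.K.add_mem (D.K.add_mem (D.K.add_mem (D.K.mul_mem ha1 hk1)
      (D.K.mul_mem ha2 hk2)) (D.K.mul_mem ha3 hk3)) (D.K.mul_mem ha4 hk4)), hL, mul_zero]
  · intro f hf k hk hk0 x y z p hx hy hz hp
    show ρ _ = ρ _
    obtain ⟨P, hP⟩ := T.ex f hf
    rw [T.V_eq hP (Cu_smul hk hk0 hx) hy hz hp, T.V_eq hP hx hy hz hp]
    congr 1
    exact Finset.sum_congr rfl fun i _ => TT_scal (P i) hk0 x y z p
  · intro f hf g hg x y z p hx hy hz hp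
    show ρ _ = _ * ρ _
    obtain ⟨P, hP, hPg⟩ := T.act f hf g hg
    rw [T.V_eq hPg hx hy hz hp, T.V_eq hP (Cu_act hg hx) (Cu_act hg hy) (Cu_act hg hz)
      (K2_act hg hp), ← hsm _ (nsq_K (det_K hg)), Finset.mul_sum]
    congr 1
    exact Finset.sum_congr rfl fun i _ => TT_act (P i) hg.2 x y z p
  · intro f hf x y z hx hy hz
    obtain ⟨P, hP⟩ := T.ex f hf
    refine ⟨ρ (∑ i, TT (P i) x y z e1), ρ (∑ i, (TT (P i) x y z v11 - TT (P i) x y z e1 -
      TT (P i) x y z e2)), ρ (∑ i, TT (P i) x y z e2), fun p hp => ?_⟩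
    show ρ _ = _
    rw [T.V_eq hP hx hy hz hp, ← hsm _ (D.K.pow_mem hp.1 2), ← hsm _ (D.K.mul_mem hp.1 hp.2),
      ← hsm _ (D.K.pow_mem hp.2 2), ← hadd, ← hadd]
    congr 1
    rw [Finset.mul_sum, Finset.mul_sum, Finset.mul_sum, ← Finset.sum_add_distrib,
      ← Finset.sum_add_distrib]
    exact Finset.sum_congr rfl fun i _ => TT_quad (T.adm f P hP i) hx hy hz p

end RNP
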