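import Pool.Agent.RNP.Ab
import Pool.Agent.RNP.Ci

/-!
# RNP.Tv: the value of the twisted lattice sum

If the sum were not in `K Λ`, `exists_coc` and `tri_abs` would give a contradiction.
-/

open RNK

namespace RNP

variable {D : OD}

theorem tri_val {Λ : ℂ} (T : Tw D Λ) (hinf : ∀ P0 : ℕ, ∃ π : PD D, P0 < π.p)
    {N : ℕ} [NeZero N] {C : Finset ℂ} (hC : Bp D N C)
    {V : Finset ℂ} (hV : ∀ v ∈ V, v ∈ D.K) {f : Vec → ℂ} (hf : Fn D N V f)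
    (h1 : ∀ x y, f (-x, y) = f (x, y)) (h2 : ∀ x y, f (y, x) = -f (x, y))
    {J : ℕ} {q : Fin J → ℂ} (hq : ∀ j, q j ∈ D.O ∧ q j ≠ 0) {ψ : Fin J → Vec → ℂ}
    (hψ : ∀ j, Fn D N V (ψ j))
    (hav : ∀ j, ∀ y ∈ D.O,
      ∑ k : ZMod N × ZMod N, ψ j (UNI.xx D.a ((k.1.val : ℤ), (k.2.val : ℤ)), y) = 0)
    {θ : Vec → ℂ} (hθ : Fn D N V θ) (ho : ∀ x y, θ (-x, y) = -θ (x, y))
    (hc : ∀ x y, f (x, y) - f (x + y, y) =
      ∑ j, (Tq (q j) (ψ j) (x, y) - ψ j (x, y)) + θ (x, y)) :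
    ∃ k ∈ D.K, T.V f e2 e1 v11 v11 = k * Λ := by
  by_contra hcon
  push Not at hcon
  obtain ⟨S, ρ, h, h'⟩ := exists_coc T (z := T.V f e2 e1 v11 v11)
    (fun k hk => hcon k hk)
  apply h'
  rw [← h]
  exact tri_abs hinf S hC hV hf h1 h2 hq hψ hav hθ ho hc

end RNP
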