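import Pool.Agent.RNP.RgP

/-!
# RNP.Fc: closure properties of `Fn` and `Adm`

The statements of `RNK/Fc` without the invariance (see also the private lemmas there). All proofs are
elementary.
* `Adm_up`: `m ∣ m'`. `AdmE_act`: `g⁻¹` and `g` have entries with a common denominator `n` (`clear`); modulus
  `m n²` or so: supp: `g w ∈ (1/m) O²` implies `w ∈ (1/(m n)) O²`; period: `g (m n v) = m (n g v)`.
* `AdmE_Fn`, `Fn_finite`: `reps` (a function in `Fn D M V` is determined by its values at the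
  representatives of `O² / M O²`).
-/

open RNK

namespace RNP
noncomputable section

variable {D : OD}

private theorem fc_cl {g : Mat} (hg : GK D g) :
    ∃ n : ℕ, 0 < n ∧ ∀ v, O2 D v → O2 D ((n : ℂ) • g.act v) := by
  obtain ⟨n1, h1, h2⟩ := clear (D := D) (w := (g.a, g.b)) ⟨hg.1.1, hg.1.2.1⟩
  obtain ⟨n2, h3, h4⟩ := clear (D := D) (w := (g.c, g.d)) ⟨hg.1.2.2.1, hg.1.2.2.2⟩
  refine ⟨n1 * n2, Nat.mul_pos h1 h3, fun v hv => ⟨?_, ?_⟩⟩
  · have e : ((((n1 * n2 : ℕ) : ℂ)) • g.act v).1 =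
        (n2 : ℂ) * ((n1 * g.a) * v.1 + (n1 * g.b) * v.2) := by
      simp only [Prod.smul_fst, smul_eq_mul, act_fst]
      push_cast
      ring
    rw [e]
    exact D.O.mul_mem (nat_O n2) (D.O.add_mem (D.O.mul_mem h2.1 hv.1) (D.O.mul_mem h2.2 hv.2))
  · have e : ((((n1 * n2 : ℕ) : ℂ)) • g.act v).2 =
        (n1 : ℂ) * ((n2 * g.c) * v.1 + (n2 * g.d) * v.2) := by
      simp only [Prod.smul_snd, smul_eq_mul, act_snd]
      push_cast
      ring
    rw [e]
    exact D.O.mul_mem (nat_O n1) (D.O.add_mem (D.O.mul_mem h4.1 hv.1) (D.O.mul_mem h4.2 hv.2))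

theorem Adm_up {m m' : ℕ} {f : Vec → ℂ} (hf : Adm D m f) (h : m ∣ m') (h' : 0 < m') :
    Adm D m' f := by
  obtain ⟨k, rfl⟩ := h
  constructor
  · exact h'
  · exact hf.val
  · intro w hw
    have e : (((m * k : ℕ) : ℂ)) • w = (k : ℂ) • ((m : ℂ) • w) := by
      rw [smul_smul]
      congr 1
      push_cast
      ring
    rw [e]
    exact O2_smul (nat_O k) (hf.supp w hw)
  · intro w v hv
    have e : (((m * k : ℕ) : ℂ)) • v = (m : ℂ) • ((k : ℂ) • v) := by
      rw [smul_smul]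
      congr 1
      push_cast
      ring
    rw [e]
    exact hf.per w _ (O2_smul (nat_O k) hv)

theorem Fn_Adm {M : ℕ} {V : Finset ℂ} {f : Vec → ℂ} (hM : 0 < M) (hV : ∀ v ∈ V, v ∈ D.K)
    (hf : Fn D M V f) : Adm D M f := by
  constructor
  · exact hM
  · intro w
    by_cases h : f w = 0
    · rw [h]; exact D.K.zero_mem
    · exact hV _ (hf.val w h)
  · intro w hw
    exact O2_smul (nat_O M) (hf.supp w hw)
  · exact hf.per

theorem Fn_AdmE {M : ℕ} {V : Finset ℂ} {f : Vec → ℂ} (hM : 0 < M) (hV : ∀ v ∈ V, v ∈ D.K)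
    (hf : Fn D M V f) : AdmE D f := ⟨M, Fn_Adm hM hV hf⟩

theorem AdmE_zero (D : OD) : AdmE D (fun _ => 0) :=
  ⟨1, one_pos, fun _ => D.K.zero_mem, fun _ h => absurd rfl h, fun _ _ _ => rfl⟩

theorem AdmE_add {f g : Vec → ℂ} (hf : AdmE D f) (hg : AdmE D g) :
    AdmE D (fun w => f w + g w) := by
  obtain ⟨m, hf⟩ := hf
  obtain ⟨n, hg⟩ := hg
  have hp : 0 < m * n := Nat.mul_pos hf.pos hg.pos
  have h1 := Adm_up hf (Dvd.intro _ rfl) hp
  have h2 := Adm_up hg (Dvd.intro_left _ rfl) hp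
  refine ⟨m * n, ?_⟩
  constructor
  · exact hp
  · intro w
    exact D.K.add_mem (h1.val w) (h2.val w)
  · intro w hw
    by_cases h : f w = 0
    · refine h2.supp w fun h' => hw ?_
      show f w + g w = 0
      rw [h, h', add_zero]
    · exact h1.supp w h
  · intro w v hv
    rw [h1.per w v hv, h2.per w v hv]

theorem AdmE_smul {k : ℂ} (hk : k ∈ D.K) {f : Vec → ℂ} (hf : AdmE D f) :
    AdmE D (fun w => k * f w) := by
  obtain ⟨m, h⟩ := hf
  refine ⟨m, ?_⟩
  constructor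
  · exact h.pos
  · intro w
    exact D.K.mul_mem hk (h.val w)
  · intro w hw
    exact h.supp w (right_ne_zero_of_mul hw)
  · intro w v hv
    rw [h.per w v hv]

theorem AdmE_sum {ι : Type*} (s : Finset ι) {f : ι → Vec → ℂ} (hf : ∀ i ∈ s, AdmE D (f i)) :
    AdmE D (fun w => ∑ i ∈ s, f i w) := by
  classical
  induction s using Finset.induction_on with
  | empty =>
    simp only [Finset.sum_empty]
    exact AdmE_zero D
  | insert a s ha ih =>
    simp only [Finset.sum_insert ha]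
    exact AdmE_add (hf a (Finset.mem_insert_self a s))
      (ih fun i hi => hf i (Finset.mem_insert_of_mem hi))

theorem AdmE_act {g : Mat} (hg : GK D g) {f : Vec → ℂ} (hf : AdmE D f) :
    AdmE D (fun w => f (g.act w)) := by
  obtain ⟨m, hm⟩ := hf
  obtain ⟨n1, hn1, hc1⟩ := fc_cl hg
  obtain ⟨n2, hn2, hc2⟩ := fc_cl (GK_inv hg)
  obtain ⟨n, hn0, hn, hn'⟩ : ∃ n : ℕ, 0 < n ∧ (∀ v, O2 D v → O2 D ((n : ℂ) • g.act v)) ∧
      ∀ v, O2 D v → O2 D ((n : ℂ) • g.inv.act v) := by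
    refine ⟨n1 * n2, Nat.mul_pos hn1 hn2, fun v hv => ?_, fun v hv => ?_⟩
    · have e : (((n1 * n2 : ℕ) : ℂ)) • g.act v = (n2 : ℂ) • ((n1 : ℂ) • g.act v) := by
        rw [smul_smul]
        congr 1
        push_cast
        ring
      rw [e]
      exact O2_smul (nat_O n2) (hc1 v hv)
    · have e : (((n1 * n2 : ℕ) : ℂ)) • g.inv.act v = (n1 : ℂ) • ((n2 : ℂ) • g.inv.act v) := by
        rw [smul_smul]
        congr 1
        push_cast
        ring
      rw [e]
      exact O2_smul (nat_O n1) (hc2 v hv)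
  refine ⟨m * n, ?_⟩
  constructor
  · exact Nat.mul_pos hm.pos hn0
  · intro w
    exact hm.val _
  · intro w hw
    have h1 := hn' _ (hm.supp _ hw)
    rw [act_smul, inv_act hg.2, smul_smul] at h1
    have e : ((m * n : ℕ) : ℂ) = (n : ℂ) * (m : ℂ) := by push_cast; ring
    rw [e]
    exact h1
  · intro w v hv
    show f (g.act (w + ((m * n : ℕ) : ℂ) • v)) = f (g.act w)
    have e : g.act (w + ((m * n : ℕ) : ℂ) • v) = g.act w + (m : ℂ) • ((n : ℂ) • g.act v) := by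
      rw [act_add, act_smul, smul_smul]
      push_cast
      rfl
    rw [e]
    exact hm.per _ _ (hn v hv)

/-- an admissible function supported on `O²` is in some `Fn` -/
theorem AdmE_Fn {f : Vec → ℂ} (hf : AdmE D f) (hs : ∀ w, f w ≠ 0 → O2 D w) :
    ∃ M : ℕ, 0 < M ∧ ∃ V : Finset ℂ, (∀ v ∈ V, v ∈ D.K) ∧ Fn D M V f := by
  classical
  obtain ⟨m, hm⟩ := hf
  obtain ⟨S, hS1, hS2⟩ := reps D hm.pos
  refine ⟨m, hm.pos, (S ×ˢ S).image f, ?_, ?_⟩
  · intro v hv
    obtain ⟨w, -, rfl⟩ := Finset.mem_image.1 hv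
    exact hm.val w
  constructor
  · intro w hw
    have h1 := hs w hw
    obtain ⟨r1, hr1, y1, hy1, e1⟩ := hS2 _ h1.1
    obtain ⟨r2, hr2, y2, hy2, e2⟩ := hS2 _ h1.2
    refine Finset.mem_image.2 ⟨(r1, r2), Finset.mem_product.2 ⟨hr1, hr2⟩, ?_⟩
    rw [← hm.per (r1, r2) (y1, y2) ⟨hy1, hy2⟩]
    congr 1
    exact Prod.ext e1.symm e2.symm
  · exact hs
  · exact hm.per

theorem Fn_GO {M : ℕ} {V : Finset ℂ} {f : Vec → ℂ} (hf : Fn D M V f) {g : Mat} (hg : GO D g) :
    Fn D M V (fun w => f (g.act w)) := by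
  constructor
  · intro w hw
    exact hf.val _ hw
  · intro w hw
    have h1 := O2_act (GO_inv hg).1 (hf.supp _ hw)
    rwa [inv_act hg.1.2] at h1
  · intro w v hv
    show f (g.act (w + (M : ℂ) • v)) = f (g.act w)
    rw [act_add, act_smul]
    exact hf.per _ _ (O2_act hg.1 hv)

theorem Fn_up {M M' : ℕ} {V V' : Finset ℂ} {f : Vec → ℂ} (hf : Fn D M V f) (h : M ∣ M')
    (h' : V ⊆ V') : Fn D M' V' f := by
  obtain ⟨k, rfl⟩ := h
  constructor
  · intro w hw
    exact h' (hf.val w hw)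
  · exact hf.supp
  · intro w v hv
    have e : (((M * k : ℕ) : ℂ)) • v = (M : ℂ) • ((k : ℂ) • v) := by
      rw [smul_smul]
      congr 1
      push_cast
      ring
    rw [e]
    exact hf.per w _ (O2_smul (nat_O k) hv)

/-- finitely many functions: `Fn D M V` is a finite set of functions if `0 < M` -/
theorem Fn_finite (D : OD) {M : ℕ} (hM : 0 < M) (V : Finset ℂ) :
    {f : Vec → ℂ | Fn D M V f}.Finite := by
  classical
  obtain ⟨S, hS1, hS2⟩ := reps D hM
  let Φ : (Vec → ℂ) → ({x // x ∈ S ×ˢ S} → ℂ) := fun f r => f r.1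
  have hfin : (Φ '' {f : Vec → ℂ | Fn D M V f}).Finite := by
    refine Set.Finite.subset (Set.Finite.pi' (t := fun _ => ((insert 0 V : Finset ℂ) : Set ℂ))
      fun _ => Finset.finite_toSet _) ?_
    rintro _ ⟨f, hf, rfl⟩ r
    show f r.1 ∈ ((insert 0 V : Finset ℂ) : Set ℂ)
    by_cases h : f r.1 = 0
    · rw [h]; simp
    · exact Finset.mem_coe.2 (Finset.mem_insert_of_mem (hf.val _ h))
  refine Set.Finite.of_finite_image hfin ?_
  intro f hf g hg h
  funext w
  have hf' : Fn D M V f := hf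
  have hg' : Fn D M V g := hg
  by_cases hw : O2 D w
  · obtain ⟨r1, hr1, y1, hy1, e1⟩ := hS2 _ hw.1
    obtain ⟨r2, hr2, y2, hy2, e2⟩ := hS2 _ hw.2
    have e : w = (r1, r2) + (M : ℂ) • (y1, y2) := Prod.ext e1 e2
    rw [e, hf'.per _ _ ⟨hy1, hy2⟩, hg'.per _ _ ⟨hy1, hy2⟩]
    exact congrFun h ⟨(r1, r2), Finset.mem_product.2 ⟨hr1, hr2⟩⟩
  · have h1 : f w = 0 := by
      by_contra h1
      exact hw (hf'.supp w h1)
    have h2 : g w = 0 := by
      by_contra h2
      exact hw (hg'.supp w h2)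
    rw [h1, h2]

end

end RNP
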