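import Pool.Agent.RNP.PfF

/-!
# RNP.Ts: the sum over `t` of `s (f 1_t)`

`f ∈ Fn D M V`. On `O²`: `Σ_t 1_t = 1 + p 1_{π O²}` (`ind_sum`), so `Σ_t f 1_t = f + p φ`,
`φ w = F (π⁻¹ w)` with `F v = f (π v)` on `O²`, again in `Fn D M V`. `s φ = |π|⁻⁴ π⁻² s F`, and `Fn D M V` is
finite, so the second term is `O (p⁻²)`.
-/

open RNK

namespace RNP
variable {D : OD}

/-- `scal` in all places and `quad` -/
theorem s_scal (S : Coc D) {f : Vec → ℂ} (hf : AdmE D f) {k : ℂ} (hk : k ∈ D.K) (h0 : k ≠ 0)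
    {x y z p : Vec} (hx : Cu D x) (hy : Cu D y) (hz : Cu D z) (hp : K2 D p) :
    S.s f (k • x) (k • y) (k • z) (k • p) = k ^ 2 * S.s f x y z p := by
  have hkx := Cu_smul hk h0 hx
  have hky := Cu_smul hk h0 hy
  have hkz := Cu_smul hk h0 hz
  have hkp := K2_smul hk hp
  have e1 : S.s f (k • x) (k • y) (k • z) (k • p) = S.s f x (k • y) (k • z) (k • p) :=
    S.scal f hf k hk h0 x (k • y) (k • z) (k • p) hx hky hkz hkp
  have e2 : S.s f x (k • y) (k • z) (k • p) = S.s f x y (k • z) (k • p) := by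
    rw [S.a12 f hf (k • y) x (k • z) (k • p) hky hx hkz hkp,
      S.scal f hf k hk h0 y x (k • z) (k • p) hy hx hkz hkp,
      S.a12 f hf x y (k • z) (k • p) hx hy hkz hkp, neg_neg]
  have e3 : S.s f x y (k • z) (k • p) = S.s f x y z (k • p) := by
    rw [S.a23 f hf x (k • z) y (k • p) hx hkz hy hkp,
      S.a12 f hf (k • z) x y (k • p) hkz hx hy hkp,
      S.scal f hf k hk h0 z x y (k • p) hz hx hy hkp,
      S.a12 f hf x z y (k • p) hx hz hy hkp,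
      S.a23 f hf x y z (k • p) hx hy hz hkp]
    ring
  rw [e1, e2, e3]
  obtain ⟨S11, S12, S22, hS⟩ := S.quad f hf x y z hx hy hz
  rw [hS _ hkp, hS _ hp]
  simp only [Prod.smul_fst, Prod.smul_snd, smul_eq_mul]
  ring

private theorem ts_zero (S : Coc D) {x y z p : Vec} (hx : Cu D x) (hy : Cu D y) (hz : Cu D z)
    (hp : K2 D p) : S.s (fun _ => 0) x y z p = 0 := by
  have h := S.smul (fun _ => 0) (AdmE_zero D) 0 D.K.zero_mem x y z p hx hy hz hp
  simpa only [zero_mul] using h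

private theorem ts_sum (S : Coc D) {ι : Type*} (T : Finset ι) (F : ι → Vec → ℂ)
    (hF : ∀ i, AdmE D (F i)) {x y z p : Vec} (hx : Cu D x) (hy : Cu D y) (hz : Cu D z)
    (hp : K2 D p) :
    ∑ i ∈ T, S.s (F i) x y z p = S.s (fun w => ∑ i ∈ T, F i w) x y z p := by
  classical
  induction T using Finset.induction_on with
  | empty => simp only [Finset.sum_empty]; exact (ts_zero S hx hy hz hp).symm
  | insert i T hi ih =>
    rw [Finset.sum_insert hi, ih]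
    have h := S.add (F i) (fun w => ∑ j ∈ T, F j w) (hF i) (AdmE_sum T fun j _ => hF j)
      x y z p hx hy hz hp
    rw [← h]
    congr 1
    funext w
    rw [Finset.sum_insert hi]

open Classical in
/-- `f (w₀ v)` on `O²` -/
private noncomputable def tsF (D : OD) (w0 : ℂ) (f : Vec → ℂ) (v : Vec) : ℂ :=
  if O2 D v then f (w0 • v) else 0

private theorem tsF_Fn {M : ℕ} {V : Finset ℂ} {f : Vec → ℂ} (hf : Fn D M V f) {w0 : ℂ}
    (h : w0 ∈ D.O) : Fn D M V (tsF D w0 f) := by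
  refine ⟨fun w hw => ?_, fun w hw => ?_, fun w v hv => ?_⟩
  · unfold tsF at hw ⊢
    by_cases h1 : O2 D w
    · rw [if_pos h1] at hw ⊢
      exact hf.val _ hw
    · rw [if_neg h1] at hw
      exact absurd rfl hw
  · unfold tsF at hw
    by_contra h1
    rw [if_neg h1] at hw
    exact hw rfl
  · unfold tsF
    have h2 : O2 D ((M : ℂ) • v) := O2_smul (nat_O M) hv
    by_cases h1 : O2 D w
    · rw [if_pos h1, if_pos (O2_add h1 h2), smul_add, smul_comm w0 (M : ℂ) v]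
      exact hf.per _ _ (O2_smul h hv)
    · have h3 : ¬ O2 D (w + (M : ℂ) • v) := by
        intro h4
        apply h1
        have h5 := O2_sub h4 h2
        rwa [add_sub_cancel_right] at h5
      rw [if_neg h1, if_neg h3]

theorem sum_t (S : Coc D) {M : ℕ} (hM : 0 < M) {V : Finset ℂ}
    (hV : ∀ v ∈ V, v ∈ D.K) {f : Vec → ℂ} (hf : Fn D M V f) {x y z p : Vec} (hx : Cu D x)
    (hy : Cu D y) (hz : Cu D z) (hp : K2 D p) :
    Tends0 (fun π : PD D => ∑ t : π.T, S.s (fun w => f w * π.ind t w) x y z p -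
      S.s f x y z p) := by
  classical
  obtain ⟨C, hC⟩ : ∃ C : ℝ, ∀ F, Fn D M V F → ‖S.s F x y z p‖ ≤ C := by
    obtain ⟨C, hC⟩ := ((Fn_finite D hM V).image (fun F => ‖S.s F x y z p‖)).bddAbove
    exact ⟨C, fun F hF => hC ⟨F, hF, rfl⟩⟩
  have hC0 : 0 ≤ C := (norm_nonneg _).trans (hC f hf)
  intro ε hε
  refine ⟨⌈C / ε⌉₊, fun π hπ => ?_⟩
  have hA : AdmE D f := Fn_AdmE hM hV hf
  have hw0 : π.w ≠ 0 := PD.wne π
  have hwK : π.w⁻¹ ∈ D.K := D.K.inv_mem (O_sub_K π.hw)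
  have hwi : π.w⁻¹ ≠ 0 := inv_ne_zero hw0
  have hg : GK D (dg π.w⁻¹ π.w⁻¹) := GK_dg hwK hwK hwi hwi
  have hgact : ∀ w : Vec, (dg π.w⁻¹ π.w⁻¹).act w = π.w⁻¹ • w := fun w => by
    rw [dg_act]; rfl
  have hF := tsF_Fn hf π.hw
  have hFA : AdmE D (tsF D π.w f) := Fn_AdmE hM hV hF
  -- the sum of the functions
  have hfun : (fun w => ∑ t : π.T, f w * π.ind t w) =
      fun w => f w + (π.p : ℂ) * tsF D π.w f ((dg π.w⁻¹ π.w⁻¹).act w) := by
    funext w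
    rw [hgact]
    have hforth : ∀ u : Vec, π.w • (π.w⁻¹ • u) = u := fun u => by
      rw [smul_smul, mul_inv_cancel₀ hw0, one_smul]
    have hback : ∀ u : Vec, π.w⁻¹ • (π.w • u) = u := fun u => by
      rw [smul_smul, inv_mul_cancel₀ hw0, one_smul]
    by_cases h : f w = 0
    · have h2 : tsF D π.w f (π.w⁻¹ • w) = 0 := by
        unfold tsF
        rw [hforth, h, ite_self]
      simp [h, h2]
    · have hO := hf.supp _ h
      rw [← Finset.mul_sum, ind_sum π hO]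
      by_cases hu : ∃ u, O2 D u ∧ w = π.w • u
      · rw [if_pos hu]
        obtain ⟨u, hu1, rfl⟩ := hu
        rw [hback]
        unfold tsF
        rw [if_pos hu1]
        ring
      · rw [if_neg hu]
        have h2 : tsF D π.w f (π.w⁻¹ • w) = 0 := by
          by_contra hne
          exact hu ⟨_, hF.supp _ hne, (hforth w).symm⟩
        rw [h2]
        ring
  have hAg : AdmE D (fun w => tsF D π.w f ((dg π.w⁻¹ π.w⁻¹).act w)) := AdmE_act hg hFA
  have hpK : (π.p : ℂ) ∈ D.K := O_sub_K (nat_O π.p)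
  have hp0 : (0 : ℝ) < π.p := by exact_mod_cast π.ppos
  have hn : ‖π.w‖ ^ 2 = (π.p : ℝ) := PD.nsq π
  have key : ∑ t : π.T, S.s (fun w => f w * π.ind t w) x y z p - S.s f x y z p =
      (π.p : ℂ) * (((‖π.w⁻¹ * π.w⁻¹‖ ^ 2 : ℝ) : ℂ) * (π.w⁻¹ ^ 2 *
        S.s (tsF D π.w f) x y z p)) := by
    rw [ts_sum S Finset.univ (fun t w => f w * π.ind t w) (fun t => AdmE_ind π hA hf.supp t)
      hx hy hz hp, hfun]
    rw [S.add f (fun w => (π.p : ℂ) * tsF D π.w f ((dg π.w⁻¹ π.w⁻¹).act w)) hA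
      (AdmE_smul hpK hAg) x y z p hx hy hz hp, S.smul _ hAg _ hpK x y z p hx hy hz hp,
      S.equiv _ hFA _ hg x y z p hx hy hz hp]
    simp only [hgact]
    rw [s_scal S hFA hwK hwi hx hy hz hp, det_dg]
    ring
  simp only
  have e1 : ‖π.w⁻¹ * π.w⁻¹‖ ^ 2 = ((π.p : ℝ) ^ 2)⁻¹ := by
    rw [norm_mul, norm_inv, ← hn]
    field_simp
  have e2 : (‖π.w‖⁻¹) ^ 2 = (π.p : ℝ)⁻¹ := by rw [inv_pow, hn]
  have e3 : ‖(π.p : ℂ) * (((‖π.w⁻¹ * π.w⁻¹‖ ^ 2 : ℝ) : ℂ) * (π.w⁻¹ ^ 2 *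
        S.s (tsF D π.w f) x y z p))‖ =
      (π.p : ℝ) * (((π.p : ℝ) ^ 2)⁻¹ * ((π.p : ℝ)⁻¹ * ‖S.s (tsF D π.w f) x y z p‖)) := by
    rw [norm_mul, norm_mul (((‖π.w⁻¹ * π.w⁻¹‖ ^ 2 : ℝ) : ℂ)), norm_mul (π.w⁻¹ ^ 2),
      Complex.norm_natCast, Complex.norm_real, Real.norm_of_nonneg (by positivity), e1, norm_pow,
      norm_inv, e2]
  rw [key, e3]
  have h1 : C / ε < π.p := (Nat.le_ceil _).trans_lt (by exact_mod_cast hπ)
  have h2 : C < ε * π.p := by
    rw [div_lt_iff₀ hε] at h1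
    linarith
  have h3 : (1 : ℝ) ≤ π.p := by exact_mod_cast π.ppos
  have h4 := hC _ hF
  calc (π.p : ℝ) * (((π.p : ℝ) ^ 2)⁻¹ * ((π.p : ℝ)⁻¹ * ‖S.s (tsF D π.w f) x y z p‖))
      = ‖S.s (tsF D π.w f) x y z p‖ / (π.p : ℝ) ^ 2 := by field_simp
    _ ≤ C / (π.p : ℝ) ^ 2 := by gcongr
    _ ≤ C / (π.p : ℝ) := by
        apply div_le_div_of_nonneg_left hC0 hp0
        nlinarith
    _ ≤ ε := by
        rw [div_le_iff₀ hp0]
        exact h2.le

end RNP
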