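import Pool.Agent.RNP.Fc

/-!
# RNP.FcD: cutting by divisibility of `y`, dilation, the operator `T_q`

* `cutd`, `cutn`: `q` divides `N`, so `q ∣ y` iff `q ∣ y + N v`; and for `x` prime to `N`: `q ∣ x y` iff
  `q ∣ y` (`cop_dvd`, `cop_dvd_mul`).
* `dil`: `cutd` of `f` at `(x, q y)`: it is supported on `O²`.
* `TqE`: `T_q ψ = ‖q‖² ψ ∘ (1/q, 1)`, `AdmE_act`, `AdmE_smul`, `nsq_K`.
-/

open RNK

namespace RNP
noncomputable section

variable {D : OD}

open Classical in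
/-- `f` on the vectors with `q ∣ y` -/
def cutd (D : OD) (q : ℂ) (f : Vec → ℂ) (w : Vec) : ℂ :=
  if (∃ z ∈ D.O, w.2 = q * z) then f w else 0

open Classical in
/-- `f` on the vectors with `q ∤ y` -/
def cutn (D : OD) (q : ℂ) (f : Vec → ℂ) (w : Vec) : ℂ :=
  if (∃ z ∈ D.O, w.2 = q * z) then 0 else f w

/-- `f (x, q y)`, on `O²` -/
def dil (D : OD) (q : ℂ) (f : Vec → ℂ) (w : Vec) : ℂ := cutd D q f ((dg 1 q).act w)

/-- `T_q ψ (x, y) = ‖q‖² ψ (x / q, y)` -/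
def Tq (q : ℂ) (ψ : Vec → ℂ) (w : Vec) : ℂ := ((‖q‖ ^ 2 : ℝ) : ℂ) * ψ (w.1 / q, w.2)

theorem cut_add (D : OD) (q : ℂ) (f : Vec → ℂ) : (fun w => cutd D q f w + cutn D q f w) = f := by
  funext w
  by_cases h : ∃ z ∈ D.O, w.2 = q * z
  · simp only [cutd, cutn, if_pos h, add_zero]
  · simp only [cutd, cutn, if_neg h, zero_add]

private theorem fcd_per {N : ℕ} {q : ℂ} (hd : ∃ z ∈ D.O, (N : ℂ) = q * z) (w : Vec) {v : Vec}
    (hv : O2 D v) :
    (∃ z ∈ D.O, (w + (N : ℂ) • v).2 = q * z) ↔ ∃ z ∈ D.O, w.2 = q * z := by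
  obtain ⟨n, hn, e⟩ := hd
  have h1 : (w + (N : ℂ) • v).2 = w.2 + q * n * v.2 := by
    simp only [Prod.snd_add, Prod.smul_snd, smul_eq_mul, e]
  rw [h1]
  constructor
  · rintro ⟨z, hz, ez⟩
    exact ⟨z - n * v.2, D.O.sub_mem hz (D.O.mul_mem hn hv.2), by linear_combination ez⟩
  · rintro ⟨z, hz, ez⟩
    exact ⟨z + n * v.2, D.O.add_mem hz (D.O.mul_mem hn hv.2), by linear_combination ez⟩

theorem Fn_cutd {N : ℕ} {V : Finset ℂ} {f : Vec → ℂ} (hf : Fn D N V f) {q : ℂ} (hq : q ∈ D.O)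
    (hd : ∃ z ∈ D.O, (N : ℂ) = q * z) : Fn D N V (cutd D q f) := by
  have key : ∀ w, cutd D q f w ≠ 0 → cutd D q f w = f w := by
    intro w h
    by_cases h1 : ∃ z ∈ D.O, w.2 = q * z
    · simp only [cutd, if_pos h1]
    · exact absurd (by simp only [cutd, if_neg h1]) h
  refine ⟨fun w h => ?_, fun w h => ?_, fun w v hv => ?_⟩
  · have e := key w h
    rw [e] at h ⊢
    exact hf.val w h
  · have e := key w h
    rw [e] at h
    exact hf.supp w h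
  · by_cases h1 : ∃ z ∈ D.O, w.2 = q * z
    · have h2 := (fcd_per hd w hv).2 h1
      simp only [cutd]
      rw [if_pos h1, if_pos h2, hf.per w v hv]
    · have h2 := fun h => h1 ((fcd_per hd w hv).1 h)
      simp only [cutd]
      rw [if_neg h1, if_neg h2]

theorem Fn_cutn {N : ℕ} {V : Finset ℂ} {f : Vec → ℂ} (hf : Fn D N V f) {q : ℂ} (hq : q ∈ D.O)
    (hd : ∃ z ∈ D.O, (N : ℂ) = q * z) : Fn D N V (cutn D q f) := by
  have key : ∀ w, cutn D q f w ≠ 0 → cutn D q f w = f w := by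
    intro w h
    by_cases h1 : ∃ z ∈ D.O, w.2 = q * z
    · exact absurd (by simp only [cutn, if_pos h1]) h
    · simp only [cutn, if_neg h1]
  refine ⟨fun w h => ?_, fun w h => ?_, fun w v hv => ?_⟩
  · have e := key w h
    rw [e] at h ⊢
    exact hf.val w h
  · have e := key w h
    rw [e] at h
    exact hf.supp w h
  · by_cases h1 : ∃ z ∈ D.O, w.2 = q * z
    · have h2 := (fcd_per hd w hv).2 h1
      simp only [cutn]
      rw [if_pos h1, if_pos h2]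
    · have h2 := fun h => h1 ((fcd_per hd w hv).1 h)
      simp only [cutn]
      rw [if_neg h1, if_neg h2, hf.per w v hv]

theorem Fn_dil {N : ℕ} {V : Finset ℂ} {f : Vec → ℂ} (hf : Fn D N V f) {q : ℂ} (hq : q ∈ D.O)
    (h0 : q ≠ 0) (hd : ∃ z ∈ D.O, (N : ℂ) = q * z) : Fn D N V (dil D q f) := by
  have hc := Fn_cutd hf hq hd
  have hm : MO D (dg 1 q) := MO_dg D.O.one_mem hq one_ne_zero h0
  refine ⟨fun w h => hc.val _ h, fun w h => ?_, fun w v hv => ?_⟩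
  · have h1 : cutd D q f ((dg 1 q).act w) ≠ 0 := h
    have h2 := hc.supp _ h1
    rw [dg_act] at h1 h2
    have h3 : (1 : ℂ) * w.1 ∈ D.O := h2.1
    rw [one_mul] at h3
    refine ⟨h3, ?_⟩
    by_contra hn
    refine h1 ?_
    unfold cutd
    rw [if_neg]
    rintro ⟨z, hz, ez⟩
    have e : q * w.2 = q * z := ez
    exact hn (by rw [mul_left_cancel₀ h0 e]; exact hz)
  · show cutd D q f ((dg 1 q).act (w + (N : ℂ) • v)) = cutd D q f ((dg 1 q).act w)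
    rw [act_add, act_smul]
    exact hc.per _ _ (O2_act hm hv)

theorem TqE {ψ : Vec → ℂ} (hψ : AdmE D ψ) {q : ℂ} (hq : q ∈ D.O) (h0 : q ≠ 0) :
    AdmE D (Tq q ψ) := by
  have hK := O_sub_K hq
  have hg : GK D (dg (1 / q) 1) :=
    GK_dg (D.K.div_mem D.K.one_mem hK) D.K.one_mem (one_div_ne_zero h0) one_ne_zero
  have h1 := AdmE_smul (nsq_K hK) (AdmE_act hg hψ)
  have e : Tq q ψ = fun w => ((‖q‖ ^ 2 : ℝ) : ℂ) * ψ ((dg (1 / q) 1).act w) := by
    funext w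
    unfold Tq
    rw [dg_act, one_mul, one_div, inv_mul_eq_div]
  rw [e]
  exact h1

theorem Tq_supp {ψ : Vec → ℂ} (hψ : ∀ w, ψ w ≠ 0 → O2 D w) {q : ℂ} (hq : q ∈ D.O)
    (h0 : q ≠ 0) : ∀ w, Tq q ψ w ≠ 0 → O2 D w := by
  intro w h
  have h1 := hψ _ (right_ne_zero_of_mul h)
  have h2 : w.1 / q ∈ D.O := h1.1
  have h3 : w.1 = q * (w.1 / q) := by field_simp
  refine ⟨?_, h1.2⟩
  rw [h3]
  exact D.O.mul_mem hq h2

end

end RNP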