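import Pool.Agent.RNP.DqS
import Pool.Agent.RNP.FcD

/-!
# RNP.Av: the difference `Es (T_q ψ) - Es ψ` (proved)

Adapt `RNK/Av` (most lemmas can be copied). `qd q ψ w = ψ (w / q)`, `Es f = E 1 N (f (w / N)) e2`: the functional of
functions on `O²` which uses the lattice `O ⊕ N O` for the function `f (w / N)` (supported on `N O²`).
`Tq q ψ (x, y) = |q|² ψ (x/q, y)`.

`Tq_DE` (private): for `π` large: by `E_dg` (`a = 1`, `d = q`), `E_hom`: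
 `E 1 N (qd N (T_q ψ)) e2 = |q|² q² E 1 (q N) (F) e2`, `F (x, y) = qd N (T_q ψ) (x, y / q) = |q|² ψ (x/(N q), y/(N q))`
 `= |q|² qd (N q) ψ`; and `E 1 N (qd N ψ) e2 = |q²|² q² E q (q N) (qd (N q) ψ) e2` (`a = d = q`). So
 `Es (T_q ψ) - Es ψ = |q|⁴ q² DE 1 (q N) q (q N) (qd (N q) ψ)`. `Lp2 D 1 (q N) q (q N)` holds, `qd (N q) ψ` is supported on
 `N q O² ⊆ q O ⊕ q N O`, and is in `Fn D (N * n) V`, `n = |N q|²`.
`bdS`: `bdD`.
`avS`: base condition: `y z = N + N² v`. `shiftU` with `f = qd (N q) ψ` and `γ_k / N`, `γ_k` the residues of `O` mod `N²`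
 (`UNI.xx D.a (k.1.val, k.2.val)`, `k : ZMod (N * N) × ZMod (N * N)`): `(γ_k / N) q N = q γ_k`, so `ut (γ_k / N)` preserves
 both lattices (`hg1 : γ * β₁ = α₁ * z` with `α₁ = 1`, `β₁ = q N`; `hg2` with `α₂ = q`). `qd (N q) ψ ∘ ut (γ/N) = qd (N q) (ψ ∘ ut (γ/N))`, and
 `Σ_k ψ (x + γ_k y / N, y) = 0` for all `(x, y)` (claim below), so the sum of all `qd (N q) ψ ∘ ut (γ_k / N)` vanishes
 and `N⁴ DE (qd (N q) ψ) = Σ_k (DE (..) - DE (.. ∘ ut (γ_k / N))) → 0`, as in `RNK/Av`.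
 (Supports: if `ψ (x + γ y / N, y) ≠ 0` then `y ∈ O`, `x ∈ (1/N) O`, so `qd (N q) ψ ∘ ut (γ / N)` is supported on
 `q O ⊕ N q O`.)
Claim: let `y` satisfy the base condition `y z = N + N² v` (otherwise all terms vanish by `hc`) and `N x ∈ O` (otherwise
 all terms vanish by the support). Put `G u = ψ (u / N, y)` if `u ∈ N O`, `0` else; for `u ∈ O` the value `ψ (u / N, y)` is
 `0` if `u ∉ N O`, so `ψ (x + γ_k y / N, y) = G (N x + γ_k y)`. `G` has period `N²` on `O`. By `sum_resid` (modulus `N²`,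
 `c = 1`, translation by `z c'`): `Σ_k G (N x + γ_k y) = Σ_k G (N x + (γ_k + z c') y) = Σ_k G (N x + γ_k y + N c')` for all
 `c' ∈ O`. Sum over the residues `c'` mod `N`: `N² Σ_k G (N x + γ_k y) = Σ_k Σ_{c'} G (N x + γ_k y + N c')`, and the inner
 sum is `0` if `N x + γ_k y ∉ N O` and otherwise `Σ_{c'} ψ (u / N + c', y) = Σ_{c'} ψ (c', y) = 0` (`sum_resid`, `hav`).
-/

open RNK

namespace RNP

variable {D : OD}

private theorem av_geo {π : PD D} {α β : ℂ} (h : Lt π α β) :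
    Geo D (Ah (‖α‖ / ‖β‖)) e1 e2 :=
  geo_Ah D (div_pos (norm_pos_iff.2 (π.ne_of_r h.ra)) (norm_pos_iff.2 (π.ne_of_r h.rb)))

theorem E_add (S : Coc D) {κ : ℝ} (hκ : Kap D κ) (π : PD D) {α β : ℂ} (h1 : Lt π α β)
    {f g : Vec → ℂ} (hf : AdmE D f) (hg : AdmE D g) (hs : SuppIn D α β f)
    (hs' : SuppIn D α β g) {p : Vec} (hp : K2 D p) :
    E S κ π α β (fun w => f w + g w) p = E S κ π α β f p + E S κ π α β g p :=
  EG_add S hκ π h1 (av_geo h1) hf hg hs hs' hp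

theorem E_zero (S : Coc D) {κ : ℝ} (π : PD D) (α β : ℂ) (p : Vec) (hκ : Kap D κ)
    (h1 : Lt π α β) (hp : K2 D p) : E S κ π α β (fun _ => 0) p = 0 := by
  have hs : SuppIn D α β (fun _ : Vec => (0 : ℂ)) := fun w hw => absurd rfl hw
  have h := E_add S hκ π h1 (AdmE_zero D) (AdmE_zero D) hs hs hp
  simp only [add_zero] at h
  exact left_eq_add.1 h

/-- homogeneity in the last argument -/
theorem E_hom (S : Coc D) {κ : ℝ} (hκ : Kap D κ) (π : PD D) {α β : ℂ} (h1 : Lt π α β)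
    {f : Vec → ℂ} (hf : AdmE D f) (hs : SuppIn D α β f) {k : ℂ} (hk : k ∈ D.K) {p : Vec}
    (hp : K2 D p) : E S κ π α β f (k • p) = k ^ 2 * E S κ π α β f p := by
  obtain ⟨a, b, c, h⟩ := EG_quad S hκ π h1 (av_geo h1) hf hs
  unfold E
  rw [h _ (K2_smul hk hp), h _ hp]
  simp only [Prod.smul_fst, Prod.smul_snd, smul_eq_mul]
  ring

private theorem av_smul (S : Coc D) {κ : ℝ} (hκ : Kap D κ) (π : PD D) {α β : ℂ} (h1 : Lt π α β)
    {f : Vec → ℂ} (hf : AdmE D f) (hs : SuppIn D α β f) {k : ℂ} (hk : k ∈ D.K) {p : Vec}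
    (hp : K2 D p) : E S κ π α β (fun w => k * f w) p = k * E S κ π α β f p :=
  EG_smul S hκ π h1 (av_geo h1) hf hs hk hp

theorem Lt_large {α β : ℂ} (ha : α ∈ D.O) (hb : β ∈ D.O) (ha0 : α ≠ 0) (hb0 : β ≠ 0) :
    ∃ P0 : ℕ, ∀ π : PD D, P0 < π.p → Lt π α β := by
  obtain ⟨P0, hP⟩ := exists_nat_gt (max (‖α‖ ^ 2) (‖β‖ ^ 2))
  refine ⟨P0, fun π hπ => ⟨ha, hb, π.rne ha ha0 ?_, π.rne hb hb0 ?_⟩⟩
  · have h1 := le_max_left (‖α‖ ^ 2) (‖β‖ ^ 2)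
    have h2 : (P0 : ℝ) < π.p := by exact_mod_cast hπ
    linarith
  · have h1 := le_max_right (‖α‖ ^ 2) (‖β‖ ^ 2)
    have h2 : (P0 : ℝ) < π.p := by exact_mod_cast hπ
    linarith

/-- `ψ (w / q)` -/
noncomputable def qd (q : ℂ) (ψ : Vec → ℂ) (w : Vec) : ℂ := ψ (w.1 / q, w.2 / q)

/-- the functional of functions on `O²`: the lattice `O ⊕ N O` for `f (w / N)` -/
noncomputable def Es (S : Coc D) (κ : ℝ) (N : ℕ) (π : PD D) (f : Vec → ℂ) : ℂ :=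
  E S κ π 1 N (qd N f) e2

theorem qd_supp {q : ℂ} (h0 : q ≠ 0) {ψ : Vec → ℂ} (hs : ∀ w, ψ w ≠ 0 → O2 D w) :
    SuppIn D q q (qd q ψ) := by
  intro w hw
  refine ⟨(w.1 / q, w.2 / q), hs _ hw, ?_⟩
  rw [dg_act]
  ext
  · show w.1 = q * (w.1 / q)
    field_simp
  · show w.2 = q * (w.2 / q)
    field_simp

private theorem av_supp1 {q : ℂ} (hq : q ∈ D.O) {f : Vec → ℂ} (hs : SuppIn D q q f) :
    SuppIn D 1 q f := by
  intro w hw
  obtain ⟨u, hu, rfl⟩ := hs w hw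
  refine ⟨(q * u.1, u.2), ⟨D.O.mul_mem hq hu.1, hu.2⟩, ?_⟩
  rw [dg_act, dg_act]
  simp

theorem qd_supp1 {q : ℂ} (hq : q ∈ D.O) (h0 : q ≠ 0) {ψ : Vec → ℂ}
    (hs : ∀ w, ψ w ≠ 0 → O2 D w) : SuppIn D 1 q (qd q ψ) :=
  av_supp1 hq (qd_supp h0 hs)

theorem qd_adm {q : ℂ} (hq : q ∈ D.O) (h0 : q ≠ 0) {ψ : Vec → ℂ} (hf : AdmE D ψ) :
    AdmE D (qd q ψ) := by
  have hK : q⁻¹ ∈ D.K := D.K.inv_mem (O_sub_K hq)
  have h := AdmE_act (GK_dg hK hK (inv_ne_zero h0) (inv_ne_zero h0)) hf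
  refine (congrArg (AdmE D) ?_).mp h
  funext w
  rw [dg_act]
  unfold qd
  rw [div_eq_inv_mul, div_eq_inv_mul]

theorem qd_Fn {N n : ℕ} {V : Finset ℂ} {q : ℂ} (hq : q ∈ D.O) (h0 : q ≠ 0)
    (hn : q * (starRingEnd ℂ) q = n) {ψ : Vec → ℂ} (hψ : Fn D N V ψ) :
    Fn D (N * n) V (qd q ψ) := by
  refine ⟨fun w hw => hψ.val _ hw, fun w hw => ?_, fun w v hv => ?_⟩
  · have h := hψ.supp _ hw
    refine ⟨?_, ?_⟩
    · have h1 := D.O.mul_mem hq h.1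
      have e : q * (w.1 / q) = w.1 := by field_simp
      rwa [e] at h1
    · have h1 := D.O.mul_mem hq h.2
      have e : q * (w.2 / q) = w.2 := by field_simp
      rwa [e] at h1
  · unfold qd
    have h1 : O2 D ((starRingEnd ℂ) q • v) := O2_smul (cj_Ord hq) hv
    have e : (((w + ((N * n : ℕ) : ℂ) • v).1 / q, (w + ((N * n : ℕ) : ℂ) • v).2 / q) : Vec) =
        ((w.1 / q, w.2 / q) : Vec) + (N : ℂ) • ((starRingEnd ℂ) q • v) := by
      ext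
      · simp only [Prod.fst_add, Prod.smul_fst, smul_eq_mul]
        push_cast
        rw [← hn]
        field_simp
      · simp only [Prod.snd_add, Prod.smul_snd, smul_eq_mul]
        push_cast
        rw [← hn]
        field_simp
    rw [e]
    exact hψ.per _ _ h1

/-! ### the difference as `DE` -/

/-- `N q` -/
private theorem av_Nq {N : ℕ} {q : ℂ} (hq : q ∈ D.O) : (N : ℂ) * q ∈ D.O :=
  D.O.mul_mem (nat_O N) hq

private theorem av_qN {N : ℕ} {q : ℂ} (hq : q ∈ D.O) : q * (N : ℂ) ∈ D.O :=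
  D.O.mul_mem hq (nat_O N)

private theorem av_N0 {N : ℕ} (hN : 0 < N) : (N : ℂ) ≠ 0 := by exact_mod_cast hN.ne'

private theorem av_suppN {N : ℕ} {q : ℂ} {f : Vec → ℂ}
    (hs : SuppIn D ((N : ℂ) * q) ((N : ℂ) * q) f) : SuppIn D q (q * N) f := by
  intro w hw
  obtain ⟨u, hu, rfl⟩ := hs w hw
  refine ⟨((N : ℂ) * u.1, u.2), ⟨D.O.mul_mem (nat_O N) hu.1, hu.2⟩, ?_⟩
  rw [dg_act, dg_act]
  ext
  · show (N : ℂ) * q * u.1 = q * ((N : ℂ) * u.1)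
    ring
  · show (N : ℂ) * q * u.2 = q * (N : ℂ) * u.2
    ring

private theorem av_supp1N {N : ℕ} {q : ℂ} (hq : q ∈ D.O) {f : Vec → ℂ}
    (hs : SuppIn D q (q * N) f) : SuppIn D 1 (q * N) f := by
  intro w hw
  obtain ⟨u, hu, rfl⟩ := hs w hw
  refine ⟨(q * u.1, u.2), ⟨D.O.mul_mem hq hu.1, hu.2⟩, ?_⟩
  rw [dg_act, dg_act]
  simp

private theorem av_Lp2 {N : ℕ} (hN : 0 < N) {q : ℂ} (hq : q ∈ D.O) (h0 : q ≠ 0) :
    Lp2 D 1 (q * N) q (q * N) where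
  a1 := D.O.one_mem
  b1 := av_qN hq
  a2 := hq
  b2 := av_qN hq
  na1 := one_ne_zero
  nb1 := mul_ne_zero h0 (av_N0 hN)
  na2 := h0
  nb2 := mul_ne_zero h0 (av_N0 hN)
  aa := ⟨q, hq, (one_mul q).symm⟩
  bb := ⟨1, D.O.one_mem, (mul_one _).symm⟩
  ab1 := ⟨q * N, av_qN hq, (one_mul _).symm⟩
  ab2 := ⟨N, nat_O N, rfl⟩

/-- the factor -/
private noncomputable def av_c (q : ℂ) : ℂ := ((‖q‖ ^ 4 : ℝ) : ℂ) * q ^ 2

private theorem Tq_DE (S : Coc D) {κ : ℝ} (hκ : Kap D κ) (π : PD D) {N : ℕ} (hN : 0 < N)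
    {q : ℂ} (hq : q ∈ D.O) (h0 : q ≠ 0)
    (h11 : Lt π 1 N) (h1q : Lt π 1 (q * N)) (hqq : Lt π q (q * N)) {ψ : Vec → ℂ}
    (hf : AdmE D ψ) (hs : ∀ w, ψ w ≠ 0 → O2 D w) :
    Es S κ N π (Tq q ψ) - Es S κ N π ψ =
      av_c q * DE S κ π 1 (q * N) q (q * N) (qd ((N : ℂ) * q) ψ) := by
  have hN0 := av_N0 hN
  have hNq0 : (N : ℂ) * q ≠ 0 := mul_ne_zero hN0 h0
  have hK := O_sub_K hq
  have hsq : SuppIn D q (q * N) (qd ((N : ℂ) * q) ψ) := av_suppN (qd_supp hNq0 hs)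
  have hs1 := av_supp1N hq hsq
  have hqa : AdmE D (qd ((N : ℂ) * q) ψ) := qd_adm (av_Nq hq) hNq0 hf
  have hk2 := nsq_K hK
  have ek : K2 D e2 := Cu_e2.1
  have h1q' : Lt π 1 q := by
    refine ⟨D.O.one_mem, hq, h1q.ra, fun h => h1q.rb ?_⟩
    rw [π.rmul q hq N (nat_O N), h, zero_mul]
  have hqq' : Lt π q q := ⟨hq, hq, h1q'.rb, h1q'.rb⟩
  -- the first term
  have hF : AdmE D (fun w => ((‖q‖ ^ 2 : ℝ) : ℂ) * qd ((N : ℂ) * q) ψ w) := AdmE_smul hk2 hqa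
  have hFs : SuppIn D (1 * 1) (q * N)
      (fun w => ((‖q‖ ^ 2 : ℝ) : ℂ) * qd ((N : ℂ) * q) ψ w) := by
    rw [one_mul]
    intro w hw
    exact hs1 w (right_ne_zero_of_mul hw)
  have e1' := E_dg S hκ π h11 h1q' hF hFs ek
  have e2' : (fun w => (fun w => ((‖q‖ ^ 2 : ℝ) : ℂ) * qd ((N : ℂ) * q) ψ w)
      ((dg 1 q).act w)) = qd N (Tq q ψ) := by
    funext w
    rw [dg_act]
    unfold Tq qd
    have e : q * w.2 / ((N : ℂ) * q) = w.2 / N := by field_simp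
    have e' : w.1 / ((N : ℂ) * q) = w.1 / N / q := by field_simp
    simp only [one_mul, e, e']
  have ea : (dg 1 q).act e2 = q • e2 := by
    rw [dg_act]
    ext <;> simp [e2]
  rw [e2', ea, one_mul, one_mul, E_hom S hκ π h1q hF (by
    rwa [one_mul] at hFs) hK ek, av_smul S hκ π h1q hqa hs1 hk2 ek] at e1'
  -- the second term
  have hqs : SuppIn D (q * 1) (q * N) (qd ((N : ℂ) * q) ψ) := by
    rw [mul_one]
    exact hsq
  have e3' := E_dg S hκ π h11 hqq' hqa hqs ek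
  have e4' : (fun w => qd ((N : ℂ) * q) ψ ((dg q q).act w)) = qd N ψ := by
    funext w
    rw [dg_act]
    unfold qd
    have e : q * w.2 / ((N : ℂ) * q) = w.2 / N := by field_simp
    have e' : q * w.1 / ((N : ℂ) * q) = w.1 / N := by field_simp
    simp only [e, e']
  have eb : (dg q q).act e2 = q • e2 := by
    rw [dg_act]
    ext <;> simp [e2]
  rw [e4', eb, mul_one, E_hom S hκ π hqq hqa hsq hK ek] at e3'
  unfold Es
  rw [e1', e3']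
  unfold DE av_c
  rw [norm_mul]
  push_cast
  ring

private theorem av_c_norm {q : ℂ} (h0 : q ≠ 0) : 0 < ‖av_c q‖ := by
  unfold av_c
  refine norm_pos_iff.2 (mul_ne_zero ?_ (pow_ne_zero _ h0))
  have h : (0 : ℝ) < ‖q‖ ^ 4 := by positivity
  exact_mod_cast h.ne'

private theorem av_large {N : ℕ} (hN : 0 < N) {q : ℂ} (hq : q ∈ D.O) (h0 : q ≠ 0) :
    ∃ P0 : ℕ, ∀ π : PD D, P0 < π.p →
      Lt π 1 N ∧ Lt π 1 (q * N) ∧ Lt π q (q * N) := by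
  have hN0 := av_N0 hN
  obtain ⟨P1, h1⟩ := Lt_large (D := D) D.O.one_mem (nat_O N) one_ne_zero hN0
  obtain ⟨P2, h2⟩ := Lt_large (D := D) D.O.one_mem (av_qN hq) one_ne_zero (mul_ne_zero h0 hN0)
  obtain ⟨P3, h3⟩ := Lt_large (D := D) hq (av_qN hq) h0 (mul_ne_zero h0 hN0)
  refine ⟨max P1 (max P2 P3), fun π hπ => ⟨h1 π ?_, h2 π ?_, h3 π ?_⟩⟩
  · exact lt_of_le_of_lt (le_max_left _ _) hπ
  · exact lt_of_le_of_lt (le_trans (le_max_left _ _) (le_max_right _ _)) hπ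
  · exact lt_of_le_of_lt (le_trans (le_max_right _ _) (le_max_right _ _)) hπ

private theorem av_n {q : ℂ} (hq : q ∈ D.O) (h0 : q ≠ 0) :
    ∃ n : ℕ, 0 < n ∧ q * (starRingEnd ℂ) q = n := by
  obtain ⟨n, hn⟩ := nrm_Ord hq
  refine ⟨n, Nat.pos_of_ne_zero ?_, hn⟩
  rintro rfl
  rw [Nat.cast_zero] at hn
  exact mul_ne_zero h0 ((map_ne_zero (starRingEnd ℂ)).2 h0) hn

theorem bdS (S : Coc D) {κ : ℝ} (hκ : Kap D κ) {N : ℕ} (hN : 0 < N) (V : Finset ℂ)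
    (hV : ∀ v ∈ V, v ∈ D.K) {q : ℂ} (hq : q ∈ D.O) (h0 : q ≠ 0) :
    ∃ C : ℝ, ∃ P0 : ℕ, 0 < C ∧ ∀ π : PD D, P0 < π.p → ∀ ψ : Vec → ℂ, Fn D N V ψ →
      ‖Es S κ N π (Tq q ψ) - Es S κ N π ψ‖ ≤ C := by
  have hN0 := av_N0 hN
  obtain ⟨n, hn0, hn⟩ := av_n (av_Nq (N := N) hq) (mul_ne_zero hN0 h0)
  obtain ⟨C, hC, hb⟩ := bdD S hκ (Nat.mul_pos hN hn0) V hV (av_Lp2 hN hq h0)
  obtain ⟨P0, hP⟩ := av_large hN hq h0
  refine ⟨‖av_c q‖ * C, P0, mul_pos (av_c_norm h0) hC, fun π hπ ψ hψ => ?_⟩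
  obtain ⟨h11, h1q, hqq⟩ := hP π hπ
  rw [Tq_DE S hκ π hN hq h0 h11 h1q hqq (Fn_AdmE hN hV hψ) hψ.supp, norm_mul]
  exact mul_le_mul_of_nonneg_left
    (hb π h1q hqq _ (qd_Fn (av_Nq hq) (mul_ne_zero hN0 h0) hn hψ)
      (av_suppN (qd_supp (mul_ne_zero hN0 h0) hψ.supp))) (norm_nonneg _)

/-- additivity of `DE` -/
private theorem av_DE_sum (S : Coc D) {κ : ℝ} (hκ : Kap D κ) (π : PD D) {N : ℕ} {q : ℂ}
    (hq : q ∈ D.O) (h1q : Lt π 1 (q * N)) (hqq : Lt π q (q * N)) {ι : Type*} (s : Finset ι)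
    (g : ι → Vec → ℂ) (hg : ∀ i, AdmE D (g i)) (hs : ∀ i, SuppIn D q (q * N) (g i)) :
    DE S κ π 1 (q * N) q (q * N) (fun w => ∑ i ∈ s, g i w) =
      ∑ i ∈ s, DE S κ π 1 (q * N) q (q * N) (g i) := by
  classical
  have ek : K2 D e2 := Cu_e2.1
  induction s using Finset.induction_on with
  | empty =>
    simp only [Finset.sum_empty]
    unfold DE
    rw [E_zero S π 1 (q * N) e2 hκ h1q ek, E_zero S π q (q * N) e2 hκ hqq ek, sub_zero]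
  | insert i t hi ih =>
    have hst : SuppIn D q (q * N) (fun w => ∑ i ∈ t, g i w) := by
      intro w hw
      obtain ⟨j, -, hj⟩ := Finset.exists_ne_zero_of_sum_ne_zero hw
      exact hs j w hj
    have hat : AdmE D (fun w => ∑ i ∈ t, g i w) := AdmE_sum t fun j _ => hg j
    have e : (fun w => ∑ i ∈ insert i t, g i w) = fun w => g i w + ∑ i ∈ t, g i w := by
      funext w
      rw [Finset.sum_insert hi]
    rw [e, Finset.sum_insert hi, ← ih]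
    unfold DE
    rw [E_add S hκ π h1q (hg i) hat (av_supp1N hq (hs i)) (av_supp1N hq hst) ek,
      E_add S hκ π hqq (hg i) hat (hs i) hst ek]
    ring

/-! ### the averaging -/

/-- the claim of the header -/
private theorem av_claim {N : ℕ} [NeZero N] [NeZero (N * N)] {V : Finset ℂ} {ψ : Vec → ℂ}
    (hψ : Fn D N V ψ)
    (hc : ∀ w, ψ w ≠ 0 → ∃ z ∈ D.O, ∃ v ∈ D.O, w.2 * z = N + (N : ℂ) ^ 2 * v)
    (hav : ∀ y ∈ D.O,
      ∑ k : ZMod N × ZMod N, ψ (UNI.xx D.a ((k.1.val : ℤ), (k.2.val : ℤ)), y) = 0) (x y : ℂ) :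
    ∑ k : ZMod (N * N) × ZMod (N * N),
      ψ (x + UNI.xx D.a ((k.1.val : ℤ), (k.2.val : ℤ)) / N * y, y) = 0 := by
  classical
  by_contra hne
  have hN0 : (N : ℂ) ≠ 0 := by exact_mod_cast NeZero.ne N
  obtain ⟨k0, -, hk0⟩ := Finset.exists_ne_zero_of_sum_ne_zero hne
  obtain ⟨z, hz, v, hv, hzv⟩ := hc _ hk0
  have hs0 := hψ.supp _ hk0
  have hy : y ∈ D.O := hs0.2
  have hzv' : y * z = N + (N : ℂ) ^ 2 * v := hzv
  have hx : (N : ℂ) * x ∈ D.O := by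
    have h1 : x + UNI.xx D.a ((k0.1.val : ℤ), (k0.2.val : ℤ)) / N * y ∈ D.O := hs0.1
    have h2 := D.O.sub_mem (D.O.mul_mem (nat_O (D := D) N) h1)
      (D.O.mul_mem (⟨_, rfl⟩ : UNI.xx D.a ((k0.1.val : ℤ), (k0.2.val : ℤ)) ∈ D.O) hy)
    have e : (N : ℂ) * (x + UNI.xx D.a ((k0.1.val : ℤ), (k0.2.val : ℤ)) / N * y) -
        UNI.xx D.a ((k0.1.val : ℤ), (k0.2.val : ℤ)) * y = (N : ℂ) * x := by
      field_simp
      ring
    rwa [e] at h2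
  apply hne
  -- translation by `z c'`
  have htr : ∀ c' ∈ D.O, ∑ k : ZMod (N * N) × ZMod (N * N),
      ψ (x + UNI.xx D.a ((k.1.val : ℤ), (k.2.val : ℤ)) / N * y + c', y) =
      ∑ k : ZMod (N * N) × ZMod (N * N),
        ψ (x + UNI.xx D.a ((k.1.val : ℤ), (k.2.val : ℤ)) / N * y, y) := by
    intro c' hc'
    have h1 := sum_resid D (N * N) (fun u => ψ (x + u / N * y, y)) (by
      intro u _ t ht
      have h2 := hψ.per (x + u / N * y, y) (t * y, 0) ⟨D.O.mul_mem ht hy, D.O.zero_mem⟩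
      have e : ((x + u / N * y, y) : Vec) + (N : ℂ) • ((t * y, 0) : Vec) =
          (x + (u + ((N * N : ℕ) : ℂ) * t) / N * y, y) := by
        ext
        · simp only [Prod.fst_add, Prod.smul_fst, smul_eq_mul]
          push_cast
          field_simp
          ring
        · simp
      rw [e] at h2
      exact h2) (c := 1)
      ⟨D.O.one_mem, nat_O _, 1, D.O.one_mem, 0, D.O.zero_mem, by ring⟩ (γ := z * c')
      (D.O.mul_mem hz hc')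
    rw [← h1]
    refine Finset.sum_congr rfl fun k _ => ?_
    have h3 := hψ.per (x + UNI.xx D.a ((k.1.val : ℤ), (k.2.val : ℤ)) / N * y + c', y)
      (v * c', 0) ⟨D.O.mul_mem hv hc', D.O.zero_mem⟩
    rw [← h3]
    congr 1
    ext
    · simp only [Prod.fst_add, Prod.smul_fst, smul_eq_mul, one_mul]
      have e : (UNI.xx D.a ((k.1.val : ℤ), (k.2.val : ℤ)) + z * c') / N * y =
          UNI.xx D.a ((k.1.val : ℤ), (k.2.val : ℤ)) / N * y + (y * z) / N * c' := by ring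
      rw [e, hzv']
      field_simp
      ring
    · simp
  -- the inner sums
  have hin : ∀ k : ZMod (N * N) × ZMod (N * N), ∑ j : ZMod N × ZMod N,
      ψ (x + UNI.xx D.a ((k.1.val : ℤ), (k.2.val : ℤ)) / N * y +
        UNI.xx D.a ((j.1.val : ℤ), (j.2.val : ℤ)), y) = 0 := by
    intro k
    by_cases hU : x + UNI.xx D.a ((k.1.val : ℤ), (k.2.val : ℤ)) / N * y ∈ D.O
    · have h1 := sum_resid D N (fun u => ψ (u, y)) (by
        intro u _ t ht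
        have h2 := hψ.per (u, y) (t, 0) ⟨ht, D.O.zero_mem⟩
        simpa using h2) (c := 1)
        ⟨D.O.one_mem, nat_O _, 1, D.O.one_mem, 0, D.O.zero_mem, by ring⟩ hU
      rw [hav y hy] at h1
      rw [← h1]
      refine Finset.sum_congr rfl fun j _ => ?_
      show ψ _ = ψ _
      congr 2
      ring
    · refine Finset.sum_eq_zero fun j _ => ?_
      by_contra hj
      apply hU
      have h2 := D.O.sub_mem (hψ.supp _ hj).1
        (⟨_, rfl⟩ : UNI.xx D.a ((j.1.val : ℤ), (j.2.val : ℤ)) ∈ D.O)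
      simpa using h2
  have h1 : ∑ j : ZMod N × ZMod N, ∑ k : ZMod (N * N) × ZMod (N * N),
      ψ (x + UNI.xx D.a ((k.1.val : ℤ), (k.2.val : ℤ)) / N * y +
        UNI.xx D.a ((j.1.val : ℤ), (j.2.val : ℤ)), y) = 0 := by
    rw [Finset.sum_comm]
    exact Finset.sum_eq_zero fun k _ => hin k
  have h2 : ∑ j : ZMod N × ZMod N, ∑ k : ZMod (N * N) × ZMod (N * N),
      ψ (x + UNI.xx D.a ((k.1.val : ℤ), (k.2.val : ℤ)) / N * y +
        UNI.xx D.a ((j.1.val : ℤ), (j.2.val : ℤ)), y) =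
      (Fintype.card (ZMod N × ZMod N) : ℂ) * ∑ k : ZMod (N * N) × ZMod (N * N),
        ψ (x + UNI.xx D.a ((k.1.val : ℤ), (k.2.val : ℤ)) / N * y, y) := by
    rw [Finset.sum_congr rfl fun j _ => htr _ ⟨_, rfl⟩, Finset.sum_const, Finset.card_univ,
      nsmul_eq_mul]
  rw [h2] at h1
  refine (mul_eq_zero.1 h1).resolve_left ?_
  rw [Fintype.card_prod, ZMod.card]
  push_cast
  exact mul_ne_zero hN0 hN0

private theorem av_sum_zero {N : ℕ} [NeZero N] [NeZero (N * N)] {V : Finset ℂ} {q : ℂ}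
    (h0 : q ≠ 0) {ψ : Vec → ℂ} (hψ : Fn D N V ψ)
    (hc : ∀ w, ψ w ≠ 0 → ∃ z ∈ D.O, ∃ v ∈ D.O, w.2 * z = N + (N : ℂ) ^ 2 * v)
    (hav : ∀ y ∈ D.O,
      ∑ k : ZMod N × ZMod N, ψ (UNI.xx D.a ((k.1.val : ℤ), (k.2.val : ℤ)), y) = 0) (w : Vec) :
    ∑ k : ZMod (N * N) × ZMod (N * N), qd ((N : ℂ) * q) ψ
      ((ut (UNI.xx D.a ((k.1.val : ℤ), (k.2.val : ℤ)) / N)).act w) = 0 := by
  have hN0 : (N : ℂ) ≠ 0 := by exact_mod_cast NeZero.ne N
  rw [← av_claim hψ hc hav (w.1 / ((N : ℂ) * q)) (w.2 / ((N : ℂ) * q))]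
  refine Finset.sum_congr rfl fun k _ => ?_
  rw [ut_act]
  unfold qd
  have e1 : (w.1 + UNI.xx D.a ((k.1.val : ℤ), (k.2.val : ℤ)) / N * w.2) / ((N : ℂ) * q) =
      w.1 / ((N : ℂ) * q) +
        UNI.xx D.a ((k.1.val : ℤ), (k.2.val : ℤ)) / N * (w.2 / ((N : ℂ) * q)) := by ring
  simp only [e1]

private theorem av_ut_supp {N : ℕ} (hN : 0 < N) {q : ℂ} {γ : ℂ} (hγ : γ ∈ D.O) {f : Vec → ℂ}
    (hs : SuppIn D ((N : ℂ) * q) ((N : ℂ) * q) f) :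
    SuppIn D q (q * N) (fun w => f ((ut (γ / N)).act w)) := by
  have hN0 := av_N0 hN
  intro w hw
  obtain ⟨u, hu, e⟩ := hs _ hw
  rw [ut_act, dg_act] at e
  have e1 : w.1 + γ / N * w.2 = (N : ℂ) * q * u.1 := congrArg Prod.fst e
  have e2' : w.2 = (N : ℂ) * q * u.2 := congrArg Prod.snd e
  refine ⟨((N : ℂ) * u.1 - γ * u.2, u.2),
    ⟨D.O.sub_mem (D.O.mul_mem (nat_O N) hu.1) (D.O.mul_mem hγ hu.2), hu.2⟩, ?_⟩
  rw [dg_act]
  ext
  · show w.1 = q * ((N : ℂ) * u.1 - γ * u.2)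
    rw [e2'] at e1
    have e3 : γ / N * ((N : ℂ) * q * u.2) = γ * q * u.2 := by field_simp
    rw [e3] at e1
    linear_combination e1
  · show w.2 = q * (N : ℂ) * u.2
    rw [e2']
    ring

theorem avS (S : Coc D) {κ : ℝ} (hκ : Kap D κ) {N : ℕ} [NeZero N] (V : Finset ℂ)
    (hV : ∀ v ∈ V, v ∈ D.K) {q : ℂ} (hq : q ∈ D.O) (h0 : q ≠ 0) {ψ : Vec → ℂ}
    (hψ : Fn D N V ψ)
    (hc : ∀ w, ψ w ≠ 0 → ∃ z ∈ D.O, ∃ v ∈ D.O, w.2 * z = N + (N : ℂ) ^ 2 * v)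
    (hav : ∀ y ∈ D.O,
      ∑ k : ZMod N × ZMod N, ψ (UNI.xx D.a ((k.1.val : ℤ), (k.2.val : ℤ)), y) = 0) :
    Tends0 (fun π : PD D => Es S κ N π (Tq q ψ) - Es S κ N π ψ) := by
  classical
  have hN : 0 < N := Nat.pos_of_ne_zero (NeZero.ne N)
  haveI : NeZero (N * N) := ⟨(Nat.mul_pos hN hN).ne'⟩
  have hN0 := av_N0 hN
  have hNq0 : (N : ℂ) * q ≠ 0 := mul_ne_zero hN0 h0
  obtain ⟨n, hn0, hn⟩ := av_n (av_Nq (N := N) hq) hNq0
  obtain ⟨P0, hP⟩ := av_large hN hq h0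
  have hqF := qd_Fn (av_Nq hq) hNq0 hn hψ
  have hqs := qd_supp hNq0 hψ.supp
  have hqa := qd_adm (av_Nq hq) hNq0 (Fn_AdmE hN hV hψ)
  set γ : ZMod (N * N) × ZMod (N * N) → ℂ :=
    fun k => UNI.xx D.a ((k.1.val : ℤ), (k.2.val : ℤ)) with hγ
  have hγO : ∀ k, γ k ∈ D.O := fun k => ⟨_, rfl⟩
  have hγK : ∀ k, γ k / N ∈ D.K := fun k => D.K.div_mem (O_sub_K (hγO k)) (O_sub_K (nat_O N))
  have hut : ∀ k, GK D (ut (γ k / N)) := by
    intro k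
    refine ⟨⟨D.K.one_mem, hγK k, D.K.zero_mem, D.K.one_mem⟩, ?_⟩
    rw [det_ut]
    exact one_ne_zero
  intro ε hε
  have hε' : 0 < ε / ‖av_c q‖ := div_pos hε (av_c_norm h0)
  choose Pk hPk using fun k : ZMod (N * N) × ZMod (N * N) =>
    shiftU S hκ (Nat.mul_pos hN hn0) V hV (av_Lp2 hN hq h0) (hγK k)
      ⟨γ k * q, D.O.mul_mem (hγO k) hq, by field_simp⟩
      ⟨γ k, hγO k, by field_simp⟩ hqF (av_suppN hqs) _ hε'
  refine ⟨max P0 (Finset.univ.sup Pk), fun π hπ => ?_⟩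
  obtain ⟨h11, h1q, hqq⟩ := hP π (lt_of_le_of_lt (le_max_left _ _) hπ)
  show ‖Es S κ N π (Tq q ψ) - Es S κ N π ψ‖ ≤ ε
  rw [Tq_DE S hκ π hN hq h0 h11 h1q hqq (Fn_AdmE hN hV hψ) hψ.supp, norm_mul]
  have hsum : ∑ k : ZMod (N * N) × ZMod (N * N),
      DE S κ π 1 (q * N) q (q * N)
        (fun w => qd ((N : ℂ) * q) ψ ((ut (γ k / N)).act w)) = 0 := by
    rw [← av_DE_sum S hκ π hq h1q hqq Finset.univ
      (fun (k : ZMod (N * N) × ZMod (N * N)) w => qd ((N : ℂ) * q) ψ ((ut (γ k / N)).act w))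
      (fun k => AdmE_act (hut k) hqa) (fun k => av_ut_supp hN (hγO k) hqs)]
    have e : (fun w => ∑ k : ZMod (N * N) × ZMod (N * N),
        qd ((N : ℂ) * q) ψ ((ut (γ k / N)).act w)) = fun _ => 0 := by
      funext w
      exact av_sum_zero h0 hψ hc hav w
    rw [e]
    unfold DE
    rw [E_zero S π 1 (q * N) e2 hκ h1q Cu_e2.1, E_zero S π q (q * N) e2 hκ hqq Cu_e2.1,
      sub_zero]
  have hcard : (Fintype.card (ZMod (N * N) × ZMod (N * N)) : ℝ) = (N : ℝ) ^ 4 := by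
    rw [Fintype.card_prod, ZMod.card]
    push_cast
    ring
  have hNr : (0 : ℝ) < (N : ℝ) ^ 4 := by
    have : (0 : ℝ) < N := by exact_mod_cast hN
    positivity
  have hmain : ((N : ℂ) ^ 4) * DE S κ π 1 (q * N) q (q * N) (qd ((N : ℂ) * q) ψ) =
      ∑ k : ZMod (N * N) × ZMod (N * N),
        (DE S κ π 1 (q * N) q (q * N) (qd ((N : ℂ) * q) ψ) -
        DE S κ π 1 (q * N) q (q * N)
          (fun w => qd ((N : ℂ) * q) ψ ((ut (γ k / N)).act w))) := by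
    rw [Finset.sum_sub_distrib, hsum, sub_zero, Finset.sum_const, Finset.card_univ,
      Fintype.card_prod, ZMod.card, nsmul_eq_mul]
    push_cast
    ring
  have hbd : ‖((N : ℂ) ^ 4) * DE S κ π 1 (q * N) q (q * N) (qd ((N : ℂ) * q) ψ)‖ ≤
      (N : ℝ) ^ 4 * (ε / ‖av_c q‖) := by
    rw [hmain, ← hcard]
    refine (norm_sum_le _ _).trans ?_
    have h1 : ∀ k ∈ (Finset.univ : Finset (ZMod (N * N) × ZMod (N * N))),
        ‖DE S κ π 1 (q * N) q (q * N) (qd ((N : ℂ) * q) ψ) -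
          DE S κ π 1 (q * N) q (q * N)
            (fun w => qd ((N : ℂ) * q) ψ ((ut (γ k / N)).act w))‖ ≤ ε / ‖av_c q‖ := by
      intro k hk
      refine hPk k π (lt_of_le_of_lt ?_ hπ)
      exact le_trans (Finset.le_sup hk) (le_max_right _ _)
    refine (Finset.sum_le_sum h1).trans ?_
    rw [Finset.sum_const, Finset.card_univ, nsmul_eq_mul]
  have h2 : ‖DE S κ π 1 (q * N) q (q * N) (qd ((N : ℂ) * q) ψ)‖ ≤ ε / ‖av_c q‖ := by
    rw [norm_mul, norm_pow, Complex.norm_natCast] at hbd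
    exact le_of_mul_le_mul_left hbd hNr
  have h3 := mul_le_mul_of_nonneg_left h2 (norm_nonneg (av_c q))
  have h4 : ‖av_c q‖ * (ε / ‖av_c q‖) = ε := by
    have := (av_c_norm h0).ne'
    field_simp
  rw [h4] at h3
  exact h3

end RNP
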