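import Pool.Agent.RNP.DqB

/-!
# RNP.DqS: comparison of two lattices, the total

(1), (2), (3), (4) are the four parts of `QD_bound`, `DL_quads` writes the difference as
`Σ_t Σ_k QD t k γ` (for `γ = 0` this is `DE`: `ut (-0)` is the identity, `ep_congr`).

`shiftU`: `E L_i (f ∘ ut γ) e2 = EG L_i (line γ) f (γ, 1)` (`E_ut`). For `h = 2^k < 1`: (1) for both
(`nq (A_h ut(-γ) (γ, 1)) = h`, `nq (A_h e2) = h`), sum over `k < 0` is `≤ 2 C p^{-3/2}`. For `1 ≤ h ≤ C p`: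
(3) with `p = (γ, 1)`, `nq (A_h (γ, 1)) ≤ (1 + |γ|²) h`, and (4): `≤ C p^{-3/2}` for each `k`, `O (log p)`
values of `k`. Sum over the `p + 1` indices `t`: `O (p^{-1/2} log p)`.

`bdD`: (1), (2) and the better cut off `h > C √p` in (2) (the vector `π α_i e1` has norm `√p |α_i|`,
`|det B_i| = √p |α_i β_i|`, so deep as soon as `h > C √p`): `Σ_k h p^{-3/2} ≤ C p^{-1}`, times `p + 1`.
-/

open RNK

namespace RNP
variable {D : OD}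

namespace DqSx

theorem geo_le (F : Finset ℤ) : ∀ K : ℤ, (∀ k ∈ F, k ≤ K) →
    ∑ k ∈ F, (2 : ℝ) ^ k ≤ (2 : ℝ) ^ (K + 1) := by
  induction F using Finset.induction_on_max with
  | empty =>
    intro K _
    rw [Finset.sum_empty]
    positivity
  | insert a s ha ih =>
    intro K hK
    have hna : a ∉ s := fun h => lt_irrefl _ (ha a h)
    rw [Finset.sum_insert hna]
    have h1 := ih (a - 1) (fun k hk => by have := ha k hk; omega)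
    have h2 : a ≤ K := hK a (Finset.mem_insert_self _ _)
    have h3 : (2 : ℝ) ^ (a + 1) ≤ (2 : ℝ) ^ (K + 1) :=
      zpow_le_zpow_right₀ (by norm_num) (by omega)
    have h4 : (2 : ℝ) ^ (a + 1) = 2 * (2 : ℝ) ^ a := by
      rw [zpow_add₀ (by norm_num), zpow_one, mul_comm]
    rw [sub_add_cancel] at h1
    linarith

theorem geo_X {X : ℝ} (hX : 0 ≤ X) (F : Finset ℤ) (h : ∀ k ∈ F, (2 : ℝ) ^ k ≤ X) :
    ∑ k ∈ F, (2 : ℝ) ^ k ≤ 2 * X := by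
  rcases F.eq_empty_or_nonempty with h0 | h0
  · rw [h0, Finset.sum_empty]
    positivity
  have h1 := h _ (F.max'_mem h0)
  have h2 := geo_le F (F.max' h0) (fun k hk => F.le_max' k hk)
  rw [zpow_add₀ (by norm_num), zpow_one] at h2
  linarith

theorem sq_pow (n : ℕ) : ((n : ℝ) + 1) ^ 2 ≤ 4 * (2 : ℝ) ^ n := by
  have h : ∀ m : ℕ, 2 ≤ m → ((m : ℝ) + 1) ^ 2 ≤ 4 * (2 : ℝ) ^ m := by
    intro m hm
    induction m, hm using Nat.le_induction with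
    | base => norm_num
    | succ m hm ih =>
      have h2 : (2 : ℝ) ≤ m := by exact_mod_cast hm
      have h3 : (2 : ℝ) ^ (m + 1) = 2 * 2 ^ m := by rw [pow_succ, mul_comm]
      rw [h3]
      push_cast
      nlinarith
  rcases Nat.lt_or_ge n 2 with h1 | h1
  · interval_cases n <;> norm_num
  · exact h n h1

theorem card_X {X : ℝ} (hX : 0 ≤ X) (F : Finset ℤ) (h0 : ∀ k ∈ F, 0 ≤ k)
    (h : ∀ k ∈ F, (2 : ℝ) ^ k ≤ X) : (F.card : ℝ) ≤ 2 * √X := by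
  rcases F.eq_empty_or_nonempty with h1 | h1
  · rw [h1, Finset.card_empty]
    have := Real.sqrt_nonneg X
    push_cast
    linarith
  have h2 := h _ (F.max'_mem h1)
  have h3 := h0 _ (F.max'_mem h1)
  obtain ⟨K, hK⟩ := Int.eq_ofNat_of_zero_le h3
  have h4 : F ⊆ Finset.Icc 0 (K : ℤ) := by
    intro k hk
    rw [Finset.mem_Icc]
    exact ⟨h0 k hk, by rw [← hK]; exact F.le_max' k hk⟩
  have h5 : F.card ≤ K + 1 := by
    refine (Finset.card_le_card h4).trans ?_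
    rw [Int.card_Icc]
    omega
  have h6 : (F.card : ℝ) ≤ (K : ℝ) + 1 := by exact_mod_cast h5
  rw [hK, zpow_natCast] at h2
  have h7 := sq_pow K
  have h8 : ((K : ℝ) + 1) ^ 2 ≤ (2 * √X) ^ 2 := by
    rw [mul_pow, Real.sq_sqrt hX]
    linarith
  have h9 := (pow_le_pow_iff_left₀ (by positivity) (by positivity) two_ne_zero).1 h8
  linarith

/-- the sum with the first two bounds -/
theorem coreA {v C : ℝ} (hv : 1 ≤ v) (hC : 0 < C) {q : ℤ → ℂ}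
    (ha : ∀ k, ‖q k‖ ≤ C * (2 : ℝ) ^ k / v ^ 6)
    (hb : ∀ k : ℤ, C * v ^ 2 < (2 : ℝ) ^ k → q k = 0) :
    ‖∑ᶠ k : ℤ, q k‖ ≤ 2 * C ^ 2 / v ^ 4 := by
  have hv0 : 0 < v := by linarith
  have hr : (0 : ℝ) ≤ 2 * C ^ 2 / v ^ 4 := by positivity
  by_cases hf : (Function.support q).Finite
  · rw [finsum_eq_sum_of_support_subset (s := hf.toFinset) _ (by simp)]
    have h1 : ∀ k ∈ hf.toFinset, (2 : ℝ) ^ k ≤ C * v ^ 2 := by
      intro k hk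
      by_contra h
      rw [Set.Finite.mem_toFinset, Function.mem_support] at hk
      exact hk (hb k (not_le.1 h))
    have h2 := geo_X (by positivity) hf.toFinset h1
    refine (norm_sum_le _ _).trans ?_
    calc ∑ k ∈ hf.toFinset, ‖q k‖ ≤ ∑ k ∈ hf.toFinset, C * (2 : ℝ) ^ k / v ^ 6 :=
          Finset.sum_le_sum (fun k _ => ha k)
      _ = C / v ^ 6 * ∑ k ∈ hf.toFinset, (2 : ℝ) ^ k := by
          rw [Finset.mul_sum]
          refine Finset.sum_congr rfl fun k _ => ?_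
          ring
      _ ≤ C / v ^ 6 * (2 * (C * v ^ 2)) := by gcongr
      _ = 2 * C ^ 2 / v ^ 4 := by
          field_simp
  · rw [finsum_of_infinite_support hf, norm_zero]
    exact hr

/-- the sum with the bounds for the differences -/
theorem coreB {v C C' : ℝ} (hv : 1 ≤ v) (hC : 0 < C) (hC' : 0 ≤ C') {q q' : ℤ → ℂ}
    (hf : (Function.support q).Finite) (hf' : (Function.support q').Finite)
    (ha : ∀ k, ‖q k‖ ≤ C * (2 : ℝ) ^ k / v ^ 6)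
    (ha' : ∀ k, ‖q' k‖ ≤ C * (2 : ℝ) ^ k / v ^ 6)
    (hb : ∀ k : ℤ, C * v ^ 2 < (2 : ℝ) ^ k → q k = 0)
    (hb' : ∀ k : ℤ, C * v ^ 2 < (2 : ℝ) ^ k → q' k = 0)
    (hc : ∀ k, 0 ≤ k → ‖q k - q' k‖ ≤ C' / v ^ 6) :
    ‖∑ᶠ k : ℤ, q k - ∑ᶠ k : ℤ, q' k‖ ≤ (2 * C + C' * (2 * √C)) / v ^ 5 := by
  classical
  have hv0 : 0 < v := by linarith
  obtain ⟨F, hF⟩ : ∃ F, F = hf.toFinset ∪ hf'.toFinset := ⟨_, rfl⟩
  rw [finsum_eq_sum_of_support_subset (s := F) _ (by rw [hF]; simp),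
    finsum_eq_sum_of_support_subset (s := F) _ (by rw [hF]; simp), ← Finset.sum_sub_distrib]
  have hX : ∀ k ∈ F, (2 : ℝ) ^ k ≤ C * v ^ 2 := by
    intro k hk
    by_contra h
    rw [hF, Finset.mem_union, Set.Finite.mem_toFinset, Set.Finite.mem_toFinset,
      Function.mem_support, Function.mem_support] at hk
    rcases hk with hk | hk
    · exact hk (hb k (not_le.1 h))
    · exact hk (hb' k (not_le.1 h))
  rw [← Finset.sum_filter_add_sum_filter_not F (fun k => k < 0)]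
  have h1 : ‖∑ k ∈ F.filter (fun k => k < 0), (q k - q' k)‖ ≤ 2 * C / v ^ 6 := by
    refine (norm_sum_le _ _).trans ?_
    have h2 := geo_le (F.filter (fun k => k < 0)) (-1) (fun k hk => by
      have := (Finset.mem_filter.1 hk).2
      omega)
    rw [neg_add_cancel, zpow_zero] at h2
    calc ∑ k ∈ F.filter (fun k => k < 0), ‖q k - q' k‖
        ≤ ∑ k ∈ F.filter (fun k => k < 0), 2 * C / v ^ 6 * (2 : ℝ) ^ k := by
          refine Finset.sum_le_sum fun k _ => ?_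
          refine (norm_sub_le _ _).trans ((add_le_add (ha k) (ha' k)).trans (le_of_eq ?_))
          ring
      _ = 2 * C / v ^ 6 * ∑ k ∈ F.filter (fun k => k < 0), (2 : ℝ) ^ k := by
          rw [Finset.mul_sum]
      _ ≤ 2 * C / v ^ 6 * 1 := by gcongr
      _ = 2 * C / v ^ 6 := mul_one _
  have h3 : ‖∑ k ∈ F.filter (fun k => ¬ k < 0), (q k - q' k)‖ ≤ C' * (2 * √C) / v ^ 5 := by
    refine (norm_sum_le _ _).trans ?_
    have h4 := card_X (X := C * v ^ 2) (by positivity) (F.filter (fun k => ¬ k < 0))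
      (fun k hk => not_lt.1 (Finset.mem_filter.1 hk).2)
      (fun k hk => hX k (Finset.mem_filter.1 hk).1)
    rw [Real.sqrt_mul hC.le, Real.sqrt_sq hv0.le] at h4
    calc ∑ k ∈ F.filter (fun k => ¬ k < 0), ‖q k - q' k‖
        ≤ ∑ k ∈ F.filter (fun k => ¬ k < 0), C' / v ^ 6 :=
          Finset.sum_le_sum fun k hk => hc k (not_lt.1 (Finset.mem_filter.1 hk).2)
      _ = (F.filter (fun k => ¬ k < 0)).card * (C' / v ^ 6) := by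
          rw [Finset.sum_const, nsmul_eq_mul]
      _ ≤ 2 * (√C * v) * (C' / v ^ 6) := by gcongr
      _ = C' * (2 * √C) / v ^ 5 := by
          field_simp
  have h5 : 2 * C / v ^ 6 ≤ 2 * C / v ^ 5 := by
    have : v ^ 5 ≤ v ^ 6 := pow_le_pow_right₀ hv (by norm_num)
    gcongr
  refine (norm_add_le _ _).trans ((add_le_add (h1.trans h5) h3).trans (le_of_eq ?_))
  ring

theorem root4 (π : PD D) : ∃ v : ℝ, 1 ≤ v ∧ v ^ 4 = π.p ∧ (π.p : ℝ) ^ (1 / 2 : ℝ) = v ^ 2 ∧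
    (π.p : ℝ) ^ (-(3 / 2 : ℝ)) = 1 / v ^ 6 := by
  have hp1 := DqBx.pone π
  have hp0 : (0 : ℝ) < π.p := by linarith
  have e4 : ((π.p : ℝ) ^ (1 / 4 : ℝ)) ^ 4 = π.p := by
    rw [← Real.rpow_natCast, ← Real.rpow_mul hp0.le]
    norm_num
  have e2 : (π.p : ℝ) ^ (1 / 2 : ℝ) = ((π.p : ℝ) ^ (1 / 4 : ℝ)) ^ 2 := by
    rw [← Real.rpow_natCast, ← Real.rpow_mul hp0.le]
    norm_num
  have e6 : (π.p : ℝ) ^ (-(3 / 2 : ℝ)) = 1 / ((π.p : ℝ) ^ (1 / 4 : ℝ)) ^ 6 := by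
    rw [← Real.rpow_natCast, ← Real.rpow_mul hp0.le, Real.rpow_neg hp0.le, one_div]
    norm_num
  exact ⟨_, Real.one_le_rpow hp1 (by norm_num), e4, e2, e6⟩

theorem ut0 (m : ℝ) : (Ah m).mul (ut (-0)) = Ah m := by
  ext <;> simp [Mat.mul, ut]

theorem ut0_act (w : Vec) : (ut (-0)).act w = w := by
  rw [ut_act]
  simp

theorem nq_e2 {h : ℝ} (hh : 0 < h) : nq ((Ah h).act ((ut (-0)).act e2)) = h := by
  rw [ut0_act, nq_Ah hh]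
  simp [e2]

theorem nq_ge {h : ℝ} (hh : 0 < h) (γ : ℂ) :
    nq ((Ah h).act ((ut (-γ)).act (γ, 1))) = h := by
  rw [nq_Ah hh, ut_act]
  simp

theorem card_T (π : PD D) : (Fintype.card π.T : ℝ) = π.p + 1 := by
  rw [Fintype.card_option]
  push_cast
  ring

theorem norm_sum_T (π : PD D) {B : ℝ} (x : π.T → ℂ) (h : ∀ t, ‖x t‖ ≤ B) :
    ‖∑ t, x t‖ ≤ (π.p + 1) * B := by
  refine (norm_sum_le _ _).trans ((Finset.sum_le_sum fun t _ => h t).trans (le_of_eq ?_))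
  rw [Finset.sum_const, nsmul_eq_mul, Finset.card_univ, card_T]

theorem DE_sum (S : Coc D) {κ : ℝ} (hκ : Kap D κ) (π : PD D) {α₁ β₁ α₂ β₂ : ℂ}
    (h1 : Lt π α₁ β₁) (h2 : Lt π α₂ β₂) {f : Vec → ℂ} (hf : AdmE D f)
    (hs : ∀ w, f w ≠ 0 → O2 D w) :
    (∀ t, (Function.support fun k : ℤ => QD S κ π α₁ β₁ α₂ β₂ 0 f t k e2).Finite) ∧
    DE S κ π α₁ β₁ α₂ β₂ f = ∑ t : π.T, ∑ᶠ k : ℤ, QD S κ π α₁ β₁ α₂ β₂ 0 f t k e2 := by
  obtain ⟨h3, h4⟩ := DL_quads S hκ π h1 h2 D.K.zero_mem hf hs Cu_e2.1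
  refine ⟨h3, ?_⟩
  rw [← h4, ut0, ut0]
  rfl

theorem supp1 {α₁ β₁ α₂ β₂ : ℂ} (hL : Lp2 D α₁ β₁ α₂ β₂) {f : Vec → ℂ}
    (hs : SuppIn D α₂ β₂ f) : SuppIn D α₁ β₁ f := by
  intro w hw
  obtain ⟨u, hu, rfl⟩ := hs w hw
  obtain ⟨z, hz, hz'⟩ := hL.aa
  obtain ⟨y, hy, hy'⟩ := hL.bb
  refine ⟨(z * u.1, y * u.2), ⟨D.O.mul_mem hz hu.1, D.O.mul_mem hy hu.2⟩, ?_⟩
  rw [dg_act, dg_act, hz', hy']
  ext <;> simp only <;> ring

theorem lt_big {α β : ℂ} (ha : α ∈ D.O) (hb : β ∈ D.O) (ha0 : α ≠ 0) (hb0 : β ≠ 0) (π : PD D)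
    (h : ‖α‖ ^ 2 + ‖β‖ ^ 2 < π.p) : Lt π α β :=
  ⟨ha, hb, PD.rne π ha ha0 (by nlinarith [sq_nonneg ‖β‖]),
    PD.rne π hb hb0 (by nlinarith [sq_nonneg ‖α‖])⟩

end DqSx

open DqSx

theorem bdD (S : Coc D) {κ : ℝ} (hκ : Kap D κ) {M : ℕ} (hM : 0 < M) (V : Finset ℂ)
    (hV : ∀ v ∈ V, v ∈ D.K) {α₁ β₁ α₂ β₂ : ℂ} (hL : Lp2 D α₁ β₁ α₂ β₂) :
    ∃ C : ℝ, 0 < C ∧ ∀ π : PD D, Lt π α₁ β₁ → Lt π α₂ β₂ → ∀ f : Vec → ℂ, Fn D M V f →
      SuppIn D α₂ β₂ f → ‖DE S κ π α₁ β₁ α₂ β₂ f‖ ≤ C := by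
  obtain ⟨C, hC, hQ⟩ := QD_bound S hκ hM V hV hL D.K.zero_mem
  refine ⟨4 * C ^ 2, by positivity, ?_⟩
  intro π h1 h2 f hf hs
  obtain ⟨v, hv1, hv4, hv2, hv6⟩ := root4 π
  have hv0 : 0 < v := by linarith
  obtain ⟨h3, h4⟩ := DE_sum S hκ π h1 h2 (Fn_AdmE hM hV hf) hf.supp
  rw [h4]
  have h5 : ∀ t : π.T, ‖∑ᶠ k : ℤ, QD S κ π α₁ β₁ α₂ β₂ 0 f t k e2‖ ≤ 2 * C ^ 2 / v ^ 4 := by
    intro t
    refine coreA hv1 hC (fun k => ?_) (fun k hk => ?_)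
    · have h6 := (hQ π h1 h2 f hf hs t k).1 e2 Cu_e2.1
      rw [nq_e2 (by positivity), hv6] at h6
      refine h6.trans (le_of_eq ?_)
      ring
    · refine (hQ π h1 h2 f hf hs t k).2.1 ?_ e2 Cu_e2.1
      rw [hv2]
      exact hk
  refine (norm_sum_T π _ h5).trans ?_
  rw [← hv4]
  have h7 : (1 : ℝ) ≤ v ^ 4 := one_le_pow₀ hv1
  rw [← mul_div_assoc, div_le_iff₀ (by positivity)]
  nlinarith [sq_nonneg C]

theorem shiftU (S : Coc D) {κ : ℝ} (hκ : Kap D κ) {M : ℕ} (hM : 0 < M) (V : Finset ℂ)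
    (hV : ∀ v ∈ V, v ∈ D.K) {α₁ β₁ α₂ β₂ : ℂ} (hL : Lp2 D α₁ β₁ α₂ β₂) {γ : ℂ}
    (hγ : γ ∈ D.K) (hg1 : ∃ z ∈ D.O, γ * β₁ = α₁ * z) (hg2 : ∃ z ∈ D.O, γ * β₂ = α₂ * z)
    {f : Vec → ℂ} (hf : Fn D M V f) (hs : SuppIn D α₂ β₂ f) :
    Tends0 (fun π : PD D => DE S κ π α₁ β₁ α₂ β₂ f -
      DE S κ π α₁ β₁ α₂ β₂ (fun w => f ((ut γ).act w))) := by
  obtain ⟨C0, hC0, hQ0⟩ := QD_bound S hκ hM V hV hL D.K.zero_mem
  obtain ⟨C1, hC1, hQ1⟩ := QD_bound S hκ hM V hV hL hγ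
  obtain ⟨C, hCd⟩ : ∃ C, C = C0 + C1 := ⟨_, rfl⟩
  have hC : 0 < C := by linarith
  obtain ⟨C', hC'⟩ : ∃ C', C' = C1 * (2 + ‖γ‖ ^ 2) := ⟨_, rfl⟩
  have hC'0 : 0 ≤ C' := by rw [hC']; positivity
  obtain ⟨G, hG⟩ : ∃ G, G = 2 * C + C' * (2 * √C) := ⟨_, rfl⟩
  have hG0 : 0 < G := by rw [hG]; positivity
  intro ε hε
  obtain ⟨P0, hP0⟩ := exists_nat_gt ((2 * G / ε) ^ 4 + (‖α₁‖ ^ 2 + ‖β₁‖ ^ 2) +
    (‖α₂‖ ^ 2 + ‖β₂‖ ^ 2))
  refine ⟨P0, fun π hπ => ?_⟩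
  have hπ' : (P0 : ℝ) < π.p := by exact_mod_cast hπ
  have hx4 : 0 ≤ (2 * G / ε) ^ 4 := by positivity
  have hx1 : 0 ≤ ‖α₁‖ ^ 2 + ‖β₁‖ ^ 2 := by positivity
  have hx2 : 0 ≤ ‖α₂‖ ^ 2 + ‖β₂‖ ^ 2 := by positivity
  have h1 : Lt π α₁ β₁ := lt_big hL.a1 hL.b1 hL.na1 hL.nb1 π (by linarith)
  have h2 : Lt π α₂ β₂ := lt_big hL.a2 hL.b2 hL.na2 hL.nb2 π (by linarith)
  obtain ⟨v, hv1, hv4, hv2, hv6⟩ := root4 π
  have hv0 : 0 < v := by linarith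
  have hA : AdmE D f := Fn_AdmE hM hV hf
  have hK : K2 D ((γ, 1) : Vec) := ⟨hγ, D.K.one_mem⟩
  obtain ⟨h3, h4⟩ := DE_sum S hκ π h1 h2 hA hf.supp
  obtain ⟨h5, h6⟩ := DL_quads S hκ π h1 h2 hγ hA hf.supp hK
  have hue : (ut γ).act e2 = (γ, 1) := by
    rw [ut_act]
    simp [e2]
  have h7 : DE S κ π α₁ β₁ α₂ β₂ (fun w => f ((ut γ).act w)) =
      ∑ t : π.T, ∑ᶠ k : ℤ, QD S κ π α₁ β₁ α₂ β₂ γ f t k (γ, 1) := by
    rw [← h6]
    unfold DE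
    rw [E_ut S hκ π h1 hγ hg1 hA (supp1 hL hs) Cu_e2.1, E_ut S hκ π h2 hγ hg2 hA hs Cu_e2.1,
      hue]
  have h8 : ∀ t : π.T, ‖∑ᶠ k : ℤ, QD S κ π α₁ β₁ α₂ β₂ 0 f t k e2 -
      ∑ᶠ k : ℤ, QD S κ π α₁ β₁ α₂ β₂ γ f t k (γ, 1)‖ ≤ G / v ^ 5 := by
    intro t
    rw [hG]
    refine coreB hv1 hC hC'0 (h3 t) (h5 t) (fun k => ?_) (fun k => ?_) (fun k hk => ?_)
      (fun k hk => ?_) (fun k hk => ?_)
    · have h9 := (hQ0 π h1 h2 f hf hs t k).1 e2 Cu_e2.1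
      rw [nq_e2 (by positivity), hv6] at h9
      refine h9.trans ?_
      have h10 : (0 : ℝ) ≤ 1 / v ^ 6 * (2 : ℝ) ^ k := by positivity
      have h11 : C * (2 : ℝ) ^ k / v ^ 6 = C * (1 / v ^ 6 * (2 : ℝ) ^ k) := by ring
      rw [h11]
      exact mul_le_mul_of_nonneg_right (by linarith) h10
    · have h9 := (hQ1 π h1 h2 f hf hs t k).1 (γ, 1) hK
      rw [nq_ge (by positivity), hv6] at h9
      refine h9.trans ?_
      have h10 : (0 : ℝ) ≤ 1 / v ^ 6 * (2 : ℝ) ^ k := by positivity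
      have h11 : C * (2 : ℝ) ^ k / v ^ 6 = C * (1 / v ^ 6 * (2 : ℝ) ^ k) := by ring
      rw [h11]
      exact mul_le_mul_of_nonneg_right (by linarith) h10
    · refine (hQ0 π h1 h2 f hf hs t k).2.1 ?_ e2 Cu_e2.1
      rw [hv2]
      have : C0 * v ^ 2 ≤ C * v ^ 2 := mul_le_mul_of_nonneg_right (by linarith) (by positivity)
      linarith
    · refine (hQ1 π h1 h2 f hf hs t k).2.1 ?_ (γ, 1) hK
      rw [hv2]
      have : C1 * v ^ 2 ≤ C * v ^ 2 := mul_le_mul_of_nonneg_right (by linarith) (by positivity)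
      linarith
    · have h9 := (hQ1 π h1 h2 f hf hs t k).2.2.1 hk (γ, 1) hK
      have h10 := (hQ1 π h1 h2 f hf hs t k).2.2.2 hk
      have hk1 : (1 : ℝ) ≤ (2 : ℝ) ^ k := one_le_zpow₀ (by norm_num) hk
      have hk0 : (0 : ℝ) < (2 : ℝ) ^ k := by linarith
      have h11 : nq ((Ah ((2 : ℝ) ^ k)).act (γ, 1)) / (2 : ℝ) ^ k ≤ ‖γ‖ ^ 2 + 1 := by
        rw [nq_Ah hk0, div_le_iff₀ hk0]
        simp only [norm_one, one_pow, mul_one]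
        have h12 : ‖γ‖ ^ 2 / (2 : ℝ) ^ k ≤ ‖γ‖ ^ 2 := div_le_self (by positivity) hk1
        nlinarith [sq_nonneg ‖γ‖]
      have h13 : C1 * ((π.p : ℝ) ^ (-(3 / 2 : ℝ)) *
          (nq ((Ah ((2 : ℝ) ^ k)).act (γ, 1)) / (2 : ℝ) ^ k)) ≤
          C1 * ((π.p : ℝ) ^ (-(3 / 2 : ℝ)) * (‖γ‖ ^ 2 + 1)) := by gcongr
      have h14 : QD S κ π α₁ β₁ α₂ β₂ 0 f t k e2 - QD S κ π α₁ β₁ α₂ β₂ γ f t k (γ, 1) =
          -(QD S κ π α₁ β₁ α₂ β₂ γ f t k (γ, 1) - QD S κ π α₁ β₁ α₂ β₂ 0 f t k (γ, 1)) -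
          (QD S κ π α₁ β₁ α₂ β₂ 0 f t k (γ, 1) - QD S κ π α₁ β₁ α₂ β₂ 0 f t k e2) := by ring
      rw [h14]
      refine (norm_sub_le _ _).trans ?_
      rw [norm_neg]
      refine (add_le_add (h9.trans h13) h10).trans (le_of_eq ?_)
      rw [hv6, hC']
      ring
  simp only
  rw [h4, h7, ← Finset.sum_sub_distrib]
  refine (norm_sum_T π _ h8).trans ?_
  rw [← hv4]
  have h15 : (1 : ℝ) ≤ v ^ 4 := one_le_pow₀ hv1
  have h16 : 2 * G / ε ≤ v := by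
    have h17 : (2 * G / ε) ^ 4 ≤ v ^ 4 := by rw [hv4]; linarith
    exact (pow_le_pow_iff_left₀ (by positivity) hv0.le (by norm_num)).1 h17
  have h18 : 2 * G ≤ v * ε := by rwa [div_le_iff₀ hε] at h16
  calc (v ^ 4 + 1) * (G / v ^ 5) ≤ (2 * v ^ 4) * (G / v ^ 5) := by
        gcongr
        linarith
    _ = 2 * G / v := by field_simp
    _ ≤ ε := by
        rw [div_le_iff₀ hv0]
        linarith

end RNP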