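import Pool.Agent.RNP.Wt

/-!
# RNP.WtM: the measures `mu`

`mu D κ B A = B_* rr (A B)`.
* `mu_lat`: if `B O² = B' O²` then `B' = B g` with `g = B⁻¹ B' ∈ GL₂(O)`.
* `mu_deep`: if `v0` is primitive with `κ |A B v0|² < |det (A B)|` and `rr (A B) w ≠ 0` then
  `|det2 v0 w|² |det (A B)|² ≤ |A B v0|² |A B w|² < |det (A B)|²` (`det2_act`, `det2_le`), and
  `det2 v0 w ∈ O`, so it is `0` (`nrm_one`).
* `mu_end`: let `v0` be primitive with `B v0` on the line of `c` (`prim_cusp` for `B⁻¹ c`); then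
  `A_{2^k} P B v0` has `|.|² = |.|²/2^k → 0` (second coordinate `0`), so `mu_deep` for large `k`; the same at
  the other end.
-/

open RNK

namespace RNP
variable {D : OD} {κ : ℝ}

theorem det_mul_ne {A B : Mat} (hA : A.det ≠ 0) (hB : B.det ≠ 0) : (A.mul B).det ≠ 0 := by
  rw [det_mul]
  exact mul_ne_zero hA hB

theorem mat_ext_act {g h : Mat} (H : ∀ w, g.act w = h.act w) : g = h := by
  have h1 := H (1, 0)
  have h2 := H (0, 1)
  have e1 := congrArg Prod.fst h1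
  have e2 := congrArg Prod.snd h1
  have e3 := congrArg Prod.fst h2
  have e4 := congrArg Prod.snd h2
  simp only [act_fst, act_snd, mul_one, mul_zero, add_zero, zero_add] at e1 e2 e3 e4
  exact Mat.ext e1 e3 e2 e4

theorem mu_apply {B : Mat} (hB : GK D B) (A : Mat) (u : Vec) :
    mu D κ B A (B.act u) = rr D κ (A.mul B) u := by
  unfold mu
  exact Finsupp.mapDomain_apply (act_inj hB.2) _ _

theorem mu_ne {B A : Mat} {x : Vec} (hB : GK D B) (h : mu D κ B A x ≠ 0) :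
    ∃ u, x = B.act u ∧ rr D κ (A.mul B) u ≠ 0 := by
  refine ⟨B.inv.act x, (act_inv hB.2 x).symm, ?_⟩
  rw [← mu_apply hB A, act_inv hB.2]
  exact h

theorem mu_supp (hκ : Kap D κ) {B A : Mat} (hB : GK D B) (hA : A.det ≠ 0) {x : Vec}
    (h : mu D κ B A x ≠ 0) :
    ∃ u, Prim D u ∧ x = B.act u ∧ nq (A.act x) < κ * ‖(A.mul B).det‖ := by
  obtain ⟨u, hx, hu⟩ := mu_ne hB h
  obtain ⟨h1, h2⟩ := rr_supp hκ (det_mul_ne hA hB.2) hu
  refine ⟨u, h1, hx, ?_⟩
  rw [act_mul, ← hx] at h2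
  exact h2

theorem mu_PM (hκ : Kap D κ) {B A : Mat} (hB : GK D B) (hA : A.det ≠ 0) :
    PM D (mu D κ B A) := by
  refine ⟨?_, ?_, ?_⟩
  · intro w hw
    obtain ⟨u, hu, hx, -⟩ := mu_supp hκ hB hA hw
    rw [hx]
    exact Cu_act hB (Prim_Cu hu)
  · intro w
    have h1 := rr_nonneg hκ (det_mul_ne hA hB.2) (B.inv.act w)
    rw [← mu_apply hB A, act_inv hB.2] at h1
    exact h1
  · have h1 := rr_sum hκ (det_mul_ne hA hB.2)
    unfold mu
    rw [Finsupp.sum_mapDomain_index (fun _ => rfl) (fun _ _ _ => rfl)]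
    exact h1

theorem mu_lat_entry {B B' : Mat} (hB : GK D B)
    (h : ∀ w, (∃ u, O2 D u ∧ w = B'.act u) → (∃ u, O2 D u ∧ w = B.act u)) :
    ((B.inv.mul B').a ∈ D.O ∧ (B.inv.mul B').b ∈ D.O ∧ (B.inv.mul B').c ∈ D.O ∧
      (B.inv.mul B').d ∈ D.O) := by
  have key : ∀ v : Vec, O2 D v → O2 D ((B.inv.mul B').act v) := by
    intro v hv
    obtain ⟨u, hu, e⟩ := h (B'.act v) ⟨v, hv, rfl⟩
    rw [act_mul, e, inv_act hB.2]
    exact hu
  have h1 := key (1, 0) ⟨D.O.one_mem, D.O.zero_mem⟩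
  have h2 := key (0, 1) ⟨D.O.zero_mem, D.O.one_mem⟩
  simp only [O2, act_fst, act_snd, mul_one, mul_zero, add_zero, zero_add] at h1 h2
  exact ⟨h1.1, h2.1, h1.2, h2.2⟩

theorem mu_lat (hκ : 0 < κ) {B B' A : Mat} (hB : GK D B) (hB' : GK D B') (hA : A.det ≠ 0)
    (h : ∀ w, (∃ u, O2 D u ∧ w = B.act u) ↔ (∃ u, O2 D u ∧ w = B'.act u)) :
    mu D κ B A = mu D κ B' A := by
  have hg1 := mu_lat_entry hB (fun w => (h w).2)
  have hg2 := mu_lat_entry hB' (fun w => (h w).1)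
  have hd1 : (B.inv.mul B').det = B.det⁻¹ * B'.det := by rw [det_mul, det_inv hB.2]
  have hd2 : (B'.inv.mul B).det = B'.det⁻¹ * B.det := by rw [det_mul, det_inv hB'.2]
  have hne : (B.inv.mul B').det ≠ 0 := by
    rw [hd1]
    exact mul_ne_zero (inv_ne_zero hB.2) hB'.2
  have hinv : (B.inv.mul B').det⁻¹ = (B'.inv.mul B).det := by
    rw [hd1, hd2, mul_inv, inv_inv, mul_comm]
  have hgO : GO D (B.inv.mul B') := by
    refine ⟨⟨hg1, hne⟩, ?_⟩
    rw [hinv]
    exact D.O.sub_mem (D.O.mul_mem hg2.1 hg2.2.2.2) (D.O.mul_mem hg2.2.1 hg2.2.2.1)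
  have hBg : B.mul (B.inv.mul B') = B' := by
    apply mat_ext_act
    intro w
    rw [act_mul, act_mul, act_inv hB.2]
  have hrr : (rr D κ (A.mul B')).mapDomain (B.inv.mul B').act = rr D κ (A.mul B) := by
    ext w
    have e1 : w = (B.inv.mul B').act ((B.inv.mul B').inv.act w) := (act_inv hne w).symm
    have e2 : A.mul B' = (A.mul B).mul (B.inv.mul B') := by rw [mul_assoc', hBg]
    have e3 : (rr D κ (A.mul B')).mapDomain (B.inv.mul B').act w =
        rr D κ (A.mul B') ((B.inv.mul B').inv.act w) := by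
      conv_lhs => rw [e1]
      exact Finsupp.mapDomain_apply (act_inj hne) _ _
    rw [e3, e2, rr_GO hκ (det_mul_ne hA hB.2) hgO, act_inv hne]
  unfold mu
  rw [← hrr, ← Finsupp.mapDomain_comp]
  congr 1
  funext w
  show B.act ((B.inv.mul B').act w) = B'.act w
  rw [← act_mul, hBg]

theorem mu_map (D : OD) (κ : ℝ) (B A g : Mat) :
    (mu D κ B (A.mul g)).mapDomain g.act = mu D κ (g.mul B) A := by
  unfold mu
  rw [mul_assoc', ← Finsupp.mapDomain_comp]
  congr 1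
  funext w
  exact (act_mul g B w).symm

theorem mu_congr {B A A' : Mat} {c : ℝ} (hc : 0 < c)
    (h : ∀ w, nq (A.act w) = c * nq (A'.act w)) (hd : ‖A.det‖ = c * ‖A'.det‖) :
    mu D κ B A = mu D κ B A' := by
  unfold mu
  rw [rr_congr (C := A.mul B) (C' := A'.mul B) hc]
  · intro w
    rw [act_mul, act_mul]
    exact h _
  · rw [det_mul, det_mul, norm_mul, norm_mul, hd]
    ring

theorem mu_deep (hκ : Kap D κ) {B A : Mat} (hB : GK D B) (hA : A.det ≠ 0) {v0 : Vec}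
    (hv : Prim D v0) (h : κ * nq (A.act (B.act v0)) < ‖(A.mul B).det‖) {x : Vec}
    (hx : mu D κ B A x ≠ 0) : det2 (B.act v0) x = 0 := by
  obtain ⟨u, hu, hxu, h2⟩ := mu_supp hκ hB hA hx
  by_contra hne
  have hdet : det2 (B.act v0) x = B.det * det2 v0 u := by rw [hxu, det2_act]
  have h0 : det2 v0 u ≠ 0 := fun e => hne (by rw [hdet, e, mul_zero])
  have hO : det2 v0 u ∈ D.O :=
    D.O.sub_mem (D.O.mul_mem (Prim_O2 hv).1 (Prim_O2 hu).2)
      (D.O.mul_mem (Prim_O2 hv).2 (Prim_O2 hu).1)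
  have h1 := nrm_one hO h0
  have h3 := det2_le (A.act (B.act v0)) (A.act x)
  have h4 : det2 (A.act (B.act v0)) (A.act x) = (A.mul B).det * det2 v0 u := by
    rw [det2_act, hdet, det_mul]
    ring
  rw [h4, norm_mul] at h3
  have hd0 : 0 < ‖(A.mul B).det‖ := norm_pos_iff.2 (det_mul_ne hA hB.2)
  have h5 : ‖(A.mul B).det‖ ≤ ‖(A.mul B).det‖ * ‖det2 v0 u‖ := by nlinarith
  have h6 : ‖(A.mul B).det‖ ^ 2 ≤ nq (A.act (B.act v0)) * nq (A.act x) := by
    refine le_trans ?_ h3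
    exact pow_le_pow_left₀ hd0.le h5 2
  have hκ0 : 0 < κ := lt_of_lt_of_le one_pos hκ.one
  have h7 := nq_nonneg (A.act (B.act v0))
  have h8 := nq_nonneg (A.act x)
  have h9 : κ * ‖(A.mul B).det‖ ^ 2 ≤ ‖(A.mul B).det‖ * nq (A.act x) := by
    calc κ * ‖(A.mul B).det‖ ^ 2 ≤ κ * (nq (A.act (B.act v0)) * nq (A.act x)) :=
          mul_le_mul_of_nonneg_left h6 hκ0.le
      _ = (κ * nq (A.act (B.act v0))) * nq (A.act x) := by ring
      _ ≤ ‖(A.mul B).det‖ * nq (A.act x) := mul_le_mul_of_nonneg_right h.le h8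
  have h10 : ‖(A.mul B).det‖ * nq (A.act x) < ‖(A.mul B).det‖ * (κ * ‖(A.mul B).det‖) :=
    mul_lt_mul_of_pos_left h2 hd0
  nlinarith

theorem PM_ms {μ : Ms} (h : PM D μ) : ms μ = 1 := by
  rw [← h.one]
  unfold ms
  apply Finsupp.sum_congr
  intro x _
  exact abs_of_nonneg (h.nn x)

theorem PM_dl {x : Vec} (h : Cu D x) : PM D (dl x) := by
  classical
  refine ⟨?_, ?_, ?_⟩
  · intro w hw
    have e : w = x := by
      by_contra hne
      apply hw
      unfold dl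
      exact Finsupp.single_eq_of_ne hne
    rw [e]
    exact h
  · intro w
    unfold dl
    rw [Finsupp.single_apply]
    split_ifs
    · exact zero_le_one
    · exact le_rfl
  · unfold dl
    exact Finsupp.sum_single_index rfl

/-- the weights near the end of a geodesic -/
theorem mu_end (hκ : Kap D κ) {B P : Mat} (hB : GK D B) (hP : P.det ≠ 0) {c c' : Vec}
    (hc : Cu D c) (hc' : Cu D c') (h : (P.act c).2 = 0) (h' : (P.act c').1 = 0) :
    ∃ n0 : ℕ, ∀ k : ℤ,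
      ((n0 : ℤ) ≤ k → ∀ x, mu D κ B (pt P k) x ≠ 0 → det2 c x = 0) ∧
      (k ≤ -(n0 : ℤ) → ∀ x, mu D κ B (pt P k) x ≠ 0 → det2 c' x = 0) := by
  obtain ⟨g, -, hg0, v, hv, e⟩ := prim_cusp (Cu_act (GK_inv hB) hc)
  obtain ⟨g', -, hg0', v', hv', e'⟩ := prim_cusp (Cu_act (GK_inv hB) hc')
  have ec : c = g • B.act v := by rw [← act_smul, ← e, act_inv hB.2]
  have ec' : c' = g' • B.act v' := by rw [← act_smul, ← e', act_inv hB.2]
  have hz : (P.act (B.act v)).2 = 0 := by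
    rw [ec, act_smul, Prod.smul_snd, smul_eq_mul] at h
    exact (mul_eq_zero.1 h).resolve_left hg0
  have hz' : (P.act (B.act v')).1 = 0 := by
    rw [ec', act_smul, Prod.smul_fst, smul_eq_mul] at h'
    exact (mul_eq_zero.1 h').resolve_left hg0'
  have hκ0 : 0 < κ := lt_of_lt_of_le one_pos hκ.one
  set N : ℝ := ‖(P.act (B.act v)).1‖ ^ 2 with hN
  set N' : ℝ := ‖(P.act (B.act v')).2‖ ^ 2 with hN'
  have hN0 : 0 ≤ N := by positivity
  have hN0' : 0 ≤ N' := by positivity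
  have hd : 0 < ‖P.det * B.det‖ := norm_pos_iff.2 (mul_ne_zero hP hB.2)
  obtain ⟨n0, hn0⟩ := pow_unbounded_of_one_lt ((κ * (N + N')) / ‖P.det * B.det‖)
    (one_lt_two : (1 : ℝ) < 2)
  have hn1 : κ * (N + N') < 2 ^ n0 * ‖P.det * B.det‖ := by
    rwa [div_lt_iff₀ hd] at hn0
  have hdk : ∀ k : ℤ, ((pt P k).mul B).det = P.det * B.det := fun k => by
    rw [det_mul, det_pt]
  have hpd : ∀ k : ℤ, (pt P k).det ≠ 0 := fun k => by rw [det_pt]; exact hP
  refine ⟨n0, fun k => ⟨fun hk x hx => ?_, fun hk x hx => ?_⟩⟩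
  · have hpk : (0 : ℝ) < (2 : ℝ) ^ k := by positivity
    have hle : (2 : ℝ) ^ n0 ≤ (2 : ℝ) ^ k := by
      rw [← zpow_natCast]
      exact zpow_le_zpow_right₀ one_le_two hk
    have hnq : nq ((pt P k).act (B.act v)) = N / 2 ^ k := by
      rw [pt_act, nq_Ah hpk, hz]
      simp [hN]
    have hlt : κ * nq ((pt P k).act (B.act v)) < ‖((pt P k).mul B).det‖ := by
      rw [hnq, hdk k, ← mul_div_assoc, div_lt_iff₀ hpk]
      have a1 : κ * N ≤ κ * (N + N') := by nlinarith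
      have a2 : 2 ^ n0 * ‖P.det * B.det‖ ≤ ‖P.det * B.det‖ * 2 ^ k := by
        rw [mul_comm]
        exact mul_le_mul_of_nonneg_left hle hd.le
      linarith
    have h3 := mu_deep hκ hB (hpd k) hv hlt hx
    rw [ec]
    have : det2 (g • B.act v) x = g * det2 (B.act v) x := by
      simp only [det2, Prod.smul_fst, Prod.smul_snd, smul_eq_mul]
      ring
    rw [this, h3, mul_zero]
  · have hpk : (0 : ℝ) < (2 : ℝ) ^ k := by positivity
    have hle : (2 : ℝ) ^ k * 2 ^ n0 ≤ 1 := by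
      rw [← zpow_natCast, ← zpow_add₀ (two_ne_zero)]
      apply zpow_le_one_of_nonpos₀ one_le_two
      omega
    have hnq : nq ((pt P k).act (B.act v')) = 2 ^ k * N' := by
      rw [pt_act, nq_Ah hpk, hz']
      simp [hN']
    have hlt : κ * nq ((pt P k).act (B.act v')) < ‖((pt P k).mul B).det‖ := by
      rw [hnq, hdk k]
      have a1 : κ * N' ≤ κ * (N + N') := by nlinarith
      have a2 : 2 ^ k * (κ * N') < 2 ^ k * (2 ^ n0 * ‖P.det * B.det‖) :=
        mul_lt_mul_of_pos_left (lt_of_le_of_lt a1 hn1) hpk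
      have a3 : 2 ^ k * (2 ^ n0 * ‖P.det * B.det‖) ≤ ‖P.det * B.det‖ := by
        rw [← mul_assoc]
        calc 2 ^ k * 2 ^ n0 * ‖P.det * B.det‖ ≤ 1 * ‖P.det * B.det‖ :=
              mul_le_mul_of_nonneg_right hle hd.le
          _ = _ := one_mul _
      calc κ * (2 ^ k * N') = 2 ^ k * (κ * N') := by ring
        _ < 2 ^ k * (2 ^ n0 * ‖P.det * B.det‖) := a2
        _ ≤ _ := a3
    have h3 := mu_deep hκ hB (hpd k) hv' hlt hx
    rw [ec']
    have : det2 (g' • B.act v') x = g' * det2 (B.act v') x := by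
      simp only [det2, Prod.smul_fst, Prod.smul_snd, smul_eq_mul]
      ring
    rw [this, h3, mul_zero]

end RNP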