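import Pool.Agent.RNP.PfP
import Pool.Agent.RNP.PfF
import Pool.Agent.RNP.Ed

/-!
# RNP.EgA: the edge functionals summed over `t`

`EG S κ π α β P c f p = Σ_t ep (B_t) P c (f 1_t) p`, `E` the case of the geodesic `x = 0`, `y = 0` with
`P = A_{|α|/|β|}`, `c = e1`.

`EG_act` (main theorem): `g ∈ M₂(O)`, `r (det g) ≠ 0`, `g (α O ⊕ β O) = α' O ⊕ β' O`. By `perm` there is a
bijection `e` with `ind t w = ind (e t) (g w)` on `O²`. If `f (g w) ≠ 0` then `g w ∈ α' O ⊕ β' O`, so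
`w ∈ α O ⊕ β O ⊆ O²`; so `(f ∘ g) 1_t = (f 1_{e t}) ∘ g` (all `w`). Then `ep_act`, and `g B_t` and
`B'_{e t}` are bases of the same lattice (`B_lat`), `ep_lat`; reindex the sum by `e` (`Equiv.sum_comp`).
-/

open RNK

namespace RNP
variable {D : OD}

/-- conditions on the coefficients of a lattice `α O ⊕ β O` -/
structure Lt {D : OD} (π : PD D) (α β : ℂ) : Prop where
  ha : α ∈ D.O
  hb : β ∈ D.O
  ra : π.r α ≠ 0
  rb : π.r β ≠ 0

theorem PD.ne_of_r {D : OD} (π : PD D) {x : ℂ} (h : π.r x ≠ 0) : x ≠ 0 := by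
  rintro rfl
  apply h
  have := π.rint 0
  simpa using this

theorem Lt.GK_B {D : OD} {π : PD D} {α β : ℂ} (h : Lt π α β) (t : π.T) :
    GK D (π.B α β t) :=
  MO_GK (MO_B π h.ha h.hb (π.ne_of_r h.ra) (π.ne_of_r h.rb) t)

theorem Lt.supp_O2 {D : OD} {π : PD D} {α β : ℂ} (h : Lt π α β) {w : Vec}
    (hw : ∃ u, O2 D u ∧ w = (dg α β).act u) : O2 D w := by
  obtain ⟨u, hu, rfl⟩ := hw
  rw [dg_act]
  exact ⟨D.O.mul_mem h.ha hu.1, D.O.mul_mem h.hb hu.2⟩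

theorem Lt.AdmE {D : OD} {π : PD D} {α β : ℂ} (h : Lt π α β) {f : Vec → ℂ}
    (hf : AdmE D f) (hs : SuppIn D α β f) (t : π.T) : AdmE D (fun w => f w * π.ind t w) :=
  AdmE_ind π hf (fun w hw => h.supp_O2 (hs w hw)) t

variable (S : Coc D) {κ : ℝ} (hκ : Kap D κ) (π : PD D)

include hκ

theorem EG_act {α β α' β' : ℂ} (h1 : Lt π α β) (h2 : Lt π α' β') {g : Mat} (hg : MO D g)
    (hr : π.r g.det ≠ 0)
    (hL : ∀ w, (∃ u, O2 D u ∧ w = (dg α' β').act u) ↔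
      (∃ u, O2 D u ∧ w = g.act ((dg α β).act u)))
    {f : Vec → ℂ} (hf : AdmE D f) (hs : SuppIn D α' β' f) {P P' : Mat} {c c' : Vec}
    (hP : Geo D P c c') {c0 : ℝ} (hc0 : 0 < c0)
    (h : ∀ k w, nq ((pt P k).act w) = c0 * nq ((pt P' k).act (g.act w)))
    (hd : ‖P.det‖ = c0 * ‖P'.det * g.det‖) {p : Vec} (hp : K2 D p) :
    EG S κ π α β P c (fun w => f (g.act w)) p =
      ((‖g.det‖ ^ 2 : ℝ) : ℂ) * EG S κ π α' β' P' (g.act c) f (g.act p) := by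
  obtain ⟨e, he⟩ := perm π hg hr
  have hP' : P'.det ≠ 0 := by
    intro h0
    apply hP.det
    rw [h0, zero_mul, norm_zero, mul_zero] at hd
    exact norm_eq_zero.1 hd
  have hcomp : ∀ t : π.T, (fun w => f (g.act w) * π.ind t w) =
      (fun w => (fun v => f v * π.ind (e t) v) (g.act w)) := by
    intro t
    funext w
    show f (g.act w) * π.ind t w = f (g.act w) * π.ind (e t) (g.act w)
    by_cases h0 : f (g.act w) = 0
    · rw [h0, zero_mul, zero_mul]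
    · obtain ⟨u, hu, hu1⟩ := (hL (g.act w)).1 (hs _ h0)
      have hw : w = (dg α β).act u := act_inj hg.2 hu1
      rw [he t w (h1.supp_O2 ⟨u, hu, hw⟩)]
  have hlat : ∀ (t : π.T) (w : Vec), (∃ u, O2 D u ∧ w = (g.mul (π.B α β t)).act u) ↔
      (∃ u, O2 D u ∧ w = (π.B α' β' (e t)).act u) := by
    intro t w
    rw [B_lat π h2.ha h2.hb h2.ra h2.rb (e t) w, hL w]
    constructor
    · rintro ⟨u, hu, rfl⟩
      obtain ⟨⟨v, hv, hv1⟩, hv2⟩ := (B_lat π h1.ha h1.hb h1.ra h1.rb t _).1 ⟨u, hu, rfl⟩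
      refine ⟨⟨v, hv, ?_⟩, ?_⟩
      · rw [act_mul, hv1]
      · rw [act_mul, ← he t _ (h1.supp_O2 ⟨v, hv, hv1⟩), hv2]
    · rintro ⟨⟨v, hv, rfl⟩, hv2⟩
      have hv3 : π.ind t ((dg α β).act v) = 1 := by
        rw [he t _ (h1.supp_O2 ⟨v, hv, rfl⟩), hv2]
      obtain ⟨u, hu, hu1⟩ := (B_lat π h1.ha h1.hb h1.ra h1.rb t _).2 ⟨⟨v, hv, rfl⟩, hv3⟩
      exact ⟨u, hu, by rw [act_mul, hu1]⟩
  have hterm : ∀ t : π.T, ep S κ (π.B α β t) P c (fun w => f (g.act w) * π.ind t w) p =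
      ((‖g.det‖ ^ 2 : ℝ) : ℂ) *
        ep S κ (π.B α' β' (e t)) P' (g.act c) (fun w => f w * π.ind (e t) w) (g.act p) := by
    intro t
    rw [hcomp t]
    have hA : AdmE D (fun v => f v * π.ind (e t) v) := h2.AdmE hf hs (e t)
    rw [ep_act S hκ (h1.GK_B t) hP hA hp (MO_GK hg) hc0 h hd]
    rw [ep_lat S hκ (GK_mul (MO_GK hg) (h1.GK_B t)) (h2.GK_B (e t)) hP' (hlat t)]
  unfold EG
  rw [Finset.mul_sum]
  rw [← Equiv.sum_comp e (fun s => ((‖g.det‖ ^ 2 : ℝ) : ℂ) *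
    ep S κ (π.B α' β' s) P' (g.act c) (fun w => f w * π.ind s w) (g.act p))]
  exact Finset.sum_congr rfl fun t _ => hterm t

theorem EG_add {α β : ℂ} (h1 : Lt π α β) {P : Mat} {c c' : Vec} (hP : Geo D P c c')
    {f g : Vec → ℂ} (hf : AdmE D f) (hg : AdmE D g) (hs : SuppIn D α β f)
    (hs' : SuppIn D α β g) {p : Vec} (hp : K2 D p) :
    EG S κ π α β P c (fun w => f w + g w) p =
      EG S κ π α β P c f p + EG S κ π α β P c g p := by
  unfold EG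
  rw [← Finset.sum_add_distrib]
  refine Finset.sum_congr rfl fun t _ => ?_
  rw [← ep_add S hκ (h1.GK_B t) hP (h1.AdmE hf hs t) (h1.AdmE hg hs' t) hp]
  congr 1
  funext w
  exact add_mul _ _ _

theorem EG_smul {α β : ℂ} (h1 : Lt π α β) {P : Mat} {c c' : Vec} (hP : Geo D P c c')
    {f : Vec → ℂ} (hf : AdmE D f) (hs : SuppIn D α β f) {k : ℂ} (hk : k ∈ D.K) {p : Vec}
    (hp : K2 D p) :
    EG S κ π α β P c (fun w => k * f w) p = k * EG S κ π α β P c f p := by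
  unfold EG
  rw [Finset.mul_sum]
  refine Finset.sum_congr rfl fun t _ => ?_
  rw [← ep_smul S hκ (h1.GK_B t) hP (h1.AdmE hf hs t) hp hk]
  congr 1
  funext w
  exact mul_assoc _ _ _

theorem EG_quad {α β : ℂ} (h1 : Lt π α β) {P : Mat} {c c' : Vec} (hP : Geo D P c c')
    {f : Vec → ℂ} (hf : AdmE D f) (hs : SuppIn D α β f) :
    ∃ S11 S12 S22 : ℂ, ∀ p, K2 D p →
      EG S κ π α β P c f p = p.1 ^ 2 * S11 + p.1 * p.2 * S12 + p.2 ^ 2 * S22 := by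
  have hq : ∀ t : π.T, ∃ S11 S12 S22 : ℂ, ∀ p, K2 D p →
      ep S κ (π.B α β t) P c (fun w => f w * π.ind t w) p =
        p.1 ^ 2 * S11 + p.1 * p.2 * S12 + p.2 ^ 2 * S22 := fun t =>
    ep_quad S hκ (h1.GK_B t) hP (h1.AdmE hf hs t)
  choose A B C hABC using hq
  refine ⟨∑ t, A t, ∑ t, B t, ∑ t, C t, fun p hp => ?_⟩
  unfold EG
  rw [Finset.mul_sum, Finset.mul_sum, Finset.mul_sum, ← Finset.sum_add_distrib,
    ← Finset.sum_add_distrib]
  exact Finset.sum_congr rfl fun t _ => hABC t p hp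

end RNP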