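import Pool.Agent.RNP.InB

/-!
# RNP.In: the edge functional of a closed function tends to `0`

`Es` in the place of `E 1 1 .. e2` and the set `C` of `Bp D N C` in
the place of the set of all nonunit divisors. Claim: if `g` is in the class and supported on vectors with `c ∤ y` for all
`c ∈ C \ B`, then `Es g → 0` (`B ⊆ C`). Induction on `|B|`. `B = ∅`: `E_base`. Else choose `c ∈ B`; `g = cutn c g + cutd c g`; the
first by induction (`B \ {c}`); second: `E_step` and `g₁ = dil c g` is again in the class with the same `V, J, q`, and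
supported on `c' ∤ y` for `c' ∈ C \ B` (`c' ∣ y` implies `c' ∣ c y`). So `limsup |Es g| ≤ |c|⁻⁴ limsup |Es g₁| ≤ ... ≤
|c|⁻⁴ⁿ C` with `C` of `E_bound`, `|c|² ≥ 2` (`nonunit`, `Bp.mem`): `0`.
-/

open RNK

namespace RNP

variable {D : OD}

theorem cutn_ne {c : ℂ} {f : Vec → ℂ} {w : Vec} (h : cutn D c f w ≠ 0) :
    (¬ ∃ z ∈ D.O, w.2 = c * z) ∧ f w ≠ 0 := by
  unfold cutn at h
  split_ifs at h with h1
  · exact absurd rfl h
  · exact ⟨h1, h⟩

theorem dil_ne {c : ℂ} {f : Vec → ℂ} {w : Vec} (h : dil D c f w ≠ 0) :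
    f (w.1, c * w.2) ≠ 0 := by
  unfold dil cutd at h
  rw [dg_act, one_mul] at h
  split_ifs at h with h1
  · exact h
  · exact absurd rfl h

private theorem Es_split (S : Coc D) {κ : ℝ} (hκ : Kap D κ) {N : ℕ} [NeZero N] :
    ∃ P0 : ℕ, ∀ π : PD D, P0 < π.p → ∀ {V : Finset ℂ}
    {J : ℕ} {q : Fin J → ℂ} {g : Vec → ℂ}, Gc D N V J q g → ∀ {c : ℂ}, c ∈ D.O →
    (∃ z ∈ D.O, (N : ℂ) = c * z) →
    Es S κ N π g = Es S κ N π (cutd D c g) + Es S κ N π (cutn D c g) := by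
  have hN : 0 < N := Nat.pos_of_ne_zero (NeZero.ne N)
  obtain ⟨P0, h0⟩ := Es_add S hκ hN
  refine ⟨P0, fun π hπ {V J q g} hg {c} hc hd => ?_⟩
  obtain ⟨V1, hV1, hg1⟩ := Gc_Fn hg
  have h1 := Fn_cutd hg1 hc hd
  have h2 := Fn_cutn hg1 hc hd
  rw [← h0 π hπ _ _ (Fn_AdmE hN hV1 h1) (Fn_AdmE hN hV1 h2) h1.supp h2.supp, cut_add]

private theorem E_iter (S : Coc D) {κ : ℝ} (hκ : Kap D κ) {N : ℕ} [NeZero N] (V : Finset ℂ)
    (hV : ∀ v ∈ V, v ∈ D.K) {J : ℕ} {q : Fin J → ℂ} (hq : ∀ j, q j ∈ D.O ∧ q j ≠ 0)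
    {c : ℂ} (hc : c ∈ D.O) (h0 : c ≠ 0) (hd : ∃ z ∈ D.O, (N : ℂ) = c * z)
    (hu : ¬ ∃ y ∈ D.O, c * y = 1) (Pr : (Vec → ℂ) → Prop)
    (hn : ∀ g, Gc D N V J q g → Pr g → Tends0 (fun π : PD D => Es S κ N π (cutn D c g)))
    (hdil : ∀ g, Gc D N V J q g → Pr g → Pr (dil D c g)) {g : Vec → ℂ}
    (hg : Gc D N V J q g) (hPg : Pr g) : Tends0 (fun π : PD D => Es S κ N π g) := by
  obtain ⟨C, hC, P0, hb⟩ := E_bound S hκ (N := N) V hV hq
  obtain ⟨Q0, hsp⟩ := Es_split S hκ (N := N)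
  have hr : ‖(((‖c‖ ^ 2 : ℝ) : ℂ) * c ^ 2)⁻¹‖ ≤ 1 / 4 := by
    have h2 := nonunit hc h0 hu
    rw [norm_inv, norm_mul, norm_pow, Complex.norm_real, Real.norm_eq_abs,
      abs_of_nonneg (by positivity)]
    rw [one_div]
    apply inv_anti₀ (by norm_num)
    nlinarith
  have key : ∀ m : ℕ, ∀ g, Gc D N V J q g → Pr g → ∀ ε : ℝ, 0 < ε → ∃ P1 : ℕ, ∀ π : PD D,
      P1 < π.p → ‖Es S κ N π g‖ ≤ (1 / 4) ^ m * C + ε := by
    intro m
    induction m with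
    | zero =>
      intro g hg _ ε hε
      refine ⟨P0, fun π hπ => ?_⟩
      have := hb g hg π hπ
      simp only [pow_zero, one_mul]
      linarith
    | succ m ih =>
      intro g hg hPg ε hε
      obtain ⟨P1, h1⟩ := hn g hg hPg (ε / 4) (by linarith)
      obtain ⟨P2, h2⟩ := E_step S hκ V hg hc h0 hd (ε / 4) (by linarith)
      obtain ⟨P3, h3⟩ := ih (dil D c g) (Gc_dil hg hc h0 hd) (hdil g hg hPg) (ε / 4)
        (by linarith)
      refine ⟨P1 + P2 + P3 + Q0, fun π hπ => ?_⟩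
      have a1 := h1 π (by omega)
      have a2 := h2 π (by omega)
      have a3 := h3 π (by omega)
      have e1 : Es S κ N π g = Es S κ N π (cutn D c g) +
          (Es S κ N π (cutd D c g) -
            (((‖c‖ ^ 2 : ℝ) : ℂ) * c ^ 2)⁻¹ * Es S κ N π (dil D c g)) +
          (((‖c‖ ^ 2 : ℝ) : ℂ) * c ^ 2)⁻¹ * Es S κ N π (dil D c g) := by
        rw [hsp π (by omega) hg hc hd]
        ring
      have a4 : ‖(((‖c‖ ^ 2 : ℝ) : ℂ) * c ^ 2)⁻¹ * Es S κ N π (dil D c g)‖ ≤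
          1 / 4 * ((1 / 4) ^ m * C + ε / 4) := by
        rw [norm_mul]
        exact mul_le_mul hr a3 (norm_nonneg _) (by norm_num)
      have a5 : ‖Es S κ N π g‖ ≤ ε / 4 + ε / 4 + 1 / 4 * ((1 / 4) ^ m * C + ε / 4) := by
        rw [e1]
        refine (norm_add_le _ _).trans (add_le_add ((norm_add_le _ _).trans ?_) a4)
        exact add_le_add a1 a2
      have e2' : (1 / 4 : ℝ) ^ (m + 1) * C = 1 / 4 * ((1 / 4) ^ m * C) := by
        rw [pow_succ]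
        ring
      rw [e2']
      linarith
  intro ε hε
  obtain ⟨m, hm⟩ := exists_pow_lt_of_lt_one (show 0 < ε / (2 * C) by positivity)
    (show (1 / 4 : ℝ) < 1 by norm_num)
  obtain ⟨P1, h1⟩ := key m g hg hPg (ε / 2) (by linarith)
  refine ⟨P1, fun π hπ => (h1 π hπ).trans ?_⟩
  have h2 : (1 / 4 : ℝ) ^ m * C ≤ ε / (2 * C) * C := mul_le_mul_of_nonneg_right hm.le hC.le
  have h3 : ε / (2 * C) * C = ε / 2 := by
    field_simp
  linarith

private theorem E_ind (S : Coc D) {κ : ℝ} (hκ : Kap D κ) {N : ℕ} [NeZero N] {C : Finset ℂ}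
    (hC : Bp D N C) (V : Finset ℂ)
    (hV : ∀ v ∈ V, v ∈ D.K) {J : ℕ} {q : Fin J → ℂ} (hq : ∀ j, q j ∈ D.O ∧ q j ≠ 0)
    (B : Finset ℂ) : B ⊆ C →
    ∀ g : Vec → ℂ, Gc D N V J q g →
    (∀ c ∈ C, c ∉ B → ∀ w, g w ≠ 0 → ¬ ∃ z ∈ D.O, w.2 = c * z) →
    Tends0 (fun π : PD D => Es S κ N π g) := by
  classical
  induction B using Finset.induction_on with
  | empty =>
    intro _ g hg hs
    exact E_base S hκ hC V hV hq hg fun w hw c hc => hs c hc (Finset.notMem_empty c) w hw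
  | insert c B hcB ih =>
    intro hB g hg hs
    have hcm : c ∈ C := hB (Finset.mem_insert_self c B)
    obtain ⟨hc, hd, hu⟩ := hC.mem c hcm
    have h0 : c ≠ 0 := by
      rintro rfl
      obtain ⟨z, _, hz⟩ := hd
      rw [zero_mul] at hz
      exact hC.pos.ne' (by exact_mod_cast hz)
    refine E_iter S hκ V hV hq hc h0 hd hu
      (fun g => ∀ c' ∈ C, c' ∉ insert c B → ∀ w, g w ≠ 0 →
        ¬ ∃ z ∈ D.O, w.2 = c' * z) ?_ ?_ hg hs
    · intro g hg hPg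
      refine ih (fun x hx => hB (Finset.mem_insert_of_mem hx)) _ (Gc_cutn hg hc h0 hd) ?_
      intro c' hc' hcB' w hw
      obtain ⟨h1, h2⟩ := cutn_ne hw
      by_cases he : c' = c
      · rw [he]
        exact h1
      · refine hPg c' hc' ?_ w h2
        rw [Finset.mem_insert]
        rintro (h | h)
        · exact he h
        · exact hcB' h
    · intro g hg hPg c' hc' hcB' w hw
      rintro ⟨z, hz, hz'⟩
      refine hPg c' hc' hcB' (w.1, c * w.2) (dil_ne hw) ⟨c * z, D.O.mul_mem hc hz, ?_⟩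
      show c * w.2 = c' * (c * z)
      rw [hz']
      ring

theorem E_class (S : Coc D) {κ : ℝ} (hκ : Kap D κ) {N : ℕ} [NeZero N] {C : Finset ℂ}
    (hC : Bp D N C) (V : Finset ℂ)
    (hV : ∀ v ∈ V, v ∈ D.K) {J : ℕ} {q : Fin J → ℂ} (hq : ∀ j, q j ∈ D.O ∧ q j ≠ 0)
    {g : Vec → ℂ} (hg : Gc D N V J q g) :
    Tends0 (fun π : PD D => E S κ π 1 1 g e2) := by
  have h1 : Tends0 (fun π : PD D => Es S κ N π g) :=
    E_ind S hκ hC V hV hq C (Finset.Subset.refl _) g hg fun c hc hc' => absurd hc hc'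
  have h2 := T0_add (E_start S hκ V hg) (T0_smul ((N : ℂ) ^ 6) h1)
  refine T0_congr ⟨0, fun π _ => ?_⟩ h2
  ring

end RNP
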