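import Pool.Agent.RNP.InC

/-!
# RNP.InB: steps for the class

Adapt `RNK/InB` with `Es S κ N π f = E S κ π 1 N (qd N f) e2` in the place of `E S κ π 1 1 f e2` (`Es` is additive on
`AdmE` functions supported on `O²` if `Lt π 1 N`; `Lt π 1 N` holds for large `π`, `Lt_large`).
`E_theta`: `Es θ = 0` (`E_neg`: `θ ∘ dg (-1) 1 = -θ`).
(a) `E_base`: `Gc_cop`, `avS` (`Bp.base` gives the condition of `avS`: `ψ_j w ≠ 0` implies `w.2 ∈ O` and no `c ∈ C` divides it),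
  `E_theta`.
(b) `E_bound`: `bdS` for each `q j`, `E_theta`.
(c) `E_step`: for `c ∈ O` dividing `N`: `Es (cutd c g) = DE 1 N 1 (c N) (qd N (cutd c g)) + E 1 (c N) (qd N (cutd c g)) e2`;
  `DE` tends to `0` by `shiftU` (`Lp2 D 1 N 1 (c N)`, `γ ∈ O`: `qd N (cutd c g) = F - F ∘ ut γ`, `F = qd N (cutd c f)`, supported on
  `O ⊕ c N O`), and `Es (dil c g) = |c|² c² E 1 (c N) (qd N (cutd c g)) e2` by `E_dg` (`a = 1`, `d = c`; `qd N (cutd c g) ∘ dg 1 c =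
  qd N (dil c g)`) and `E_hom` (`(dg 1 c) e2 = c e2`).
(d) `E_start`: `E 1 1 g e2 - |N²|² N² Es g → 0`: `E 1 1 g e2 = |N²|² N² E N N (qd N g) e2` (`E_dg`, `a = d = N`, `E_hom`), and
  `Es g - E N N (qd N g) e2 = DE 1 N N N (qd N g)` tends to `0` by `shiftU` (`Lp2 D 1 N N N`, `qd N g = F - F ∘ ut γ`,
  `F = qd N f`, `γ ∈ O`).
-/

open RNK

namespace RNP

variable {D : OD}

theorem Lt_one (π : PD D) : Lt π 1 1 := by
  have h : π.r 1 ≠ 0 := by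
    rw [π.rone]
    exact one_ne_zero
  exact ⟨D.O.one_mem, D.O.one_mem, h, h⟩

theorem supp_one {f : Vec → ℂ} (h : ∀ w, f w ≠ 0 → O2 D w) : SuppIn D 1 1 f := by
  intro w hw
  exact ⟨w, h w hw, (one_act w).symm⟩

theorem K2_e2 : K2 D e2 := ⟨D.K.zero_mem, D.K.one_mem⟩

theorem T0_congr {e e' : PD D → ℂ} (h : ∃ P0 : ℕ, ∀ π : PD D, P0 < π.p → e π = e' π)
    (h' : Tends0 e') : Tends0 e := by
  intro ε hε
  obtain ⟨P0, h0⟩ := h
  obtain ⟨P1, h1⟩ := h' ε hε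
  refine ⟨max P0 P1, fun π hπ => ?_⟩
  rw [h0 π (lt_of_le_of_lt (le_max_left _ _) hπ)]
  exact h1 π (lt_of_le_of_lt (le_max_right _ _) hπ)

theorem T0_add {e e' : PD D → ℂ} (h : Tends0 e) (h' : Tends0 e') :
    Tends0 (fun π => e π + e' π) := by
  intro ε hε
  obtain ⟨P0, h0⟩ := h (ε / 2) (by linarith)
  obtain ⟨P1, h1⟩ := h' (ε / 2) (by linarith)
  refine ⟨max P0 P1, fun π hπ => ?_⟩
  have a0 := h0 π (lt_of_le_of_lt (le_max_left _ _) hπ)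
  have a1 := h1 π (lt_of_le_of_lt (le_max_right _ _) hπ)
  calc ‖e π + e' π‖ ≤ ‖e π‖ + ‖e' π‖ := norm_add_le _ _
    _ ≤ ε / 2 + ε / 2 := add_le_add a0 a1
    _ = ε := by ring

theorem T0_sum {ι : Type*} (s : Finset ι) {e : ι → PD D → ℂ} (h : ∀ i ∈ s, Tends0 (e i)) :
    Tends0 (fun π => ∑ i ∈ s, e i π) := by
  classical
  induction s using Finset.induction_on with
  | empty =>
    intro ε hε
    refine ⟨0, fun π _ => ?_⟩
    simpa using hε.le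
  | insert a s ha ih =>
    have e1 : (fun π => ∑ i ∈ insert a s, e i π) = fun π => e a π + ∑ i ∈ s, e i π := by
      funext π
      rw [Finset.sum_insert ha]
    rw [e1]
    exact T0_add (h a (Finset.mem_insert_self a s))
      (ih fun i hi => h i (Finset.mem_insert_of_mem hi))

theorem T0_smul (k : ℂ) {e : PD D → ℂ} (h : Tends0 e) : Tends0 (fun π => k * e π) := by
  intro ε hε
  have hk : 0 < ‖k‖ + 1 := by positivity
  obtain ⟨P0, h0⟩ := h (ε / (‖k‖ + 1)) (div_pos hε hk)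
  refine ⟨P0, fun π hπ => ?_⟩
  have h1 := h0 π hπ
  rw [norm_mul]
  calc ‖k‖ * ‖e π‖ ≤ (‖k‖ + 1) * (ε / (‖k‖ + 1)) :=
        mul_le_mul (by linarith) h1 (norm_nonneg _) hk.le
    _ = ε := by field_simp

/-! ### linearity -/

private theorem b_smul (S : Coc D) {κ : ℝ} (hκ : Kap D κ) (π : PD D) {α β : ℂ} (h1 : Lt π α β)
    {f : Vec → ℂ} (hf : AdmE D f) (hs : SuppIn D α β f) {k : ℂ} (hk : k ∈ D.K) {p : Vec}
    (hp : K2 D p) :
    E S κ π α β (fun w => k * f w) p = k * E S κ π α β f p := by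
  have hm : 0 < ‖α‖ / ‖β‖ :=
    div_pos (norm_pos_iff.2 (π.ne_of_r h1.ra)) (norm_pos_iff.2 (π.ne_of_r h1.rb))
  exact EG_smul S hκ π h1 (geo_Ah D hm) hf hs hk hp

private theorem b_sub (S : Coc D) {κ : ℝ} (hκ : Kap D κ) (π : PD D) {α β : ℂ} (h1 : Lt π α β)
    {f g : Vec → ℂ} (hf : AdmE D f) (hg : AdmE D g) (hs : SuppIn D α β f)
    (hs' : SuppIn D α β g) {p : Vec} (hp : K2 D p) :
    E S κ π α β (fun w => f w - g w) p = E S κ π α β f p - E S κ π α β g p := by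
  have hm1 : (-1 : ℂ) ∈ D.K := D.K.neg_mem D.K.one_mem
  have e1 : (fun w => f w - g w) = fun w => f w + (-1) * g w := by
    funext w
    ring
  rw [e1, E_add S hκ π h1 hf (AdmE_smul hm1 hg) hs ?_ hp, b_smul S hκ π h1 hg hs' hm1 hp]
  · ring
  · intro w hw
    exact hs' w (right_ne_zero_of_mul hw)

private theorem b_sum (S : Coc D) {κ : ℝ} (hκ : Kap D κ) (π : PD D) {α β : ℂ} (h1 : Lt π α β)
    {ι : Type*} (s : Finset ι) {F : ι → Vec → ℂ} (hF : ∀ i ∈ s, AdmE D (F i))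
    (hs : ∀ i ∈ s, SuppIn D α β (F i)) {p : Vec} (hp : K2 D p) :
    E S κ π α β (fun w => ∑ i ∈ s, F i w) p = ∑ i ∈ s, E S κ π α β (F i) p := by
  classical
  induction s using Finset.induction_on with
  | empty =>
    simp only [Finset.sum_empty]
    exact E_zero S π α β p hκ h1 hp
  | insert a s ha ih =>
    have e1 : (fun w => ∑ i ∈ insert a s, F i w) = fun w => F a w + ∑ i ∈ s, F i w := by
      funext w
      rw [Finset.sum_insert ha]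
    rw [e1, Finset.sum_insert ha,
      E_add S hκ π h1 (hF a (Finset.mem_insert_self a s))
        (AdmE_sum s fun i hi => hF i (Finset.mem_insert_of_mem hi))
        (hs a (Finset.mem_insert_self a s)) ?_ hp,
      ih (fun i hi => hF i (Finset.mem_insert_of_mem hi))
        (fun i hi => hs i (Finset.mem_insert_of_mem hi))]
    intro w hw
    obtain ⟨i, hi, hi'⟩ := Finset.exists_ne_zero_of_sum_ne_zero hw
    exact hs i (Finset.mem_insert_of_mem hi) w hi'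

/-- `Lt π 1 N` for large `π` -/
private theorem b_lt {N : ℕ} (hN : 0 < N) : ∃ P0 : ℕ, ∀ π : PD D, P0 < π.p → Lt π 1 (N : ℂ) :=
  Lt_large (D := D) D.O.one_mem (nat_O N) one_ne_zero (Nat.cast_ne_zero.2 hN.ne')

/-- additivity of `Es` -/
theorem Es_add (S : Coc D) {κ : ℝ} (hκ : Kap D κ) {N : ℕ} (hN : 0 < N) : ∃ P0 : ℕ,
    ∀ π : PD D, P0 < π.p → ∀ f g : Vec → ℂ, AdmE D f → AdmE D g →
    (∀ w, f w ≠ 0 → O2 D w) → (∀ w, g w ≠ 0 → O2 D w) →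
    Es S κ N π (fun w => f w + g w) = Es S κ N π f + Es S κ N π g := by
  have hN0 : (N : ℂ) ≠ 0 := Nat.cast_ne_zero.2 hN.ne'
  obtain ⟨P0, h0⟩ := b_lt (D := D) hN
  refine ⟨P0, fun π hπ f g hf hg hs hs' => ?_⟩
  exact E_add S hκ π (h0 π hπ) (qd_adm (nat_O N) hN0 hf) (qd_adm (nat_O N) hN0 hg)
    (qd_supp1 (nat_O N) hN0 hs) (qd_supp1 (nat_O N) hN0 hs') K2_e2

private theorem Es_sub (S : Coc D) {κ : ℝ} (hκ : Kap D κ) {N : ℕ} (hN : 0 < N) {π : PD D}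
    (hπ : Lt π 1 (N : ℂ)) {f g : Vec → ℂ} (hf : AdmE D f) (hg : AdmE D g)
    (hs : ∀ w, f w ≠ 0 → O2 D w) (hs' : ∀ w, g w ≠ 0 → O2 D w) :
    Es S κ N π (fun w => f w - g w) = Es S κ N π f - Es S κ N π g := by
  have hN0 : (N : ℂ) ≠ 0 := Nat.cast_ne_zero.2 hN.ne'
  exact b_sub S hκ π hπ (qd_adm (nat_O N) hN0 hf) (qd_adm (nat_O N) hN0 hg)
    (qd_supp1 (nat_O N) hN0 hs) (qd_supp1 (nat_O N) hN0 hs') K2_e2

private theorem Es_theta (S : Coc D) {κ : ℝ} (hκ : Kap D κ) {N : ℕ} (hN : 0 < N) {π : PD D}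
    (hπ : Lt π 1 (N : ℂ)) {V : Finset ℂ}
    (hV : ∀ v ∈ V, v ∈ D.K) {θ : Vec → ℂ} (hθ : Fn D N V θ)
    (ho : ∀ x y, θ (-x, y) = -θ (x, y)) : Es S κ N π θ = 0 := by
  have hN0 : (N : ℂ) ≠ 0 := Nat.cast_ne_zero.2 hN.ne'
  have hA := qd_adm (nat_O N) hN0 (Fn_AdmE hN hV hθ)
  have hs : SuppIn D 1 N (qd N θ) := qd_supp1 (nat_O N) hN0 hθ.supp
  have hm1 : (-1 : ℂ) ∈ D.K := D.K.neg_mem D.K.one_mem
  have h1 := E_neg S hκ π hπ hA hs (p := e2) K2_e2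
  have e3 : (dg (-1) 1).act e2 = e2 := by
    rw [dg_act]
    simp [e2]
  have e4 : (fun w => qd N θ ((dg (-1) 1).act w)) = fun w => (-1) * qd N θ w := by
    funext w
    unfold qd
    rw [dg_act, one_mul, neg_one_mul, neg_div, ho]
    ring
  rw [e3, e4, b_smul S hκ π hπ hA hs hm1 K2_e2] at h1
  unfold Es
  linear_combination (-1 / 2 : ℂ) * h1

theorem E_theta (S : Coc D) {κ : ℝ} (hκ : Kap D κ) {N : ℕ} (hN : 0 < N) {V : Finset ℂ}
    (hV : ∀ v ∈ V, v ∈ D.K) {θ : Vec → ℂ} (hθ : Fn D N V θ)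
    (ho : ∀ x y, θ (-x, y) = -θ (x, y)) : ∃ P0 : ℕ, ∀ π : PD D, P0 < π.p →
    Es S κ N π θ = 0 := by
  obtain ⟨P0, h0⟩ := b_lt (D := D) hN
  exact ⟨P0, fun π hπ => Es_theta S hκ hN (h0 π hπ) hV hθ ho⟩

private theorem E_rel (S : Coc D) {κ : ℝ} (hκ : Kap D κ) {N : ℕ} (hN : 0 < N) {V V' : Finset ℂ}
    (hV : ∀ v ∈ V, v ∈ D.K) (hV' : ∀ v ∈ V', v ∈ D.K) {J : ℕ} {q : Fin J → ℂ}
    (hq : ∀ j, q j ∈ D.O ∧ q j ≠ 0) {ψ : Fin J → Vec → ℂ} (hψ : ∀ j, Fn D N V (ψ j))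
    {θ : Vec → ℂ} (hθ : Fn D N V' θ) (ho : ∀ x y, θ (-x, y) = -θ (x, y)) {π : PD D}
    (hπ : Lt π 1 (N : ℂ)) :
    Es S κ N π (fun w => ∑ j, (Tq (q j) (ψ j) w - ψ j w) + θ w) =
      ∑ j, (Es S κ N π (Tq (q j) (ψ j)) - Es S κ N π (ψ j)) := by
  have hN0 : (N : ℂ) ≠ 0 := Nat.cast_ne_zero.2 hN.ne'
  have hA : ∀ j, AdmE D (ψ j) := fun j => Fn_AdmE hN hV (hψ j)
  have hT : ∀ j, AdmE D (Tq (q j) (ψ j)) := fun j => TqE (hA j) (hq j).1 (hq j).2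
  have hsT : ∀ j, ∀ w, Tq (q j) (ψ j) w ≠ 0 → O2 D w := fun j =>
    Tq_supp (hψ j).supp (hq j).1 (hq j).2
  have hm1 : (-1 : ℂ) ∈ D.K := D.K.neg_mem D.K.one_mem
  have hD : ∀ j, AdmE D (fun w => Tq (q j) (ψ j) w - ψ j w) := by
    intro j
    have := AdmE_add (hT j) (AdmE_smul hm1 (hA j))
    have e1 : (fun w => Tq (q j) (ψ j) w + (-1) * ψ j w) =
        fun w => Tq (q j) (ψ j) w - ψ j w := by
      funext w
      ring
    rwa [e1] at this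
  have hsD : ∀ j, ∀ w, Tq (q j) (ψ j) w - ψ j w ≠ 0 → O2 D w := by
    intro j w hw
    by_cases h : ψ j w = 0
    · refine hsT j w fun h' => hw ?_
      simp only [h, h', sub_zero]
    · exact (hψ j).supp w h
  have hA' := Fn_AdmE hN hV' hθ
  have h1 : Es S κ N π (fun w => ∑ j, (Tq (q j) (ψ j) w - ψ j w) + θ w) =
      Es S κ N π (fun w => ∑ j, (Tq (q j) (ψ j) w - ψ j w)) + Es S κ N π θ := by
    refine E_add S hκ π hπ
      (qd_adm (nat_O N) hN0 (AdmE_sum Finset.univ fun j _ => hD j)) (qd_adm (nat_O N) hN0 hA')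
      (qd_supp1 (nat_O N) hN0 ?_) (qd_supp1 (nat_O N) hN0 hθ.supp) K2_e2
    intro w hw
    obtain ⟨i, _, hi'⟩ := Finset.exists_ne_zero_of_sum_ne_zero hw
    exact hsD i w hi'
  rw [h1, Es_theta S hκ hN hπ hV' hθ ho, add_zero]
  have h2 : Es S κ N π (fun w => ∑ j, (Tq (q j) (ψ j) w - ψ j w)) =
      ∑ j, Es S κ N π (fun w => Tq (q j) (ψ j) w - ψ j w) :=
    b_sum S hκ π hπ Finset.univ (F := fun j => qd N (fun w => Tq (q j) (ψ j) w - ψ j w))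
      (fun j _ => qd_adm (nat_O N) hN0 (hD j)) (fun j _ => qd_supp1 (nat_O N) hN0 (hsD j)) K2_e2
  rw [h2]
  refine Finset.sum_congr rfl fun j _ => ?_
  exact Es_sub S hκ hN hπ (hT j) (hA j) (hsT j) (hψ j).supp

theorem E_bound (S : Coc D) {κ : ℝ} (hκ : Kap D κ) {N : ℕ} [NeZero N] (V : Finset ℂ)
    (hV : ∀ v ∈ V, v ∈ D.K) {J : ℕ} {q : Fin J → ℂ} (hq : ∀ j, q j ∈ D.O ∧ q j ≠ 0) :
    ∃ C : ℝ, 0 < C ∧ ∃ P0 : ℕ, ∀ g : Vec → ℂ, Gc D N V J q g → ∀ π : PD D, P0 < π.p →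
      ‖Es S κ N π g‖ ≤ C := by
  have hN : 0 < N := Nat.pos_of_ne_zero (NeZero.ne N)
  obtain ⟨Q0, hQ⟩ := b_lt (D := D) hN
  choose C P0 hC hb using fun j => bdS S hκ hN V hV (hq j).1 (hq j).2
  refine ⟨∑ j, C j + 1, ?_, Q0 + ∑ j, P0 j, ?_⟩
  · have : 0 ≤ ∑ j, C j := Finset.sum_nonneg fun j _ => (hC j).le
    linarith
  · intro g hg π hπ
    have hLt := hQ π (by omega)
    obtain ⟨ψ, θ, V'', hV'', hψ, hθ, _, ho, he⟩ := hg.rel
    have e1 : g = fun w => ∑ j, (Tq (q j) (ψ j) w - ψ j w) + θ w := funext he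
    rw [e1, E_rel S hκ hN hV hV'' hq hψ hθ ho hLt]
    have h1 : ‖∑ j, (Es S κ N π (Tq (q j) (ψ j)) - Es S κ N π (ψ j))‖ ≤ ∑ j, C j := by
      refine (norm_sum_le _ _).trans (Finset.sum_le_sum fun j _ => ?_)
      refine hb j π (lt_of_le_of_lt ?_ hπ) (ψ j) (hψ j)
      have := Finset.single_le_sum (f := P0) (fun i _ => Nat.zero_le _) (Finset.mem_univ j)
      omega
    linarith

theorem E_base (S : Coc D) {κ : ℝ} (hκ : Kap D κ) {N : ℕ} [NeZero N] {C : Finset ℂ}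
    (hC : Bp D N C) (V : Finset ℂ)
    (hV : ∀ v ∈ V, v ∈ D.K) {J : ℕ} {q : Fin J → ℂ} (hq : ∀ j, q j ∈ D.O ∧ q j ≠ 0)
    {g : Vec → ℂ} (hg : Gc D N V J q g)
    (hs : ∀ w, g w ≠ 0 → ∀ c ∈ C, ¬ ∃ z ∈ D.O, w.2 = c * z) :
    Tends0 (fun π : PD D => Es S κ N π g) := by
  have hN : 0 < N := Nat.pos_of_ne_zero (NeZero.ne N)
  obtain ⟨ψ, θ, V'', hV'', hψ, hθ, hc, hav, ho, he⟩ := Gc_cop hg (fun c h => (hC.mem c h).2.1) hs
  have e1 : g = fun w => ∑ j, (Tq (q j) (ψ j) w - ψ j w) + θ w := funext he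
  obtain ⟨Q0, hQ⟩ := b_lt (D := D) hN
  refine T0_congr (e' := fun π : PD D =>
      ∑ j, (Es S κ N π (Tq (q j) (ψ j)) - Es S κ N π (ψ j))) ⟨Q0, fun π hπ => ?_⟩ ?_
  · rw [e1, E_rel S hκ hN hV hV'' hq hψ hθ ho (hQ π hπ)]
  · refine T0_sum Finset.univ fun j _ =>
      avS S hκ V hV (hq j).1 (hq j).2 (hψ j) (fun w hw => ?_) (hav j)
    exact hC.base w.2 ((hψ j).supp w hw).2 (fun c hcC => hc j w hw c hcC)

/-! ### shifts -/

private theorem b_K {γ : ℂ} (h : γ ∈ D.O) : γ ∈ D.K := O_sub_K h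

/-- `|N|²` -/
private theorem b_nn (N : ℕ) : (N : ℂ) * (starRingEnd ℂ) (N : ℂ) = ((N * N : ℕ) : ℂ) := by
  rw [Complex.conj_natCast]
  push_cast
  rfl

/-- support of `qd N` of a function supported on `y` divisible by `c` -/
private theorem b_supp {N : ℕ} (hN : 0 < N) {c : ℂ} {f : Vec → ℂ}
    (hf : ∀ w, f w ≠ 0 → O2 D w ∧ ∃ z ∈ D.O, w.2 = c * z) : SuppIn D 1 (c * N) (qd N f) := by
  have hN0 : (N : ℂ) ≠ 0 := Nat.cast_ne_zero.2 hN.ne'
  intro w hw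
  obtain ⟨h1, z, hz, h2⟩ := hf _ hw
  refine ⟨(w.1, z), ⟨?_, hz⟩, ?_⟩
  · have h3 : w.1 = (N : ℂ) * (w.1 / N) := by field_simp
    change w.1 ∈ D.O
    rw [h3]
    exact D.O.mul_mem (nat_O N) h1.1
  · rw [dg_act]
    ext
    · simp
    · simp only at h2 ⊢
      have h4 : w.2 = (N : ℂ) * (w.2 / N) := by field_simp
      rw [h4, h2]
      ring

theorem E_step (S : Coc D) {κ : ℝ} (hκ : Kap D κ) {N : ℕ} [NeZero N] (V : Finset ℂ)
    {J : ℕ} {q : Fin J → ℂ} {g : Vec → ℂ} (hg : Gc D N V J q g) {c : ℂ} (hc : c ∈ D.O)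
    (h0 : c ≠ 0) (hd : ∃ z ∈ D.O, (N : ℂ) = c * z) :
    Tends0 (fun π : PD D => Es S κ N π (cutd D c g) -
      (((‖c‖ ^ 2 : ℝ) : ℂ) * c ^ 2)⁻¹ * Es S κ N π (dil D c g)) := by
  have hN : 0 < N := Nat.pos_of_ne_zero (NeZero.ne N)
  have hN0 : (N : ℂ) ≠ 0 := Nat.cast_ne_zero.2 hN.ne'
  obtain ⟨V1, hV1, hg1⟩ := Gc_Fn hg
  obtain ⟨V', hV', f, hf, γ, hγ, he⟩ := hg.shift
  have hcg : Fn D N V1 (cutd D c g) := Fn_cutd hg1 hc hd
  have hcf : Fn D N V' (cutd D c f) := Fn_cutd hf hc hd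
  have hcu : Fn D N V' (fun w => cutd D c f ((ut γ).act w)) := Fn_GO hcf (GO_ut hγ)
  have hAg : AdmE D (qd N (cutd D c g)) := qd_adm (nat_O N) hN0 (Fn_AdmE hN hV1 hcg)
  have hAf : AdmE D (qd N (cutd D c f)) := qd_adm (nat_O N) hN0 (Fn_AdmE hN hV' hcf)
  have hAu : AdmE D (qd N (fun w => cutd D c f ((ut γ).act w))) :=
    qd_adm (nat_O N) hN0 (Fn_AdmE hN hV' hcu)
  have dvd : ∀ (F : Vec → ℂ) (w : Vec), cutd D c F w ≠ 0 → ∃ z ∈ D.O, w.2 = c * z := by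
    intro F w hw
    unfold cutd at hw
    by_contra h
    rw [if_neg h] at hw
    exact hw rfl
  have hsg : SuppIn D 1 (c * N) (qd N (cutd D c g)) :=
    b_supp hN fun w hw => ⟨hcg.supp w hw, dvd g w hw⟩
  have hsf : SuppIn D 1 (c * N) (qd N (cutd D c f)) :=
    b_supp hN fun w hw => ⟨hcf.supp w hw, dvd f w hw⟩
  have hsu : SuppIn D 1 (c * N) (qd N (fun w => cutd D c f ((ut γ).act w))) := by
    refine b_supp hN fun w hw => ⟨hcu.supp w hw, ?_⟩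
    have := dvd f _ hw
    rwa [ut_act] at this
  have eg : qd N (cutd D c g) = fun w => qd N (cutd D c f) w - qd N (cutd D c f) ((ut γ).act w) := by
    funext w
    unfold qd cutd
    rw [ut_act]
    simp only
    split_ifs with h
    · rw [he, ut_act]
      simp only
      congr 2
      refine Prod.ext ?_ rfl
      simp only
      field_simp
    · simp
  have eu : (fun w => qd N (cutd D c f) ((ut γ).act w)) =
      qd N (fun w => cutd D c f ((ut γ).act w)) := by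
    funext w
    unfold qd
    rw [ut_act]
    simp only
    rw [ut_act]
    congr 1
    refine Prod.ext ?_ rfl
    simp only
    field_simp
  have hcN : c * N ∈ D.O := D.O.mul_mem hc (nat_O N)
  have hcN0 : c * (N : ℂ) ≠ 0 := mul_ne_zero h0 hN0
  have hL : Lp2 D 1 N 1 (c * N) :=
    ⟨D.O.one_mem, nat_O N, D.O.one_mem, hcN, one_ne_zero, hN0, one_ne_zero, hcN0,
      ⟨1, D.O.one_mem, by ring⟩, ⟨c, hc, by ring⟩, ⟨N, nat_O N, by ring⟩,
      ⟨c * N, hcN, by ring⟩⟩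
  have hFf : Fn D (N * (N * N)) V' (qd N (cutd D c f)) := qd_Fn (nat_O N) hN0 (b_nn N) hcf
  refine T0_congr ?_ (shiftU S hκ (by positivity) V' hV' hL (b_K hγ)
    ⟨γ * N, D.O.mul_mem hγ (nat_O N), by ring⟩ ⟨γ * (c * N), D.O.mul_mem hγ hcN, by ring⟩ hFf hsf)
  obtain ⟨P0, hP0⟩ := Lt_large (D := D) D.O.one_mem hcN one_ne_zero hcN0
  obtain ⟨P1, hP1⟩ := b_lt (D := D) hN
  refine ⟨P0 + P1, fun π hπ => ?_⟩
  have hLt := hP0 π (by omega)
  have hLt1 := hP1 π (by omega)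
  have hLc : Lt π 1 c := by
    refine ⟨D.O.one_mem, hc, by rw [π.rone]; exact one_ne_zero, fun h => ?_⟩
    have h3 := hLt.rb
    rw [π.rmul c hc _ (nat_O N), h, zero_mul] at h3
    exact h3 rfl
  -- the second term
  have hdg := E_dg S hκ π hLt1 hLc (f := qd N (cutd D c g)) hAg
    (by rw [mul_one]; exact hsg) (p := e2) K2_e2
  have ec : (dg 1 c).act e2 = c • e2 := by
    rw [dg_act]
    ext
    · simp [e2]
    · simp [e2]
  have ecg : (fun w => qd N (cutd D c g) ((dg 1 c).act w)) = qd N (dil D c g) := by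
    funext w
    unfold qd dil
    rw [dg_act, dg_act]
    congr 1
    refine Prod.ext ?_ ?_
    · simp
    · simp only
      ring
  rw [ecg, ec, one_mul, mul_one, E_hom S hκ π hLt hAg hsg (O_sub_K hc) K2_e2] at hdg
  have ed : Es S κ N π (dil D c g) =
      ((‖c‖ ^ 2 : ℝ) : ℂ) * (c ^ 2 * E S κ π 1 (c * N) (qd N (cutd D c g)) e2) := hdg
  have hnz : ((‖c‖ ^ 2 : ℝ) : ℂ) * c ^ 2 ≠ 0 := by
    refine mul_ne_zero ?_ (pow_ne_zero 2 h0)
    exact_mod_cast pow_ne_zero 2 (norm_ne_zero_iff.2 h0)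
  have ee : (((‖c‖ ^ 2 : ℝ) : ℂ) * c ^ 2)⁻¹ * Es S κ N π (dil D c g) =
      E S κ π 1 (c * N) (qd N (cutd D c g)) e2 := by
    rw [ed, ← mul_assoc ((‖c‖ ^ 2 : ℝ) : ℂ), ← mul_assoc, inv_mul_cancel₀ hnz, one_mul]
  rw [ee]
  -- additivity
  have s1 : SuppIn D 1 N (qd N (cutd D c f)) := DqSx.supp1 hL hsf
  have s2 : SuppIn D 1 N (qd N (fun w => cutd D c f ((ut γ).act w))) := DqSx.supp1 hL hsu
  have a1 : Es S κ N π (cutd D c g) = E S κ π 1 N (qd N (cutd D c f)) e2 -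
      E S κ π 1 N (fun w => qd N (cutd D c f) ((ut γ).act w)) e2 := by
    unfold Es
    rw [eg, eu]
    have := b_sub S hκ π hLt1 hAf hAu s1 s2 K2_e2
    rw [← this, ← eu]
  have a2 : E S κ π 1 (c * N) (qd N (cutd D c g)) e2 = E S κ π 1 (c * N) (qd N (cutd D c f)) e2 -
      E S κ π 1 (c * N) (fun w => qd N (cutd D c f) ((ut γ).act w)) e2 := by
    rw [eg, eu]
    have := b_sub S hκ π hLt hAf hAu hsf hsu K2_e2
    rw [← this, ← eu]
  rw [a1, a2]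
  unfold DE
  ring

theorem E_start (S : Coc D) {κ : ℝ} (hκ : Kap D κ) {N : ℕ} [NeZero N] (V : Finset ℂ)
    {J : ℕ} {q : Fin J → ℂ} {g : Vec → ℂ} (hg : Gc D N V J q g) :
    Tends0 (fun π : PD D => E S κ π 1 1 g e2 - (N : ℂ) ^ 6 * Es S κ N π g) := by
  have hN : 0 < N := Nat.pos_of_ne_zero (NeZero.ne N)
  have hN0 : (N : ℂ) ≠ 0 := Nat.cast_ne_zero.2 hN.ne'
  obtain ⟨V1, hV1, hg1⟩ := Gc_Fn hg
  obtain ⟨V', hV', f, hf, γ, hγ, he⟩ := hg.shift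
  have hfu : Fn D N V' (fun w => f ((ut γ).act w)) := Fn_GO hf (GO_ut hγ)
  have hAg : AdmE D (qd N g) := qd_adm (nat_O N) hN0 (Fn_AdmE hN hV1 hg1)
  have hAf : AdmE D (qd N f) := qd_adm (nat_O N) hN0 (Fn_AdmE hN hV' hf)
  have hAu : AdmE D (qd N (fun w => f ((ut γ).act w))) :=
    qd_adm (nat_O N) hN0 (Fn_AdmE hN hV' hfu)
  have hsg : SuppIn D N N (qd N g) := qd_supp hN0 hg1.supp
  have hsf : SuppIn D N N (qd N f) := qd_supp hN0 hf.supp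
  have hsu : SuppIn D N N (qd N (fun w => f ((ut γ).act w))) := qd_supp hN0 hfu.supp
  have eg : qd N g = fun w => qd N f w - qd N f ((ut γ).act w) := by
    funext w
    unfold qd
    rw [he, ut_act, ut_act]
    congr 2
    refine Prod.ext ?_ rfl
    simp only
    field_simp
  have eu : (fun w => qd N f ((ut γ).act w)) = qd N (fun w => f ((ut γ).act w)) := by
    funext w
    unfold qd
    rw [ut_act]
    simp only
    rw [ut_act]
    congr 1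
    refine Prod.ext ?_ rfl
    simp only
    field_simp
  have hL : Lp2 D 1 N N N :=
    ⟨D.O.one_mem, nat_O N, nat_O N, nat_O N, one_ne_zero, hN0, hN0, hN0,
      ⟨N, nat_O N, by ring⟩, ⟨1, D.O.one_mem, by ring⟩, ⟨N, nat_O N, by ring⟩,
      ⟨1, D.O.one_mem, by ring⟩⟩
  have hFf : Fn D (N * (N * N)) V' (qd N f) := qd_Fn (nat_O N) hN0 (b_nn N) hf
  have key := shiftU S hκ (M := N * (N * N)) (by positivity) V' hV' hL (b_K hγ)
    ⟨γ * N, D.O.mul_mem hγ (nat_O N), by ring⟩ ⟨γ, hγ, by ring⟩ hFf hsf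
  refine T0_congr ?_ (T0_smul (-(N : ℂ) ^ 6) key)
  obtain ⟨P0, hP0⟩ := Lt_large (D := D) (nat_O N) (nat_O N) hN0 hN0
  obtain ⟨P1, hP1⟩ := b_lt (D := D) hN
  refine ⟨P0 + P1, fun π hπ => ?_⟩
  have hLN := hP0 π (by omega)
  have hLt1 := hP1 π (by omega)
  have hdg := E_dg S hκ π (Lt_one π) hLN (f := qd N g) hAg
    (by rw [mul_one]; exact hsg) (p := e2) K2_e2
  have ec : (dg N N).act e2 = (N : ℂ) • e2 := by
    rw [dg_act]
    ext
    · simp [e2]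
    · simp [e2]
  have ecg : (fun w => qd N g ((dg N N).act w)) = g := by
    funext w
    unfold qd
    rw [dg_act]
    congr 1
    refine Prod.ext ?_ ?_
    · simp only
      field_simp
    · simp only
      field_simp
  rw [ecg, ec, mul_one, E_hom S hκ π hLN hAg hsg (O_sub_K (nat_O N)) K2_e2] at hdg
  have hnorm : ((‖(N : ℂ) * N‖ ^ 2 : ℝ) : ℂ) = (N : ℂ) ^ 4 := by
    rw [norm_mul, Complex.norm_natCast]
    push_cast
    ring
  rw [hnorm] at hdg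
  have s1 : SuppIn D 1 N (qd N f) := DqSx.supp1 hL hsf
  have s2 : SuppIn D 1 N (qd N (fun w => f ((ut γ).act w))) := DqSx.supp1 hL hsu
  have a1 : Es S κ N π g = E S κ π 1 N (qd N f) e2 -
      E S κ π 1 N (fun w => qd N f ((ut γ).act w)) e2 := by
    unfold Es
    rw [eg, eu]
    have := b_sub S hκ π hLt1 hAf hAu s1 s2 K2_e2
    rw [← this, ← eu]
  have a2 : E S κ π N N (qd N g) e2 = E S κ π N N (qd N f) e2 -
      E S κ π N N (fun w => qd N f ((ut γ).act w)) e2 := by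
    rw [eg, eu]
    have := b_sub S hκ π hLN hAf hAu hsf hsu K2_e2
    rw [← this, ← eu]
  rw [hdg, a1, a2]
  unfold DE
  ring

end RNP
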