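import Pool.Agent.RNP.Av

/-!
# RNP.InC: the class of closed functions

`Gc D N V J q g`: `g = f - f ∘ ut γ` for some `f ∈ Fn D N V'`, `γ ∈ O`, and
`g = Σ_j (T_{q_j} ψ_j - ψ_j) + θ`, `ψ_j ∈ Fn D N V` with `Σ_x ψ_j (x, y) = 0`, `θ ∈ Fn D N V''` odd in `x`.
Closure under `cutn`, `cutd`, `dil` for `c ∈ O` dividing `N`: as in `RNK/InC`. The cut `cutc D C f` by the condition: no
`c ∈ C` divides `y` (it only depends on `y` mod `N` if all `c ∈ C` divide `N`) replaces the cut by `Cop D y N`.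
-/

open RNK

namespace RNP

variable {D : OD}

/-- the class of functions `g` -/
structure Gc (D : OD) (N : ℕ) [NeZero N] (V : Finset ℂ) (J : ℕ) (q : Fin J → ℂ)
    (g : Vec → ℂ) : Prop where
  shift : ∃ V' : Finset ℂ, (∀ v ∈ V', v ∈ D.K) ∧ ∃ f, Fn D N V' f ∧ ∃ γ ∈ D.O,
    ∀ w, g w = f w - f ((ut γ).act w)
  rel : ∃ ψ : Fin J → Vec → ℂ, ∃ θ : Vec → ℂ, ∃ V'' : Finset ℂ, (∀ v ∈ V'', v ∈ D.K) ∧
    (∀ j, Fn D N V (ψ j)) ∧ Fn D N V'' θ ∧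
    (∀ j, ∀ y ∈ D.O,
      ∑ k : ZMod N × ZMod N, ψ j (UNI.xx D.a ((k.1.val : ℤ), (k.2.val : ℤ)), y) = 0) ∧
    (∀ x y, θ (-x, y) = -θ (x, y)) ∧
    ∀ w, g w = ∑ j, (Tq (q j) (ψ j) w - ψ j w) + θ w

open Classical in
/-- `f` on the vectors with `y` not divisible by the elements of `C` -/
noncomputable def cutc (D : OD) (C : Finset ℂ) (f : Vec → ℂ) (w : Vec) : ℂ :=
  if (∀ c ∈ C, ¬ ∃ z ∈ D.O, w.2 = c * z) then f w else 0

/-! ### cutting by a condition on `y` -/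

private structure IsCut (P : ℂ → Prop) (C : (Vec → ℂ) → Vec → ℂ) : Prop where
  pos : ∀ f w, P w.2 → C f w = f w
  neg : ∀ f w, ¬ P w.2 → C f w = 0

private theorem isCut_cutd (D : OD) (c : ℂ) :
    IsCut (fun y => ∃ z ∈ D.O, y = c * z) (cutd D c) := by
  classical
  refine ⟨fun f w h => ?_, fun f w h => ?_⟩
  · unfold cutd
    exact if_pos h
  · unfold cutd
    exact if_neg h

private theorem isCut_cutn (D : OD) (c : ℂ) :
    IsCut (fun y => ¬ ∃ z ∈ D.O, y = c * z) (cutn D c) := by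
  classical
  refine ⟨fun f w h => ?_, fun f w h => ?_⟩
  · unfold cutn
    exact if_neg h
  · unfold cutn
    exact if_pos (not_not.1 h)

private theorem isCut_cutc (D : OD) (C : Finset ℂ) :
    IsCut (fun y => ∀ c ∈ C, ¬ ∃ z ∈ D.O, y = c * z) (cutc D C) := by
  classical
  refine ⟨fun f w h => ?_, fun f w h => ?_⟩
  · unfold cutc
    exact if_pos h
  · unfold cutc
    exact if_neg h

private theorem cut_shift {P : ℂ → Prop} {C : (Vec → ℂ) → Vec → ℂ} (hC : IsCut P C)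
    {f g : Vec → ℂ} {γ : ℂ} (h : ∀ w, g w = f w - f ((ut γ).act w)) (w : Vec) :
    C g w = C f w - C f ((ut γ).act w) := by
  have e : ((ut γ).act w).2 = w.2 := by rw [ut_act]
  by_cases hP : P w.2
  · have hP' : P ((ut γ).act w).2 := by rw [e]; exact hP
    rw [hC.pos _ _ hP, hC.pos _ _ hP, hC.pos _ _ hP', h]
  · have hP' : ¬ P ((ut γ).act w).2 := by rw [e]; exact hP
    rw [hC.neg _ _ hP, hC.neg _ _ hP, hC.neg _ _ hP', sub_zero]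

private theorem cut_Tq {P : ℂ → Prop} {C : (Vec → ℂ) → Vec → ℂ} (hC : IsCut P C)
    (q : ℂ) (ψ : Vec → ℂ) (w : Vec) : Tq q (C ψ) w = C (Tq q ψ) w := by
  by_cases hP : P w.2
  · rw [hC.pos _ _ hP]
    unfold Tq
    rw [hC.pos ψ (w.1 / q, w.2) hP]
  · rw [hC.neg _ _ hP]
    unfold Tq
    rw [hC.neg ψ (w.1 / q, w.2) hP, mul_zero]

private theorem cut_rel {P : ℂ → Prop} {C : (Vec → ℂ) → Vec → ℂ} (hC : IsCut P C)
    {J : ℕ} {q : Fin J → ℂ} {ψ : Fin J → Vec → ℂ} {θ g : Vec → ℂ}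
    (h : ∀ w, g w = ∑ j, (Tq (q j) (ψ j) w - ψ j w) + θ w) (w : Vec) :
    C g w = ∑ j, (Tq (q j) (C (ψ j)) w - C (ψ j) w) + C θ w := by
  by_cases hP : P w.2
  · rw [hC.pos _ _ hP, hC.pos _ _ hP, h]
    congr 1
    refine Finset.sum_congr rfl fun j _ => ?_
    rw [cut_Tq hC, hC.pos _ _ hP, hC.pos _ _ hP]
  · rw [hC.neg _ _ hP, hC.neg _ _ hP, add_zero]
    symm
    refine Finset.sum_eq_zero fun j _ => ?_
    rw [cut_Tq hC, hC.neg _ _ hP, hC.neg _ _ hP, sub_zero]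

private theorem cut_avg {P : ℂ → Prop} {C : (Vec → ℂ) → Vec → ℂ} (hC : IsCut P C)
    {ι : Type*} (s : Finset ι) (F : ι → ℂ) {ψ : Vec → ℂ} {y : ℂ}
    (h : ∑ k ∈ s, ψ (F k, y) = 0) : ∑ k ∈ s, C ψ (F k, y) = 0 := by
  by_cases hP : P y
  · rw [← h]
    exact Finset.sum_congr rfl fun k _ => hC.pos ψ (F k, y) hP
  · exact Finset.sum_eq_zero fun k _ => hC.neg ψ (F k, y) hP

private theorem cut_odd {P : ℂ → Prop} {C : (Vec → ℂ) → Vec → ℂ} (hC : IsCut P C)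
    {θ : Vec → ℂ} (h : ∀ x y, θ (-x, y) = -θ (x, y)) (x y : ℂ) :
    C θ (-x, y) = -C θ (x, y) := by
  by_cases hP : P y
  · rw [hC.pos θ (-x, y) hP, hC.pos θ (x, y) hP, h]
  · rw [hC.neg θ (-x, y) hP, hC.neg θ (x, y) hP, neg_zero]

private theorem cut_Gc {N : ℕ} [NeZero N] {V : Finset ℂ} {J : ℕ} {q : Fin J → ℂ}
    {g : Vec → ℂ} (hg : Gc D N V J q g) {P : ℂ → Prop} {C : (Vec → ℂ) → Vec → ℂ}
    (hC : IsCut P C) (hF : ∀ (W : Finset ℂ) (f : Vec → ℂ), Fn D N W f → Fn D N W (C f)) :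
    Gc D N V J q (C g) := by
  obtain ⟨⟨V', hV', f, hf, γ, hγ, h⟩, ψ, θ, V'', hV'', h1, h2, h3, h4, h5⟩ := hg
  refine ⟨⟨V', hV', C f, hF _ _ hf, γ, hγ, cut_shift hC h⟩, fun j => C (ψ j), C θ, V'', hV'',
    fun j => hF _ _ (h1 j), hF _ _ h2, fun j y hy => ?_, cut_odd hC h4, cut_rel hC h5⟩
  exact cut_avg hC Finset.univ
    (fun k : ZMod N × ZMod N => UNI.xx D.a ((k.1.val : ℤ), (k.2.val : ℤ))) (h3 j y hy)

/-! ### the theorems -/

private theorem inc_per {N : ℕ} {C : Finset ℂ} (hC : ∀ c ∈ C, ∃ z ∈ D.O, (N : ℂ) = c * z)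
    {y v : ℂ} (hv : v ∈ D.O) (h : ∀ c ∈ C, ¬ ∃ z ∈ D.O, y = c * z) :
    ∀ c ∈ C, ¬ ∃ z ∈ D.O, y + N * v = c * z := by
  rintro c hc ⟨z, hz, e⟩
  obtain ⟨n, hn, en⟩ := hC c hc
  exact h c hc ⟨z - n * v, D.O.sub_mem hz (D.O.mul_mem hn hv), by
    linear_combination e - v * en⟩

private theorem inc_per' {N : ℕ} {C : Finset ℂ} (hC : ∀ c ∈ C, ∃ z ∈ D.O, (N : ℂ) = c * z)
    {y v : ℂ} (hv : v ∈ D.O) (h : ∀ c ∈ C, ¬ ∃ z ∈ D.O, y + N * v = c * z) :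
    ∀ c ∈ C, ¬ ∃ z ∈ D.O, y = c * z := by
  have h1 := inc_per hC (D.O.neg_mem hv) h
  have e : y + N * v + N * -v = y := by ring
  rwa [e] at h1

theorem Fn_cutc {N : ℕ} {V : Finset ℂ} {f : Vec → ℂ} (hf : Fn D N V f) {C : Finset ℂ}
    (hC : ∀ c ∈ C, ∃ z ∈ D.O, (N : ℂ) = c * z) : Fn D N V (cutc D C f) := by
  have hK := isCut_cutc D C
  have key : ∀ w, cutc D C f w ≠ 0 → cutc D C f w = f w := by
    intro w h
    by_cases h1 : ∀ c ∈ C, ¬ ∃ z ∈ D.O, w.2 = c * z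
    · exact hK.pos f w h1
    · exact absurd (hK.neg f w h1) h
  refine ⟨fun w h => ?_, fun w h => ?_, fun w v hv => ?_⟩
  · have e := key w h
    rw [e] at h ⊢
    exact hf.val w h
  · have e := key w h
    rw [e] at h
    exact hf.supp w h
  · have e : (w + (N : ℂ) • v).2 = w.2 + N * v.2 := rfl
    by_cases h1 : ∀ c ∈ C, ¬ ∃ z ∈ D.O, w.2 = c * z
    · have h2 : ∀ c ∈ C, ¬ ∃ z ∈ D.O, (w + (N : ℂ) • v).2 = c * z := by
        rw [e]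
        exact inc_per hC hv.2 h1
      rw [hK.pos _ _ h1, hK.pos _ _ h2, hf.per w v hv]
    · have h2 : ¬ ∀ c ∈ C, ¬ ∃ z ∈ D.O, (w + (N : ℂ) • v).2 = c * z := fun h => h1 (by
        rw [e] at h
        exact inc_per' hC hv.2 h)
      rw [hK.neg _ _ h1, hK.neg _ _ h2]

theorem Gc_Fn {N : ℕ} [NeZero N] {V : Finset ℂ} {J : ℕ} {q : Fin J → ℂ} {g : Vec → ℂ}
    (hg : Gc D N V J q g) : ∃ V' : Finset ℂ, (∀ v ∈ V', v ∈ D.K) ∧ Fn D N V' g := by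
  classical
  obtain ⟨V', hV', f, hf, γ, hγ, h⟩ := hg.shift
  have hu : Fn D N V' (fun w => f ((ut γ).act w)) := Fn_GO hf (GO_ut hγ)
  set W : Finset ℂ := insert 0 V' with hW
  have hWK : ∀ v ∈ W, v ∈ D.K := by
    intro v hv
    rw [hW, Finset.mem_insert] at hv
    rcases hv with rfl | hv
    · exact D.K.zero_mem
    · exact hV' v hv
  have hfW : ∀ w, f w ∈ W := by
    intro w
    by_cases h0 : f w = 0
    · rw [h0, hW]
      exact Finset.mem_insert_self _ _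
    · rw [hW]
      exact Finset.mem_insert_of_mem (hf.val w h0)
  refine ⟨(W ×ˢ W).image fun x => x.1 - x.2, ?_, ?_, ?_, ?_⟩
  · intro v hv
    obtain ⟨x, hx, rfl⟩ := Finset.mem_image.1 hv
    rw [Finset.mem_product] at hx
    exact D.K.sub_mem (hWK _ hx.1) (hWK _ hx.2)
  · intro w _
    rw [h]
    exact Finset.mem_image.2 ⟨(f w, f ((ut γ).act w)),
      Finset.mem_product.2 ⟨hfW _, hfW _⟩, rfl⟩
  · intro w hw
    by_cases h0 : f w = 0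
    · refine hu.supp w fun h1 => hw ?_
      rw [h, h0, h1, sub_zero]
    · exact hf.supp w h0
  · intro w v hv
    have e := hu.per w v hv
    rw [h, h, hf.per w v hv]
    exact congrArg (fun z => f w - z) e

theorem Gc_cutn {N : ℕ} [NeZero N] {V : Finset ℂ} {J : ℕ} {q : Fin J → ℂ} {g : Vec → ℂ}
    (hg : Gc D N V J q g) {c : ℂ} (hc : c ∈ D.O) (h0 : c ≠ 0)
    (hd : ∃ z ∈ D.O, (N : ℂ) = c * z) : Gc D N V J q (cutn D c g) :=
  cut_Gc hg (isCut_cutn D c) fun _ _ hf => Fn_cutn hf hc hd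

theorem Gc_cutd {N : ℕ} [NeZero N] {V : Finset ℂ} {J : ℕ} {q : Fin J → ℂ} {g : Vec → ℂ}
    (hg : Gc D N V J q g) {c : ℂ} (hc : c ∈ D.O) (h0 : c ≠ 0)
    (hd : ∃ z ∈ D.O, (N : ℂ) = c * z) : Gc D N V J q (cutd D c g) :=
  cut_Gc hg (isCut_cutd D c) fun _ _ hf => Fn_cutd hf hc hd

theorem Gc_dil {N : ℕ} [NeZero N] {V : Finset ℂ} {J : ℕ} {q : Fin J → ℂ} {g : Vec → ℂ}
    (hg : Gc D N V J q g) {c : ℂ} (hc : c ∈ D.O) (h0 : c ≠ 0)
    (hd : ∃ z ∈ D.O, (N : ℂ) = c * z) : Gc D N V J q (dil D c g) := by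
  have hC := isCut_cutd D c
  obtain ⟨⟨V', hV', f, hf, γ, hγ, h⟩, ψ, θ, V'', hV'', h1, h2, h3, h4, h5⟩ := hg
  refine ⟨⟨V', hV', dil D c f, Fn_dil hf hc h0 hd, γ * c, D.O.mul_mem hγ hc, fun w => ?_⟩,
    fun j => dil D c (ψ j), dil D c θ, V'', hV'', fun j => Fn_dil (h1 j) hc h0 hd,
    Fn_dil h2 hc h0 hd, fun j y hy => ?_, fun x y => ?_, fun w => ?_⟩
  · have e := cut_shift hC h ((dg 1 c).act w)
    have e' : (ut γ).act ((dg 1 c).act w) = (dg 1 c).act ((ut (γ * c)).act w) := by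
      rw [dg_act, ut_act, ut_act, dg_act]
      ext
      · show 1 * w.1 + γ * (c * w.2) = 1 * (w.1 + γ * c * w.2)
        ring
      · rfl
    rw [e'] at e
    exact e
  · have e := cut_avg hC Finset.univ
      (fun k : ZMod N × ZMod N => UNI.xx D.a ((k.1.val : ℤ), (k.2.val : ℤ)))
      (h3 j (c * y) (D.O.mul_mem hc hy))
    rw [← e]
    refine Finset.sum_congr rfl fun k _ => ?_
    show cutd D c (ψ j) ((dg 1 c).act (UNI.xx D.a ((k.1.val : ℤ), (k.2.val : ℤ)), y)) = _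
    rw [dg_act]
    simp only [one_mul]
  · show cutd D c θ ((dg 1 c).act (-x, y)) = -cutd D c θ ((dg 1 c).act (x, y))
    rw [dg_act, dg_act]
    simp only [one_mul]
    exact cut_odd hC h4 x (c * y)
  · have e := cut_rel hC h5 ((dg 1 c).act w)
    show cutd D c g ((dg 1 c).act w) = _
    rw [e]
    congr 1
    refine Finset.sum_congr rfl fun j _ => ?_
    congr 1
    unfold Tq
    show _ = ((‖q j‖ ^ 2 : ℝ) : ℂ) * cutd D c (ψ j) ((dg 1 c).act (w.1 / q j, w.2))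
    rw [dg_act, dg_act]
    simp only [one_mul]

/-- the relation of a function supported on `y` not divisible by the elements of `C` can be
written with `ψ_j` supported there -/
theorem Gc_cop {N : ℕ} [NeZero N] {V : Finset ℂ} {J : ℕ} {q : Fin J → ℂ} {g : Vec → ℂ}
    (hg : Gc D N V J q g) {C : Finset ℂ} (hC : ∀ c ∈ C, ∃ z ∈ D.O, (N : ℂ) = c * z)
    (hs : ∀ w, g w ≠ 0 → ∀ c ∈ C, ¬ ∃ z ∈ D.O, w.2 = c * z) :
    ∃ ψ : Fin J → Vec → ℂ, ∃ θ : Vec → ℂ, ∃ V'' : Finset ℂ, (∀ v ∈ V'', v ∈ D.K) ∧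
    (∀ j, Fn D N V (ψ j)) ∧ Fn D N V'' θ ∧
    (∀ j w, ψ j w ≠ 0 → ∀ c ∈ C, ¬ ∃ z ∈ D.O, w.2 = c * z) ∧
    (∀ j, ∀ y ∈ D.O,
      ∑ k : ZMod N × ZMod N, ψ j (UNI.xx D.a ((k.1.val : ℤ), (k.2.val : ℤ)), y) = 0) ∧
    (∀ x y, θ (-x, y) = -θ (x, y)) ∧
    ∀ w, g w = ∑ j, (Tq (q j) (ψ j) w - ψ j w) + θ w := by
  have hK := isCut_cutc D C
  obtain ⟨-, ψ, θ, V'', hV'', h1, h2, h3, h4, h5⟩ := hg
  refine ⟨fun j => cutc D C (ψ j), cutc D C θ, V'', hV'', fun j => Fn_cutc (h1 j) hC,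
    Fn_cutc h2 hC, fun j w hw => ?_, fun j y hy => ?_, cut_odd hK h4, fun w => ?_⟩
  · by_contra hn
    exact hw (hK.neg _ _ hn)
  · exact cut_avg hK Finset.univ
      (fun k : ZMod N × ZMod N => UNI.xx D.a ((k.1.val : ℤ), (k.2.val : ℤ))) (h3 j y hy)
  · rw [← cut_rel hK h5 w]
    by_cases hP : ∀ c ∈ C, ¬ ∃ z ∈ D.O, w.2 = c * z
    · rw [hK.pos _ _ hP]
    · rw [hK.neg _ _ hP]
      by_contra hn
      exact hP (hs w hn)

end RNP
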