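import Pool.Agent.RNP.Bas
import Pool.Agent.RNK.Kn

/-!
# RNP.Kn: the kernel has values in `K` at points of `K²`
-/

open RNK

namespace RNP

theorem KG_K {D : OD} {c1 c2 c3 p w : Vec} (h1 : K2 D c1) (h2 : K2 D c2) (h3 : K2 D c3)
    (hp : K2 D p) (hw : K2 D w) : KG c1 c2 c3 p w ∈ D.K := by
  have hd : ∀ u v : Vec, K2 D u → K2 D v → det2 u v ∈ D.K := fun u v hu hv =>
    D.K.sub_mem (D.K.mul_mem hu.1 hv.2) (D.K.mul_mem hu.2 hv.1)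
  have l1 := hd c1 w h1 hw
  have l2 := hd c2 w h2 hw
  have l3 := hd c3 w h3 hw
  have r1 := D.K.div_mem (hd c1 p h1 hp) l1
  have r2 := D.K.div_mem (hd c2 p h2 hp) l2
  have r3 := D.K.div_mem (hd c3 p h3 hp) l3
  have hA := D.K.mul_mem (hd c2 c3 h2 h3) l1
  have hB := D.K.mul_mem (hd c3 c1 h3 h1) l2
  simp only [KG]
  refine D.K.mul_mem (D.K.div_mem ?_ ?_) ?_
  · exact D.K.sub_mem (D.K.mul_mem (cj_K hA) hB) (D.K.mul_mem hA (cj_K hB))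
  · exact D.K.mul_mem (D.K.mul_mem (D.K.mul_mem l1 (cj_K l1)) (D.K.mul_mem l2 (cj_K l2)))
      (D.K.mul_mem l3 (cj_K l3))
  · exact D.K.add_mem (D.K.add_mem (D.K.add_mem (D.K.add_mem (D.K.add_mem (pow_mem r1 2)
      (pow_mem r2 2)) (pow_mem r3 2)) (D.K.mul_mem r1 r2)) (D.K.mul_mem r1 r3))
      (D.K.mul_mem r2 r3)

end RNP
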