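import Pool.Agent.RNP.LoA

/-!
# RNP.Lo: the local bound

`Loc D B A κ' x`: some multiple of `x` (by an element of `K`, not `0`) is a vector `B u` of the lattice
`B O²` with `|A B u|² ≤ κ' |det (A B)|`.

`local_bound`: general `B`: by `scal` (and `a12`, `a23`) replace `x, y, z` by `B u, B v, B w`;
`equiv` for `B`: `s f (B u) (B v) (B w) p = |det B|⁻² s (f ∘ B) u v w (B⁻¹ p)`, then `local_core` with
`C = A B`, `C (B⁻¹ p) = A p`, `|det C| = |det A| |det B|`: total factor `|det B|⁻³ nq (A p) / |det A|`.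
-/

open RNK

namespace RNP
/-- `x` is local for the lattice `B O²` at the point `A` -/
def Loc (D : OD) (B A : Mat) (κ' : ℝ) (x : Vec) : Prop :=
  ∃ k ∈ D.K, k ≠ 0 ∧ ∃ u, O2 D u ∧ u ≠ 0 ∧ k • x = B.act u ∧
    nq (A.act (B.act u)) ≤ κ' * ‖(A.mul B).det‖

variable {D : OD}

theorem local_bound (S : Coc D) {M : ℕ} (hM : 0 < M) (V : Finset ℂ) (hV : ∀ v ∈ V, v ∈ D.K)
    (κ' : ℝ) : ∃ K0 : ℝ, 0 < K0 ∧ ∀ (f : Vec → ℂ) (B A : Mat), GK D B → A.det ≠ 0 →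
    AdmE D f → Fn D M V (fun w => f (B.act w)) →
    ∀ x y z, Cu D x → Cu D y → Cu D z → Loc D B A κ' x → Loc D B A κ' y → Loc D B A κ' z →
    ∀ p q, K2 D p → K2 D q →
      ‖S.s f x y z p‖ ≤ K0 * ((‖B.det‖ ^ 3)⁻¹ * (nq (A.act p) / ‖A.det‖)) ∧
      ‖S.s f x y z (p + q) - S.s f x y z p - S.s f x y z q‖ ≤
        K0 * ((‖B.det‖ ^ 3)⁻¹ * (√(nq (A.act p)) * √(nq (A.act q)) / ‖A.det‖)) := by
  obtain ⟨K0, hK0, hcore⟩ := local_core S hM V hV κ'
  refine ⟨K0, hK0, ?_⟩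
  intro f B A hB hA hfE hF x y z hx hy hz hlx hly hlz p q hp hq
  obtain ⟨kx, hkx, hkx0, u, hu, hu0, ex, bx⟩ := hlx
  obtain ⟨ky, hky, hky0, v, hv, hv0, ey, by'⟩ := hly
  obtain ⟨kz, hkz, hkz0, w, hw, hw0, ez, bz⟩ := hlz
  have hB0 : B.det ≠ 0 := hB.2
  have hdB : 0 < ‖B.det‖ := norm_pos_iff.2 hB0
  have hdA : 0 < ‖A.det‖ := norm_pos_iff.2 hA
  have hCdet : (A.mul B).det = A.det * B.det := det_mul A B
  have hC0 : (A.mul B).det ≠ 0 := by rw [hCdet]; exact mul_ne_zero hA hB0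
  have huC : Cu D u := ⟨O2_K2 hu, hu0⟩
  have hvC : Cu D v := ⟨O2_K2 hv, hv0⟩
  have hwC : Cu D w := ⟨O2_K2 hw, hw0⟩
  -- scaling in the second and in the third place
  have sc2 : ∀ k ∈ D.K, k ≠ 0 → ∀ a b c r, Cu D a → Cu D b → Cu D c → K2 D r →
      S.s f a (k • b) c r = S.s f a b c r := by
    intro k hk hk0 a b c r ha hb hc hr
    have h1 := S.a12 f hfE a (k • b) c r ha (Cu_smul hk hk0 hb) hc hr
    have h2 := S.scal f hfE k hk hk0 b a c r hb ha hc hr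
    have h3 := S.a12 f hfE a b c r ha hb hc hr
    linear_combination h1 - h2 - h3
  have sc3 : ∀ k ∈ D.K, k ≠ 0 → ∀ a b c r, Cu D a → Cu D b → Cu D c → K2 D r →
      S.s f a b (k • c) r = S.s f a b c r := by
    intro k hk hk0 a b c r ha hb hc hr
    have h1 := S.a23 f hfE a b (k • c) r ha hb (Cu_smul hk hk0 hc) hr
    have h2 := sc2 k hk hk0 a c b r ha hc hb hr
    have h3 := S.a23 f hfE a b c r ha hb hc hr
    linear_combination h1 - h2 - h3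
  have key : ∀ r, K2 D r → S.s f x y z r =
      ((‖B.det‖ ^ 2 : ℝ) : ℂ)⁻¹ * S.s (fun w => f (B.act w)) u v w (B.inv.act r) := by
    intro r hr
    have h1 := S.equiv f hfE B hB u v w (B.inv.act r) huC hvC hwC (K2_act (GK_inv hB) hr)
    rw [act_inv hB0, ← ex, ← ey, ← ez] at h1
    have hkx' := Cu_smul hkx hkx0 hx
    have hky' := Cu_smul hky hky0 hy
    rw [sc3 kz hkz hkz0 _ _ _ r hkx' hky' hz hr, sc2 ky hky hky0 _ _ _ r hkx' hy hz hr,
      S.scal f hfE kx hkx hkx0 x y z r hx hy hz hr] at h1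
    have h2 : ((‖B.det‖ ^ 2 : ℝ) : ℂ) ≠ 0 := by
      have : ‖B.det‖ ^ 2 ≠ 0 := by positivity
      exact_mod_cast this
    rw [h1, inv_mul_cancel_left₀ h2]
  have hnorm : ‖((‖B.det‖ ^ 2 : ℝ) : ℂ)⁻¹‖ = (‖B.det‖ ^ 2)⁻¹ := by
    rw [norm_inv, Complex.norm_real, Real.norm_eq_abs, abs_of_nonneg (by positivity)]
  have hCa : ∀ r, (A.mul B).act (B.inv.act r) = A.act r := by
    intro r
    rw [act_mul, act_inv hB0]
  have hbd : ∀ t, nq ((A.mul B).act t) = nq (A.act (B.act t)) := fun t => by rw [act_mul]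
  obtain ⟨c1, c2⟩ := hcore (fun w => f (B.act w)) (A.mul B) hC0 hF u v w hu hu0 hv hv0 hw hw0
    (by rw [hbd]; exact bx) (by rw [hbd]; exact by') (by rw [hbd]; exact bz)
    (B.inv.act p) (B.inv.act q) (K2_act (GK_inv hB) hp) (K2_act (GK_inv hB) hq)
  rw [hCa, hCdet, norm_mul] at c1
  rw [hCa, hCa, hCdet, norm_mul] at c2
  have hB2 : 0 ≤ (‖B.det‖ ^ 2)⁻¹ := by positivity
  constructor
  · rw [key p hp, norm_mul, hnorm]
    refine (mul_le_mul_of_nonneg_left c1 hB2).trans (le_of_eq ?_)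
    field_simp
  · rw [key p hp, key q hq, key (p + q) (K2_add hp hq), act_add, ← mul_sub, ← mul_sub, norm_mul,
      hnorm]
    refine (mul_le_mul_of_nonneg_left c2 hB2).trans (le_of_eq ?_)
    field_simp

end RNP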