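import Pool.Agent.RNP.Fc

/-!
# RNP.LoA: the local bound for the standard lattice (stub; prove ALL sorries)

`local_core` (the case `B = 1`). Let `C` be invertible, `f` in `Fn D M V`, `x, y, z ∈ O²` not `0` with
`|C x|², |C y|², |C z|² ≤ κ' |det C|`. Claim `‖s f x y z p‖ ≤ K0 |C p|² / |det C|` and the same for the
polar form. Put `d = |det C|`.
1. If `det2 x y = 0`: `y = k x` (`det2_eq_zero`), `s f x y z p = s f x x z p = 0` (`scal` in the second
  place through `a12`; `s f x x z p = - s f x x z p`).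
2. Else `g = (x | y)` (columns) is in `MO D`, `|det g| d = |det2 (C x) (C y)| ≤ κ' d` (`det2_act`,
  `det2_le`), so `1 ≤ |det g| ≤ κ'` (`nrm_one`).
3. `equiv`: `s f x y z p = |det g|⁻² s (f ∘ g) e1 e2 z' p'`, `z' = g⁻¹ z`, `p' = g⁻¹ p`.
4. `f ∘ g` is in a finite set of functions: it vanishes outside `(1/m) O²`, where `m = ⌈κ'²⌉!`
  (`g⁻¹` has entries in `(1/det g) O`, `det g` divides `|det g|² ∈ ℕ`, `|det g|² ≤ κ'²`), is periodic
  mod `M O²`, with nonzero values in `V`: it is determined by its values on the finite set of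
  representatives of `(1/m) O² / M O²` (`reps` with `N = m M`).
5. `z'` is in a finite set: `z' = (det2 z y, det2 x z) / det g`, the numerators are in `O` and of absolute
  value `≤ κ'` (as in 2), the denominator is in the finite set `{δ ∈ O : |δ| ≤ κ'}` (`fin_ball`).
6. `quad` for the finitely many `(f ∘ g, z')`: with `c = |S11| + |S12| + |S22|`,
  `‖s (f ∘ g) e1 e2 z' p'‖ ≤ c nq p'`, polar form `2 p'₁ q'₁ S11 + (p'₁ q'₂ + p'₂ q'₁) S12 + 2 p'₂ q'₂ S22`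
  `≤ 4 c √(nq p') √(nq q')`. Take the maximum of `c` over the finite set (only the pairs which are
  `AdmE`, `Cu`; `Set.Finite` induction or `Finset.sup'`/`exists_le` of a finite image).
7. `p' = (det2 p y, det2 x p) / det g`, `|det2 p y| d = |det2 (C p) (C y)| ≤ √(nq (C p)) √(κ' d)`, so
  `nq p' ≤ 2 κ' nq (C p) / d` (using `|det g| ≥ 1`).
-/

open RNK

namespace RNP
variable {D : OD}

/-- a finite set of functions -/
private theorem LoA_fin (D : OD) {m M : ℕ} (hm : 0 < m) (hM : 0 < M) (V : Finset ℂ) :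
    {F : Vec → ℂ | (∀ w, F w ≠ 0 → F w ∈ V) ∧ (∀ w, F w ≠ 0 → O2 D ((m : ℂ) • w)) ∧
      ∀ w v, O2 D v → F (w + (M : ℂ) • v) = F w}.Finite := by
  classical
  obtain ⟨S, -, hS⟩ := reps D (Nat.mul_pos hm hM)
  have hm0 : (m : ℂ) ≠ 0 := by exact_mod_cast hm.ne'
  let Φ : (Vec → ℂ) → ((S ×ˢ S : Finset (ℂ × ℂ)) → ℂ) := fun F r =>
    F (r.1.1 / m, r.1.2 / m)
  refine Set.Finite.of_finite_image (f := Φ) ?_ ?_
  · refine (Set.Finite.pi' (t := fun _ : (S ×ˢ S : Finset (ℂ × ℂ)) =>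
      (↑(insert 0 V) : Set ℂ)) fun _ => (insert 0 V).finite_toSet).subset ?_
    rintro _ ⟨F, hF, rfl⟩ r
    by_cases h : F (r.1.1 / m, r.1.2 / m) = 0
    · simp [Φ, h]
    · have := hF.1 _ h
      simp only [Φ, Finset.coe_insert, Set.mem_insert_iff, Finset.mem_coe]
      exact Or.inr this
  · intro F hF G hG hFG
    have key : ∀ w, O2 D ((m : ℂ) • w) → F w = G w := by
      intro w hw
      obtain ⟨r1, hr1, y1, hy1, e1⟩ := hS _ hw.1
      obtain ⟨r2, hr2, y2, hy2, e2⟩ := hS _ hw.2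
      simp only [Prod.smul_fst, Prod.smul_snd, smul_eq_mul] at e1 e2
      push_cast at e1 e2
      have hw' : w = (r1 / m, r2 / m) + (M : ℂ) • ((y1, y2) : Vec) := by
        ext
        · simp only [Prod.fst_add, Prod.smul_fst, smul_eq_mul]
          field_simp
          linear_combination e1
        · simp only [Prod.snd_add, Prod.smul_snd, smul_eq_mul]
          field_simp
          linear_combination e2
      rw [hw', hF.2.2 _ _ ⟨hy1, hy2⟩, hG.2.2 _ _ ⟨hy1, hy2⟩]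
      exact congrFun hFG ⟨(r1, r2), Finset.mk_mem_product hr1 hr2⟩
    funext w
    by_cases h1 : F w = 0
    · by_cases h2 : G w = 0
      · rw [h1, h2]
      · exact key w (hG.2.1 w h2)
    · exact key w (hF.2.1 w h1)

/-- a uniform constant on a finite set -/
private theorem LoA_unif {α : Type*} {T : Set α} (hT : T.Finite) (P : α → ℝ → Prop)
    (hmono : ∀ a c c', P a c → c ≤ c' → P a c') (h : ∀ a ∈ T, ∃ c, P a c) :
    ∃ c, 0 ≤ c ∧ ∀ a ∈ T, P a c := by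
  classical
  choose! c hc using h
  obtain ⟨B, hB⟩ := (hT.image c).bddAbove
  refine ⟨max B 0, le_max_right _ _, fun a ha => hmono a (c a) _ (hc a ha) ?_⟩
  exact (hB ⟨a, ha, rfl⟩).trans (le_max_left _ _)

/-- the bound for one function -/
private theorem LoA_one (S : Coc D) {F : Vec → ℂ} (hF : AdmE D F) {z : Vec} (hz : Cu D z) :
    ∃ c : ℝ, ∀ p q, K2 D p → K2 D q → ‖S.s F e1 e2 z p‖ ≤ c * nq p ∧
      ‖S.s F e1 e2 z (p + q) - S.s F e1 e2 z p - S.s F e1 e2 z q‖ ≤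
        c * (√(nq p) * √(nq q)) := by
  obtain ⟨S11, S12, S22, h⟩ := S.quad F hF e1 e2 z Cu_e1 Cu_e2 hz
  refine ⟨2 * (‖S11‖ + ‖S12‖ + ‖S22‖), fun p q hp hq => ?_⟩
  have a1 := norm_nonneg S11
  have a2 := norm_nonneg S12
  have a3 := norm_nonneg S22
  constructor
  · rw [h p hp]
    have b1 := norm_nonneg p.1
    have b2 := norm_nonneg p.2
    have h1 : ‖p.1 ^ 2 * S11 + p.1 * p.2 * S12 + p.2 ^ 2 * S22‖ ≤
        ‖p.1‖ ^ 2 * ‖S11‖ + ‖p.1‖ * ‖p.2‖ * ‖S12‖ + ‖p.2‖ ^ 2 * ‖S22‖ := by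
      refine (norm_add₃_le).trans (le_of_eq ?_)
      simp only [norm_mul, norm_pow]
    refine h1.trans ?_
    unfold nq
    have h2 : ‖p.1‖ * ‖p.2‖ ≤ ‖p.1‖ ^ 2 + ‖p.2‖ ^ 2 := by
      nlinarith [sq_nonneg (‖p.1‖ - ‖p.2‖), sq_nonneg ‖p.1‖, sq_nonneg ‖p.2‖]
    have h3 := mul_le_mul_of_nonneg_right h2 a2
    have h4 := mul_nonneg (sq_nonneg ‖p.1‖) a1
    have h5 := mul_nonneg (sq_nonneg ‖p.2‖) a1
    have h6 := mul_nonneg (sq_nonneg ‖p.1‖) a2
    have h7 := mul_nonneg (sq_nonneg ‖p.2‖) a2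
    have h8 := mul_nonneg (sq_nonneg ‖p.1‖) a3
    have h9 := mul_nonneg (sq_nonneg ‖p.2‖) a3
    nlinarith
  · rw [h p hp, h q hq, h (p + q) (K2_add hp hq)]
    have e : (p + q).1 ^ 2 * S11 + (p + q).1 * (p + q).2 * S12 + (p + q).2 ^ 2 * S22 -
        (p.1 ^ 2 * S11 + p.1 * p.2 * S12 + p.2 ^ 2 * S22) -
        (q.1 ^ 2 * S11 + q.1 * q.2 * S12 + q.2 ^ 2 * S22) =
        2 * (p.1 * q.1) * S11 + (p.1 * q.2 + p.2 * q.1) * S12 + 2 * (p.2 * q.2) * S22 := by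
      simp only [Prod.fst_add, Prod.snd_add]
      ring
    rw [e]
    set P := √(nq p) with hP
    set Q := √(nq q) with hQ
    have hP0 : 0 ≤ P := Real.sqrt_nonneg _
    have hQ0 : 0 ≤ Q := Real.sqrt_nonneg _
    have p1 : ‖p.1‖ ≤ P := Real.le_sqrt_of_sq_le (by unfold nq; nlinarith [sq_nonneg ‖p.2‖])
    have p2 : ‖p.2‖ ≤ P := Real.le_sqrt_of_sq_le (by unfold nq; nlinarith [sq_nonneg ‖p.1‖])
    have q1 : ‖q.1‖ ≤ Q := Real.le_sqrt_of_sq_le (by unfold nq; nlinarith [sq_nonneg ‖q.2‖])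
    have q2 : ‖q.2‖ ≤ Q := Real.le_sqrt_of_sq_le (by unfold nq; nlinarith [sq_nonneg ‖q.1‖])
    have m11 : ‖p.1‖ * ‖q.1‖ ≤ P * Q := mul_le_mul p1 q1 (norm_nonneg _) hP0
    have m12 : ‖p.1‖ * ‖q.2‖ ≤ P * Q := mul_le_mul p1 q2 (norm_nonneg _) hP0
    have m21 : ‖p.2‖ * ‖q.1‖ ≤ P * Q := mul_le_mul p2 q1 (norm_nonneg _) hP0
    have m22 : ‖p.2‖ * ‖q.2‖ ≤ P * Q := mul_le_mul p2 q2 (norm_nonneg _) hP0
    have h1 : ‖2 * (p.1 * q.1) * S11 + (p.1 * q.2 + p.2 * q.1) * S12 +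
        2 * (p.2 * q.2) * S22‖ ≤ 2 * (‖p.1‖ * ‖q.1‖) * ‖S11‖ +
        (‖p.1‖ * ‖q.2‖ + ‖p.2‖ * ‖q.1‖) * ‖S12‖ + 2 * (‖p.2‖ * ‖q.2‖) * ‖S22‖ := by
      refine (norm_add₃_le).trans ?_
      have n1 : ‖2 * (p.1 * q.1) * S11‖ = 2 * (‖p.1‖ * ‖q.1‖) * ‖S11‖ := by
        simp only [norm_mul, Complex.norm_ofNat]
      have n3 : ‖2 * (p.2 * q.2) * S22‖ = 2 * (‖p.2‖ * ‖q.2‖) * ‖S22‖ := by
        simp only [norm_mul, Complex.norm_ofNat]
      have n2 : ‖(p.1 * q.2 + p.2 * q.1) * S12‖ ≤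
          (‖p.1‖ * ‖q.2‖ + ‖p.2‖ * ‖q.1‖) * ‖S12‖ := by
        rw [norm_mul]
        refine mul_le_mul_of_nonneg_right ((norm_add_le _ _).trans (le_of_eq ?_)) a2
        simp only [norm_mul]
      rw [n1, n3]
      linarith
    refine h1.trans ?_
    have k1 := mul_le_mul_of_nonneg_right m11 a1
    have k2 := mul_le_mul_of_nonneg_right m12 a2
    have k3 := mul_le_mul_of_nonneg_right m21 a2
    have k4 := mul_le_mul_of_nonneg_right m22 a3
    nlinarith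

private theorem LoA_det {C : Mat} {u v : Vec} {A B : ℝ}
    (hu : nq (C.act u) ≤ A) (hv : nq (C.act v) ≤ B) :
    ‖det2 u v‖ ^ 2 * ‖C.det‖ ^ 2 ≤ A * B := by
  have h1 := det2_le (C.act u) (C.act v)
  rw [det2_act, norm_mul, mul_pow] at h1
  have h2 := mul_le_mul hu hv (nq_nonneg _) ((nq_nonneg _).trans hu)
  nlinarith

theorem local_core (S : Coc D) {M : ℕ} (hM : 0 < M) (V : Finset ℂ) (hV : ∀ v ∈ V, v ∈ D.K)
    (κ' : ℝ) : ∃ K0 : ℝ, 0 < K0 ∧ ∀ (f : Vec → ℂ) (C : Mat), C.det ≠ 0 → Fn D M V f →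
    ∀ x y z, O2 D x → x ≠ 0 → O2 D y → y ≠ 0 → O2 D z → z ≠ 0 →
      nq (C.act x) ≤ κ' * ‖C.det‖ → nq (C.act y) ≤ κ' * ‖C.det‖ →
      nq (C.act z) ≤ κ' * ‖C.det‖ → ∀ p q, K2 D p → K2 D q →
      ‖S.s f x y z p‖ ≤ K0 * (nq (C.act p) / ‖C.det‖) ∧
      ‖S.s f x y z (p + q) - S.s f x y z p - S.s f x y z q‖ ≤
        K0 * (√(nq (C.act p)) * √(nq (C.act q)) / ‖C.det‖) := by
  classical
  set m : ℕ := (⌊κ' ^ 2⌋₊).factorial with hm
  have hm0 : 0 < m := Nat.factorial_pos _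
  set FS : Set (Vec → ℂ) := {F : Vec → ℂ | (∀ w, F w ≠ 0 → F w ∈ V) ∧
      (∀ w, F w ≠ 0 → O2 D ((m : ℂ) • w)) ∧
      ∀ w v, O2 D v → F (w + (M : ℂ) • v) = F w} with hFS
  have hFSf : FS.Finite := LoA_fin D hm0 hM V
  set BB : Set ℂ := {x : ℂ | x ∈ D.O ∧ ‖x‖ ≤ κ'} with hBB
  have hBBf : BB.Finite := fin_ball D κ'
  set ZS : Set Vec := (fun t : ℂ × ℂ × ℂ => ((t.2.1 / t.1, t.2.2 / t.1) : Vec)) ''
    (BB ×ˢ BB ×ˢ BB) with hZS
  have hZSf : ZS.Finite := (hBBf.prod (hBBf.prod hBBf)).image _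
  set TS : Set ((Vec → ℂ) × Vec) := {t | t ∈ FS ×ˢ ZS ∧ AdmE D t.1 ∧ Cu D t.2} with hTS
  have hTSf : TS.Finite := (hFSf.prod hZSf).subset fun t ht => ht.1
  obtain ⟨c, hc0, hc⟩ := LoA_unif hTSf
    (fun t c => ∀ p q, K2 D p → K2 D q → ‖S.s t.1 e1 e2 t.2 p‖ ≤ c * nq p ∧
      ‖S.s t.1 e1 e2 t.2 (p + q) - S.s t.1 e1 e2 t.2 p - S.s t.1 e1 e2 t.2 q‖ ≤
        c * (√(nq p) * √(nq q)))
    (by
      intro a c c' h hcc p q hp hq
      obtain ⟨h1, h2⟩ := h p q hp hq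
      refine ⟨h1.trans (mul_le_mul_of_nonneg_right hcc (nq_nonneg _)),
        h2.trans (mul_le_mul_of_nonneg_right hcc (by positivity))⟩)
    (fun t ht => LoA_one S ht.2.1 ht.2.2)
  refine ⟨c * (2 * |κ'|) + 1, by positivity, ?_⟩
  intro f C hC hf x y z hx hx0 hy hy0 hz hz0 hCx hCy hCz p q hp hq
  have hd : 0 < ‖C.det‖ := norm_pos_iff.2 hC
  have hκ : 0 < κ' := by
    by_contra hneg
    have h1 : 0 < nq (C.act x) := nq_pos fun h => hx0 ((act_eq_zero hC).1 h)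
    have h2 : κ' * ‖C.det‖ ≤ 0 := mul_nonpos_of_nonpos_of_nonneg (not_lt.1 hneg) hd.le
    linarith
  have hK : c * (2 * κ') ≤ c * (2 * |κ'|) + 1 := by
    rw [abs_of_pos hκ]
    linarith
  have hfA : AdmE D f := Fn_AdmE hM hV hf
  have hxC : Cu D x := ⟨O2_K2 hx, hx0⟩
  have hyC : Cu D y := ⟨O2_K2 hy, hy0⟩
  have hzC : Cu D z := ⟨O2_K2 hz, hz0⟩
  by_cases h0 : det2 x y = 0
  · obtain ⟨k, hk, hk0, rfl⟩ := (det2_eq_zero hxC hyC).1 h0
    have hs : ∀ r, K2 D r → S.s f x (k • x) z r = 0 := by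
      intro r hr
      have h1 := S.a12 f hfA x (k • x) z r hxC hyC hzC hr
      have h2 := S.scal f hfA k hk hk0 x x z r hxC hxC hzC hr
      have h3 := S.a12 f hfA x x z r hxC hxC hzC hr
      have h4 : S.s f x x z r = 0 := by linear_combination h3 / 2
      rw [h2, h4] at h1
      linear_combination h1
    rw [hs p hp, hs q hq, hs (p + q) (K2_add hp hq)]
    have hn1 := nq_nonneg (C.act p)
    constructor
    · rw [norm_zero]; positivity
    · rw [sub_zero, sub_zero, norm_zero]; positivity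
  -- the main case
  have hle : ∀ {u v : Vec}, nq (C.act u) ≤ κ' * ‖C.det‖ → nq (C.act v) ≤ κ' * ‖C.det‖ →
      ‖det2 u v‖ ≤ κ' := by
    intro u v hu hv
    have h1 := LoA_det hu hv
    have h2 : ‖det2 u v‖ ^ 2 ≤ κ' ^ 2 := by
      have h3 : 0 < ‖C.det‖ ^ 2 := by positivity
      have h4 : ‖det2 u v‖ ^ 2 * ‖C.det‖ ^ 2 ≤ κ' ^ 2 * ‖C.det‖ ^ 2 := by nlinarith
      exact le_of_mul_le_mul_right h4 h3
    exact abs_le_of_sq_le_sq' h2 hκ.le |>.2
  set g : Mat := ⟨x.1, y.1, x.2, y.2⟩ with hg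
  have hgdet : g.det = det2 x y := by simp only [hg, Mat.det, det2]; ring
  have hg0 : g.det ≠ 0 := by rw [hgdet]; exact h0
  have hgM : MO D g := ⟨⟨hx.1, hy.1, hx.2, hy.2⟩, hg0⟩
  have hgK : GK D g := MO_GK hgM
  have hgO : g.det ∈ D.O := det_O hgM
  have hg1 : 1 ≤ ‖g.det‖ := nrm_one hgO hg0
  have hgκ : ‖g.det‖ ≤ κ' := by rw [hgdet]; exact hle hCx hCy
  have ge1 : g.act e1 = x := by ext <;> simp [hg, e1]
  have ge2 : g.act e2 = y := by ext <;> simp [hg, e2]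
  have hiv : ∀ w : Vec, g.inv.act w = (det2 w y / g.det, det2 x w / g.det) := by
    intro w
    ext
    · simp only [act_fst, Mat.inv, det2, hg]; ring
    · simp only [act_snd, Mat.inv, det2, hg]; ring
  set F : Vec → ℂ := fun w => f (g.act w) with hF
  have hFA : AdmE D F := AdmE_act hgK hfA
  -- the function is in the finite set
  have hFmem : F ∈ FS := by
    refine ⟨fun w hw => hf.val _ hw, fun w hw => ?_, fun w v hv => ?_⟩
    · have h1 : O2 D (g.act w) := hf.supp _ hw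
      obtain ⟨n, hn⟩ := nrm_Ord hgO
      have hnn : ‖g.det‖ ^ 2 = (n : ℝ) := by
        have h2 : g.det * (starRingEnd ℂ) g.det = ((‖g.det‖ ^ 2 : ℝ) : ℂ) := by
          rw [Complex.mul_conj, Complex.normSq_eq_norm_sq]
        rw [h2] at hn
        exact_mod_cast hn
      have hn1 : 1 ≤ n := by
        have : (1 : ℝ) ≤ n := by rw [← hnn]; nlinarith
        exact_mod_cast this
      have hn2 : n ≤ ⌊κ' ^ 2⌋₊ := by
        refine Nat.le_floor ?_
        rw [← hnn]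
        nlinarith [norm_nonneg g.det]
      obtain ⟨k, hk⟩ := Nat.dvd_factorial hn1 hn2
      have h3 : g.det • w = (⟨g.d, -g.b, -g.c, g.a⟩ : Mat).act (g.act w) := by
        ext
        · simp only [Prod.smul_fst, smul_eq_mul, act_fst, act_snd, Mat.det]; ring
        · simp only [Prod.smul_snd, smul_eq_mul, act_fst, act_snd, Mat.det]; ring
      have h4 : O2 D (g.det • w) := by
        rw [h3]
        exact ⟨D.O.add_mem (D.O.mul_mem hy.2 h1.1) (D.O.mul_mem (D.O.neg_mem hy.1) h1.2),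
          D.O.add_mem (D.O.mul_mem (D.O.neg_mem hx.2) h1.1) (D.O.mul_mem hx.1 h1.2)⟩
      have h5 : (m : ℂ) • w = ((k : ℂ) * (starRingEnd ℂ) g.det) • (g.det • w) := by
        rw [smul_smul]
        congr 1
        rw [hm, hk]
        push_cast
        rw [← hn]
        ring
      rw [h5]
      exact O2_smul (D.O.mul_mem (nat_O k) (cj_Ord hgO)) h4
    · show f (g.act (w + (M : ℂ) • v)) = f (g.act w)
      rw [act_add, act_smul]
      exact hf.per _ _ (O2_act hgM hv)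
  -- the point
  set z' : Vec := g.inv.act z with hz'
  have hz'C : Cu D z' := Cu_act (GK_inv hgK) hzC
  have hz'm : z' ∈ ZS := by
    refine ⟨(g.det, det2 z y, det2 x z), ⟨⟨hgO, hgκ⟩, ⟨?_, hle hCz hCy⟩, ?_, hle hCx hCz⟩, ?_⟩
    · exact D.O.sub_mem (D.O.mul_mem hz.1 hy.2) (D.O.mul_mem hz.2 hy.1)
    · exact D.O.sub_mem (D.O.mul_mem hx.1 hz.2) (D.O.mul_mem hx.2 hz.1)
    · rw [hz', hiv]
  have hmem : (F, z') ∈ TS := ⟨⟨hFmem, hz'm⟩, hFA, hz'C⟩
  have hb := hc _ hmem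
  have heq : ∀ r, K2 D r → S.s f x y z r =
      ((‖g.det‖ ^ 2 : ℝ) : ℂ)⁻¹ * S.s F e1 e2 z' (g.inv.act r) := by
    intro r hr
    have h1 := S.equiv f hfA g hgK e1 e2 z' (g.inv.act r) Cu_e1 Cu_e2 hz'C
      (K2_act (GK_inv hgK) hr)
    rw [ge1, ge2, hz', act_inv hg0, act_inv hg0] at h1
    have h2 : ((‖g.det‖ ^ 2 : ℝ) : ℂ) ≠ 0 := by
      have : ‖g.det‖ ^ 2 ≠ 0 := by positivity
      exact_mod_cast this
    show S.s f x y z r = ((‖g.det‖ ^ 2 : ℝ) : ℂ)⁻¹ *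
      S.s (fun w => f (g.act w)) e1 e2 (g.inv.act z) (g.inv.act r)
    rw [h1, inv_mul_cancel_left₀ h2]
  have hnorm : ‖((‖g.det‖ ^ 2 : ℝ) : ℂ)⁻¹‖ ≤ 1 := by
    rw [norm_inv, Complex.norm_real, Real.norm_eq_abs, abs_of_nonneg (by positivity)]
    exact inv_le_one_of_one_le₀ (by nlinarith)
  have hpb : ∀ r, nq (g.inv.act r) ≤ 2 * κ' * (nq (C.act r) / ‖C.det‖) := by
    intro r
    have h1 := LoA_det (le_refl (nq (C.act r))) hCy
    have h2 := LoA_det hCx (le_refl (nq (C.act r)))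
    have h3 : ‖det2 r y‖ ^ 2 ≤ κ' * (nq (C.act r) / ‖C.det‖) := by
      rw [← mul_div_assoc, le_div_iff₀ hd]
      have h4 : (‖det2 r y‖ ^ 2 * ‖C.det‖) * ‖C.det‖ ≤ (κ' * nq (C.act r)) * ‖C.det‖ := by
        nlinarith
      exact le_of_mul_le_mul_right h4 hd
    have h4 : ‖det2 x r‖ ^ 2 ≤ κ' * (nq (C.act r) / ‖C.det‖) := by
      rw [← mul_div_assoc, le_div_iff₀ hd]
      have h4 : (‖det2 x r‖ ^ 2 * ‖C.det‖) * ‖C.det‖ ≤ (κ' * nq (C.act r)) * ‖C.det‖ := by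
        nlinarith
      exact le_of_mul_le_mul_right h4 hd
    rw [hiv]
    have h5 : nq ((det2 r y / g.det, det2 x r / g.det) : Vec) =
        (‖det2 r y‖ ^ 2 + ‖det2 x r‖ ^ 2) / ‖g.det‖ ^ 2 := by
      simp only [nq, norm_div, div_pow]
      ring
    rw [h5]
    refine (div_le_self (by positivity) (by nlinarith)).trans ?_
    linarith
  have hpK := K2_act (GK_inv hgK) hp
  have hqK := K2_act (GK_inv hgK) hq
  obtain ⟨hb1, hb2⟩ := hb _ _ hpK hqK
  constructor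
  · rw [heq p hp, norm_mul]
    have h1 : ‖((‖g.det‖ ^ 2 : ℝ) : ℂ)⁻¹‖ * ‖S.s F e1 e2 z' (g.inv.act p)‖ ≤
        1 * (c * nq (g.inv.act p)) := mul_le_mul hnorm hb1 (norm_nonneg _) zero_le_one
    refine h1.trans ?_
    rw [one_mul]
    have hN : 0 ≤ nq (C.act p) / ‖C.det‖ := div_nonneg (nq_nonneg _) hd.le
    have h2 := mul_le_mul_of_nonneg_left (hpb p) hc0
    have h3 := mul_le_mul_of_nonneg_right hK hN
    nlinarith
  · have e : S.s f x y z (p + q) - S.s f x y z p - S.s f x y z q =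
        ((‖g.det‖ ^ 2 : ℝ) : ℂ)⁻¹ * (S.s F e1 e2 z' (g.inv.act p + g.inv.act q) -
          S.s F e1 e2 z' (g.inv.act p) - S.s F e1 e2 z' (g.inv.act q)) := by
      rw [heq p hp, heq q hq, heq (p + q) (K2_add hp hq), act_add]
      ring
    rw [e, norm_mul]
    have h1 := mul_le_mul hnorm hb2 (norm_nonneg _) zero_le_one
    refine h1.trans ?_
    rw [one_mul]
    have hs : √(nq (g.inv.act p)) * √(nq (g.inv.act q)) ≤
        2 * κ' * (√(nq (C.act p)) * √(nq (C.act q)) / ‖C.det‖) := by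
      have s1 : √(nq (g.inv.act p)) ≤ √(2 * κ' / ‖C.det‖) * √(nq (C.act p)) := by
        rw [← Real.sqrt_mul (by positivity)]
        refine Real.sqrt_le_sqrt ((hpb p).trans (le_of_eq ?_))
        ring
      have s2 : √(nq (g.inv.act q)) ≤ √(2 * κ' / ‖C.det‖) * √(nq (C.act q)) := by
        rw [← Real.sqrt_mul (by positivity)]
        refine Real.sqrt_le_sqrt ((hpb q).trans (le_of_eq ?_))
        ring
      refine (mul_le_mul s1 s2 (Real.sqrt_nonneg _) (by positivity)).trans (le_of_eq ?_)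
      have s3 : √(2 * κ' / ‖C.det‖) * √(2 * κ' / ‖C.det‖) = 2 * κ' / ‖C.det‖ :=
        Real.mul_self_sqrt (by positivity)
      linear_combination (√(nq (C.act p)) * √(nq (C.act q))) * s3
    have hN : 0 ≤ √(nq (C.act p)) * √(nq (C.act q)) / ‖C.det‖ := by positivity
    have h2 := mul_le_mul_of_nonneg_left hs hc0
    have h3 := mul_le_mul_of_nonneg_right hK hN
    nlinarith

end RNP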