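import Pool.Agent.RNP.WtM

/-!
# RNP.LpC: the number of short vectors of minimal norm on their lines

As `RNK/LpC`; the multiples `t` of a vector `w1` with `t w1 ∈ O²` have mutual distances `≥ 1`, so there are
boundedly many with `|t| ≤ R` (`lpc_pack`).
-/

open RNK

namespace RNP
variable {D : OD} {κ : ℝ}

private theorem lpc_act_le (g : Mat) (w : Vec) :
    nq (g.act w) ≤ 2 * (‖g.a‖ ^ 2 + ‖g.b‖ ^ 2 + ‖g.c‖ ^ 2 + ‖g.d‖ ^ 2) * nq w := by
  have h1 : ‖g.a * w.1 + g.b * w.2‖ ≤ ‖g.a‖ * ‖w.1‖ + ‖g.b‖ * ‖w.2‖ := by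
    refine (norm_add_le _ _).trans ?_
    rw [norm_mul, norm_mul]
  have h2 : ‖g.c * w.1 + g.d * w.2‖ ≤ ‖g.c‖ * ‖w.1‖ + ‖g.d‖ * ‖w.2‖ := by
    refine (norm_add_le _ _).trans ?_
    rw [norm_mul, norm_mul]
  have h3 := mul_self_le_mul_self (norm_nonneg _) h1
  have h4 := mul_self_le_mul_self (norm_nonneg _) h2
  simp only [nq, act_fst, act_snd]
  nlinarith [sq_nonneg (‖g.a‖ * ‖w.1‖ - ‖g.b‖ * ‖w.2‖), sq_nonneg (‖g.c‖ * ‖w.1‖ - ‖g.d‖ * ‖w.2‖),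
    sq_nonneg (‖g.a‖ * ‖w.2‖), sq_nonneg (‖g.b‖ * ‖w.1‖), sq_nonneg (‖g.c‖ * ‖w.2‖),
    sq_nonneg (‖g.d‖ * ‖w.1‖)]

private theorem lpc_sq {a b : ℝ} (h : a ^ 2 ≤ b ^ 2) (hb : 0 ≤ b) : a ≤ b :=
  le_of_abs_le ((sq_le_sq.1 h).trans (le_of_eq (abs_of_nonneg hb)))

private theorem lpc_fin (D : OD) (K : ℝ) {C : Mat} (hC : C.det ≠ 0) :
    {w | Prim D w ∧ nq (C.act w) ≤ K * ‖C.det‖}.Finite := by
  refine (fin_ball2 D (2 * (‖C.inv.a‖ ^ 2 + ‖C.inv.b‖ ^ 2 + ‖C.inv.c‖ ^ 2 + ‖C.inv.d‖ ^ 2) *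
    (K * ‖C.det‖))).subset ?_
  rintro w ⟨hw, hn⟩
  refine ⟨Prim_O2 hw, ?_⟩
  have h1 := lpc_act_le C.inv (C.act w)
  rw [inv_act hC] at h1
  exact h1.trans (mul_le_mul_of_nonneg_left hn (by positivity))

/-- packing: at most `n` complex numbers of norm `≤ R` with distances `≥ 1` -/
private theorem lpc_pack (R : ℝ) : ∃ n : ℕ, ∀ S : Set ℂ, (∀ z ∈ S, ‖z‖ ≤ R) →
    (∀ z ∈ S, ∀ w ∈ S, z ≠ w → 1 ≤ ‖z - w‖) → S.Finite ∧ S.ncard ≤ n := by
  classical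
  set m : ℤ := ⌈2 * |R|⌉ + 1 with hm
  set B : Finset (ℤ × ℤ) := Finset.Icc (-m) m ×ˢ Finset.Icc (-m) m with hB
  refine ⟨B.card, fun S h1 h2 => ?_⟩
  set φ : ℂ → ℤ × ℤ := fun z => (⌊2 * z.re⌋, ⌊2 * z.im⌋) with hφ
  have hmaps : Set.MapsTo φ S (B : Set (ℤ × ℤ)) := by
    intro z hz
    have hb : ∀ x : ℝ, |x| ≤ R → ⌊2 * x⌋ ∈ Finset.Icc (-m) m := by
      intro x hx
      have hx' := abs_le.1 (hx.trans (le_abs_self R))
      have hc := Int.le_ceil (2 * |R|)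
      rw [Finset.mem_Icc]
      constructor
      · rw [Int.le_floor]
        push_cast [hm]
        linarith [hx'.1]
      · have h3 := Int.floor_le (2 * x)
        have h4 : ((⌊2 * x⌋ : ℤ) : ℝ) ≤ ((m : ℤ) : ℝ) := by
          push_cast [hm]
          linarith [hx'.2]
        exact_mod_cast h4
    rw [Finset.mem_coe, hB, Finset.mem_product]
    exact ⟨hb _ ((Complex.abs_re_le_norm z).trans (h1 z hz)),
      hb _ ((Complex.abs_im_le_norm z).trans (h1 z hz))⟩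
  have hinj : Set.InjOn φ S := by
    intro z hz w hw e
    by_contra hne
    have h3 := h2 z hz w hw hne
    have e1 : ⌊2 * z.re⌋ = ⌊2 * w.re⌋ := congrArg Prod.fst e
    have e2 : ⌊2 * z.im⌋ = ⌊2 * w.im⌋ := congrArg Prod.snd e
    have h4 := abs_lt.1 (Int.abs_sub_lt_one_of_floor_eq_floor e1)
    have h5 := abs_lt.1 (Int.abs_sub_lt_one_of_floor_eq_floor e2)
    have h6 : ‖z - w‖ ^ 2 < 1 := by
      rw [← Complex.normSq_eq_norm_sq, Complex.normSq_apply, Complex.sub_re, Complex.sub_im]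
      nlinarith [h4.1, h4.2, h5.1, h5.2]
    nlinarith [norm_nonneg (z - w)]
  have hfin : S.Finite := Set.Finite.of_injOn hmaps hinj (Finset.finite_toSet B)
  refine ⟨hfin, ?_⟩
  have := Set.ncard_le_ncard_of_injOn φ hmaps hinj (Finset.finite_toSet B)
  rwa [Set.ncard_coe_finset] at this

/-- multiples of a vector of minimal norm -/
private theorem lpc_mult (D : OD) (R : ℝ) : ∃ n : ℕ, ∀ w, Prim D w →
    ∃ T : Finset ℂ, T.card ≤ n ∧ ∀ t, O2 D (t • w) → ‖t‖ ≤ R → t ∈ T := by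
  obtain ⟨n, hn⟩ := lpc_pack R
  refine ⟨n, fun w hw => ?_⟩
  obtain ⟨hf, hc⟩ := hn {t | O2 D (t • w) ∧ ‖t‖ ≤ R} (fun z hz => hz.2) (by
    rintro z ⟨hz, -⟩ w' ⟨hw', -⟩ hne
    refine hw.2.2 _ (sub_ne_zero.2 hne) ?_
    rw [sub_smul]
    exact O2_sub hz hw')
  refine ⟨hf.toFinset, ?_, fun t h1 h2 => by
    rw [Set.Finite.mem_toFinset]; exact ⟨h1, h2⟩⟩
  rwa [← Set.ncard_eq_toFinset_card _ hf]

private theorem lpc_main (hκ : Kap D κ) {K : ℝ} (hK : κ ≤ K) : ∃ n0 : ℕ, ∀ C : Mat, C.det ≠ 0 →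
    {w | Prim D w ∧ nq (C.act w) ≤ K * ‖C.det‖}.ncard ≤ n0 := by
  classical
  obtain ⟨nA, hA'⟩ := lpc_mult D 1
  have hB := fin_ball D K
  obtain ⟨nT, hT'⟩ := lpc_mult D (2 * K)
  refine ⟨nA + hB.toFinset.card * nT, fun C hC => ?_⟩
  have hK1 : 1 ≤ K := hκ.one.trans hK
  have hK0 : 0 < K := lt_of_lt_of_le one_pos hK1
  have hκ0 : 0 < κ := lt_of_lt_of_le one_pos hκ.one
  have hSf := lpc_fin D K hC
  have hd0 : 0 < ‖C.det‖ := norm_pos_iff.2 hC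
  obtain ⟨v, hv, hvn⟩ := hκ.mink C hC
  have hSn : {w | Prim D w ∧ nq (C.act w) ≤ K * ‖C.det‖}.Nonempty := by
    refine ⟨v, hv, hvn.trans ?_⟩
    exact mul_le_mul_of_nonneg_right (by linarith) hd0.le
  obtain ⟨w1, ⟨hw1, hw1n⟩, -⟩ := Set.exists_min_image _ (fun w => nq (C.act w)) hSf hSn
  have hm0 : 0 < nq (C.act w1) := nq_pos fun h => Prim_ne hw1 ((act_eq_zero hC).1 h)
  obtain ⟨TA, hTA, hA⟩ := hA' w1 hw1
  obtain ⟨TT', hTT, hT⟩ := hT' w1 hw1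
  -- the determinant with the shortest vector
  have hO : ∀ w, Prim D w → det2 w1 w ∈ D.O := fun w hw =>
    D.O.sub_mem (D.O.mul_mem (Prim_O2 hw1).1 (Prim_O2 hw).2)
      (D.O.mul_mem (Prim_O2 hw1).2 (Prim_O2 hw).1)
  have hdet : ∀ w, nq (C.act w) ≤ K * ‖C.det‖ →
      (‖C.det‖ * ‖det2 w1 w‖) ^ 2 ≤ nq (C.act w1) * (K * ‖C.det‖) := by
    intro w hw
    have h1 := det2_le (C.act w1) (C.act w)
    rw [det2_act, norm_mul] at h1
    exact h1.trans (mul_le_mul_of_nonneg_left hw hm0.le)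
  have hδ : ∀ w, nq (C.act w) ≤ K * ‖C.det‖ → ‖det2 w1 w‖ ≤ K := by
    intro w hw
    have h1 := hdet w hw
    have h2 : nq (C.act w1) * (K * ‖C.det‖) ≤ (‖C.det‖ * K) ^ 2 := by
      have h3 := mul_le_mul_of_nonneg_right hw1n (mul_pos hK0 hd0).le
      refine h3.trans (le_of_eq ?_)
      ring
    have h4 : ‖C.det‖ * ‖det2 w1 w‖ ≤ ‖C.det‖ * K :=
      lpc_sq (h1.trans h2) (mul_pos hd0 hK0).le
    exact le_of_mul_le_mul_left h4 hd0
  -- vectors with the same determinant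
  have hex : ∀ δ : ℂ, ∃ c : Vec, ∀ w, Prim D w → nq (C.act w) ≤ K * ‖C.det‖ → det2 w1 w = δ →
      δ ≠ 0 → ∃ t ∈ TT', w = c + t • w1 := by
    intro δ
    by_cases h : ∃ c, Prim D c ∧ nq (C.act c) ≤ K * ‖C.det‖ ∧ det2 w1 c = δ
    · obtain ⟨c, hc, hcn, hcd⟩ := h
      refine ⟨c, fun w hw hwn hwd h0 => ?_⟩
      have h1 : det2 w1 (w - c) = 0 := by
        have e : det2 w1 (w - c) = det2 w1 w - det2 w1 c := by
          simp only [det2, Prod.fst_sub, Prod.snd_sub]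
          ring
        rw [e, hwd, hcd, sub_self]
      obtain ⟨t, -, e, -⟩ := prim_line hw1 (O2_sub (Prim_O2 hw) (Prim_O2 hc)) h1
      refine ⟨t, ?_, by rw [← e]; abel⟩
      refine hT t (by rw [← e]; exact O2_sub (Prim_O2 hw) (Prim_O2 hc)) ?_
      have h2 : ‖t‖ ^ 2 * nq (C.act w1) ≤ 4 * K * ‖C.det‖ := by
        have h3 : ‖t‖ ^ 2 * nq (C.act w1) = nq (C.act w + -C.act c) := by
          rw [← nq_smul, ← act_smul, ← e, act_sub, sub_eq_add_neg]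
        rw [h3]
        refine (nq_add_le _ _).trans ?_
        rw [nq_neg]
        linarith
      have h4 : 1 ≤ ‖det2 w1 w‖ := nrm_one (hO w hw) (by rw [hwd]; exact h0)
      have h5 : ‖C.det‖ ≤ nq (C.act w1) * K := by
        have h6 : ‖C.det‖ ^ 2 ≤ (‖C.det‖ * ‖det2 w1 w‖) ^ 2 :=
          pow_le_pow_left₀ hd0.le (le_mul_of_one_le_right hd0.le h4) 2
        have h7 := h6.trans (hdet w hwn)
        have h8 : ‖C.det‖ * ‖C.det‖ ≤ (nq (C.act w1) * K) * ‖C.det‖ := by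
          calc ‖C.det‖ * ‖C.det‖ = ‖C.det‖ ^ 2 := by ring
            _ ≤ _ := h7
            _ = _ := by ring
        exact le_of_mul_le_mul_right h8 hd0
      have h6 : ‖t‖ ^ 2 * nq (C.act w1) ≤ (2 * K) ^ 2 * nq (C.act w1) := by
        calc ‖t‖ ^ 2 * nq (C.act w1) ≤ 4 * K * ‖C.det‖ := h2
          _ ≤ 4 * K * (nq (C.act w1) * K) := mul_le_mul_of_nonneg_left h5 (by linarith)
          _ = (2 * K) ^ 2 * nq (C.act w1) := by ring
      exact lpc_sq (le_of_mul_le_mul_right h6 hm0) (by linarith)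
    · refine ⟨0, fun w hw hwn hwd _ => ?_⟩
      exact absurd ⟨w, hw, hwn, hwd⟩ h
  choose c hc using hex
  have hsub : {w | Prim D w ∧ nq (C.act w) ≤ K * ‖C.det‖} ⊆
      ((TA.image (fun x => x • w1) ∪
        (hB.toFinset ×ˢ TT').image (fun q => c q.1 + q.2 • w1) : Finset Vec) :
        Set Vec) := by
    rintro w ⟨hw, hwn⟩
    rw [Finset.coe_union]
    by_cases h0 : det2 w1 w = 0
    · left
      obtain ⟨x, -, e, -⟩ := prim_line hw1 (Prim_O2 hw) h0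
      obtain ⟨y, -, e', hy⟩ := prim_line hw (Prim_O2 hw1) (by rw [det2_swap, h0, neg_zero])
      have h1 : y * x = 1 := by
        have h2 : w1 = (y * x) • w1 := by rw [← smul_smul, ← e, ← e']
        have h3 : (1 - y * x) • w1 = 0 := by rw [sub_smul, one_smul, ← h2, sub_self]
        have h4 := (smul_eq_zero.1 h3).resolve_right (Prim_ne hw1)
        linear_combination -h4
      have hy1 : 1 ≤ ‖y‖ := hy (left_ne_zero_of_mul (by rw [h1]; exact one_ne_zero))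
      have hx1 : ‖x‖ ≤ 1 := by
        have h5 : ‖y‖ * ‖x‖ = 1 := by rw [← norm_mul, h1, norm_one]
        nlinarith [norm_nonneg x]
      rw [Finset.mem_coe, Finset.mem_image]
      exact ⟨x, hA x (by rw [← e]; exact Prim_O2 hw) hx1, e.symm⟩
    · right
      obtain ⟨t, ht, e⟩ := hc _ w hw hwn rfl h0
      rw [Finset.mem_coe, Finset.mem_image]
      refine ⟨(det2 w1 w, t), ?_, e.symm⟩
      rw [Finset.mem_product]
      refine ⟨?_, ht⟩
      rw [Set.Finite.mem_toFinset]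
      exact ⟨hO w hw, hδ w hwn⟩
  refine (Set.ncard_le_ncard hsub (Finset.finite_toSet _)).trans ?_
  rw [Set.ncard_coe_finset]
  refine (Finset.card_union_le _ _).trans ?_
  refine Nat.add_le_add (Finset.card_image_le.trans hTA) (Finset.card_image_le.trans ?_)
  rw [Finset.card_product]
  exact Nat.mul_le_mul_left _ hTT

theorem count (hκ : Kap D κ) (κ' : ℝ) : ∃ n0 : ℕ, ∀ C : Mat, C.det ≠ 0 →
    {w | Prim D w ∧ nq (C.act w) ≤ κ' * ‖C.det‖}.Finite ∧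
    {w | Prim D w ∧ nq (C.act w) ≤ κ' * ‖C.det‖}.ncard ≤ n0 := by
  obtain ⟨n0, h⟩ := lpc_main hκ (le_max_right κ' κ)
  refine ⟨n0, fun C hC => ⟨lpc_fin D κ' hC, ?_⟩⟩
  refine le_trans (Set.ncard_le_ncard ?_ (lpc_fin D _ hC)) (h C hC)
  rintro w ⟨hw, hn⟩
  exact ⟨hw, hn.trans (mul_le_mul_of_nonneg_right (le_max_left κ' κ) (norm_nonneg _))⟩

end RNP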