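import Pool.Agent.RNP.RgP

/-!
# RNP.Pf: prime elements and the lattices `L_t`

As `RNK/Pf` with the residue field `F` in the place of `F_p`.
-/

open RNK

namespace RNP
variable {D : OD} (π : PD D)

theorem PD.ppos : 0 < π.p := Fintype.card_pos

theorem PD.one_lt : 1 < π.p := Fintype.one_lt_card

theorem PD.wne : π.w ≠ 0 := by
  intro h
  have h1 := π.nw
  rw [h, zero_mul] at h1
  exact π.ppos.ne' (by exact_mod_cast h1.symm)

theorem PD.nsq : ‖π.w‖ ^ 2 = (π.p : ℝ) := by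
  have h1 := π.nw
  rw [Complex.mul_conj, Complex.normSq_eq_norm_sq] at h1
  exact_mod_cast h1

private theorem pf_r0 : π.r 0 = 0 := by
  have h := π.radd 0 D.O.zero_mem 0 D.O.zero_mem
  rw [add_zero] at h
  exact left_eq_add.1 h

private theorem pf_rneg {x : ℂ} (hx : x ∈ D.O) : π.r (-x) = -π.r x := by
  have h := π.radd x hx (-x) (D.O.neg_mem hx)
  rw [add_neg_cancel, pf_r0] at h
  exact (neg_eq_of_add_eq_zero_right h.symm).symm

private theorem pf_rnat (n : ℕ) : π.r n = n := by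
  induction n with
  | zero => simp [pf_r0]
  | succ n ih =>
    rw [Nat.cast_succ, π.radd _ (nat_O n) _ D.O.one_mem, ih, π.rone, Nat.cast_succ]

theorem PD.rint (n : ℤ) : π.r n = n := by
  obtain ⟨m, rfl | rfl⟩ := n.eq_nat_or_neg
  · have h := pf_rnat π m
    simpa using h
  · have h := pf_rnat π m
    have h2 := pf_rneg π (nat_O (D := D) m)
    rw [h] at h2
    simpa using h2

theorem PD.rnat (n : ℕ) : π.r n = n := pf_rnat π n

theorem PD.rneg {x : ℂ} (hx : x ∈ D.O) : π.r (-x) = -π.r x := pf_rneg π hx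

theorem PD.rw0 : π.r π.w = 0 :=
  (π.rker π.w π.hw).2 ⟨1, D.O.one_mem, (mul_one _).symm⟩

/-- small elements have nonzero residue -/
theorem PD.rne {x : ℂ} (hx : x ∈ D.O) (h0 : x ≠ 0) (h : ‖x‖ ^ 2 < π.p) : π.r x ≠ 0 := by
  intro hr
  obtain ⟨y, hy, rfl⟩ := (π.rker x hx).1 hr
  have hy0 : y ≠ 0 := by
    rintro rfl
    exact h0 (mul_zero _)
  have h1 := nrm_one hy hy0
  rw [norm_mul, mul_pow, π.nsq] at h
  have hp : (0 : ℝ) < π.p := by exact_mod_cast π.ppos
  have h2 : (1 : ℝ) ≤ ‖y‖ ^ 2 := by nlinarith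
  nlinarith

theorem ind_01 (t : π.T) (w : Vec) : π.ind t w = 0 ∨ π.ind t w = 1 := by
  cases t with
  | some τ =>
    simp only [PD.ind]
    split_ifs <;> simp
  | none =>
    simp only [PD.ind]
    split_ifs <;> simp

private theorem ind_some (τ : π.F) (w : Vec) :
    π.ind (some τ) w = if π.r w.1 = τ * π.r w.2 then 1 else 0 := rfl

private theorem ind_none (w : Vec) :
    π.ind none w = if π.r w.2 = 0 then 1 else 0 := rfl

private theorem ite_one {P : Prop} [Decidable P] : (if P then (1 : ℂ) else 0) = 1 ↔ P := by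
  split_ifs with h <;> simp [h]

theorem ind_add (t : π.T) {u v : Vec} (hu : O2 D u) (hv : O2 D v) (h : π.ind t v = 1) :
    π.ind t (u + v) = π.ind t u := by
  cases t with
  | some τ =>
    rw [ind_some, ite_one] at h
    rw [ind_some, ind_some, Prod.fst_add, Prod.snd_add, π.radd _ hu.1 _ hv.1,
      π.radd _ hu.2 _ hv.2, h]
    congr 1
    rw [mul_add, add_left_inj]
  | none =>
    rw [ind_none, ite_one] at h
    rw [ind_none, ind_none, Prod.snd_add, π.radd _ hu.2 _ hv.2, h, add_zero]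

theorem ind_smul (t : π.T) {x : ℂ} (hx : x ∈ D.O) (h : π.r x ≠ 0) {w : Vec} (hw : O2 D w) :
    π.ind t (x • w) = π.ind t w := by
  cases t with
  | some τ =>
    rw [ind_some, ind_some, Prod.smul_fst, Prod.smul_snd, smul_eq_mul, smul_eq_mul,
      π.rmul _ hx _ hw.1, π.rmul _ hx _ hw.2]
    congr 1
    rw [mul_left_comm, mul_right_inj' h]
  | none =>
    rw [ind_none, ind_none, Prod.smul_snd, smul_eq_mul, π.rmul _ hx _ hw.2]
    congr 1
    rw [mul_eq_zero, or_iff_right h]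

private theorem pf_iff {w : Vec} (hw : O2 D w) :
    (∃ u, O2 D u ∧ w = π.w • u) ↔ π.r w.1 = 0 ∧ π.r w.2 = 0 := by
  constructor
  · rintro ⟨u, hu, rfl⟩
    rw [Prod.smul_fst, Prod.smul_snd, smul_eq_mul, smul_eq_mul, π.rmul _ π.hw _ hu.1,
      π.rmul _ π.hw _ hu.2, π.rw0, zero_mul, zero_mul]
    exact ⟨rfl, rfl⟩
  · rintro ⟨h1, h2⟩
    obtain ⟨a, ha, ea⟩ := (π.rker _ hw.1).1 h1
    obtain ⟨b, hb, eb⟩ := (π.rker _ hw.2).1 h2
    exact ⟨(a, b), ⟨ha, hb⟩, Prod.ext ea eb⟩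

open Classical in
theorem ind_sum {w : Vec} (hw : O2 D w) :
    ∑ t : π.T, π.ind t w = 1 + if (∃ u, O2 D u ∧ w = π.w • u) then (π.p : ℂ) else 0 := by
  rw [Fintype.sum_option]
  simp only [ind_some, ind_none]
  by_cases h2 : π.r w.2 = 0
  · by_cases h1 : π.r w.1 = 0
    · rw [if_pos h2, if_pos ((pf_iff π hw).2 ⟨h1, h2⟩)]
      congr 1
      rw [h1, h2]
      simp
    · have h3 : ¬ ∃ u, O2 D u ∧ w = π.w • u := fun h => h1 ((pf_iff π hw).1 h).1
      rw [if_pos h2, if_neg h3, h2]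
      simp [h1]
  · have h3 : ¬ ∃ u, O2 D u ∧ w = π.w • u := fun h => h2 ((pf_iff π hw).1 h).2
    rw [if_neg h2, if_neg h3, add_zero, zero_add,
      Finset.sum_eq_single (π.r w.1 * (π.r w.2)⁻¹)]
    · rw [if_pos]
      rw [mul_assoc, inv_mul_cancel₀ h2, mul_one]
    · intro τ _ hτ
      rw [if_neg]
      intro e
      apply hτ
      rw [e, mul_assoc, mul_inv_cancel₀ h2, mul_one]
    · intro h
      exact absurd (Finset.mem_univ _) h

theorem det_B (α β : ℂ) (t : π.T) : (π.B α β t).det = π.w * α * β := by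
  cases t with
  | some τ =>
    simp only [PD.B, Mat.det]
    ring
  | none =>
    simp only [PD.B, Mat.det]
    ring

theorem MO_B {α β : ℂ} (hα : α ∈ D.O) (hβ : β ∈ D.O) (h1 : α ≠ 0) (h2 : β ≠ 0) (t : π.T) :
    MO D (π.B α β t) := by
  refine ⟨?_, by rw [det_B]; exact mul_ne_zero (mul_ne_zero π.wne h1) h2⟩
  cases t with
  | some τ =>
    exact ⟨D.O.mul_mem π.hw hα, D.O.mul_mem (π.lf_O _) hα, D.O.zero_mem, hβ⟩
  | none =>
    exact ⟨hα, D.O.zero_mem, D.O.zero_mem, D.O.mul_mem π.hw hβ⟩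

theorem B_lat {α β : ℂ} (hα : α ∈ D.O) (hβ : β ∈ D.O) (h1 : π.r α ≠ 0) (h2 : π.r β ≠ 0)
    (t : π.T) (w : Vec) : (∃ u, O2 D u ∧ w = (π.B α β t).act u) ↔
      (∃ u, O2 D u ∧ w = (dg α β).act u) ∧ π.ind t w = 1 := by
  cases t with
  | some τ =>
    set n : ℂ := π.lf (τ * π.r β * (π.r α)⁻¹) with hn
    have nO : n ∈ D.O := π.lf_O _
    have hn2 : π.r α * π.r n = τ * π.r β := by
      rw [hn, π.r_lf, mul_comm (π.r α), mul_assoc, inv_mul_cancel₀ h1, mul_one]
    have hB : ∀ u : Vec, (π.B α β (some τ)).act u = (π.w * α * u.1 + n * α * u.2, β * u.2) := by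
      intro u
      show ((π.w * α) * u.1 + (n * α) * u.2, 0 * u.1 + β * u.2) = _
      rw [zero_mul, zero_add]
    constructor
    · rintro ⟨u, hu, rfl⟩
      rw [hB]
      refine ⟨⟨(π.w * u.1 + n * u.2, u.2), ⟨D.O.add_mem (D.O.mul_mem π.hw hu.1)
        (D.O.mul_mem nO hu.2), hu.2⟩, ?_⟩, ?_⟩
      · rw [dg_act]
        exact Prod.ext (by show _ = α * (π.w * u.1 + n * u.2); ring) rfl
      · rw [ind_some, ite_one]
        show π.r (π.w * α * u.1 + n * α * u.2) = τ * π.r (β * u.2)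
        rw [π.radd _ (D.O.mul_mem (D.O.mul_mem π.hw hα) hu.1) _
          (D.O.mul_mem (D.O.mul_mem nO hα) hu.2),
          π.rmul _ (D.O.mul_mem π.hw hα) _ hu.1, π.rmul _ π.hw _ hα, π.rw0,
          π.rmul _ (D.O.mul_mem nO hα) _ hu.2, π.rmul _ nO _ hα,
          π.rmul _ hβ _ hu.2]
        linear_combination π.r u.2 * hn2
    · rintro ⟨⟨u, hu, rfl⟩, h⟩
      rw [dg_act, ind_some, ite_one] at h
      have h3 : π.r (α * u.1) = τ * π.r (β * u.2) := h
      rw [π.rmul _ hα _ hu.1, π.rmul _ hβ _ hu.2] at h3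
      have h4 : π.r u.1 = π.r n * π.r u.2 := by
        have h5 : π.r α * (π.r u.1 - π.r n * π.r u.2) = 0 := by
          linear_combination h3 - π.r u.2 * hn2
        exact sub_eq_zero.1 ((mul_eq_zero.1 h5).resolve_left h1)
      have h6 : π.r (u.1 + -(n * u.2)) = 0 := by
        rw [π.radd _ hu.1 _ (D.O.neg_mem (D.O.mul_mem nO hu.2)),
          π.rneg (D.O.mul_mem nO hu.2), π.rmul _ nO _ hu.2, h4]
        ring
      obtain ⟨a, ha, ea⟩ := (π.rker _ (D.O.add_mem hu.1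
        (D.O.neg_mem (D.O.mul_mem nO hu.2)))).1 h6
      refine ⟨(a, u.2), ⟨ha, hu.2⟩, ?_⟩
      rw [hB, dg_act]
      refine Prod.ext ?_ rfl
      show α * u.1 = π.w * α * a + n * α * u.2
      linear_combination α * ea
  | none =>
    have hB : ∀ u : Vec, (π.B α β none).act u = (α * u.1, π.w * β * u.2) := by
      intro u
      show (α * u.1 + 0 * u.2, 0 * u.1 + (π.w * β) * u.2) = _
      rw [zero_mul, add_zero, zero_mul, zero_add]
    constructor
    · rintro ⟨u, hu, rfl⟩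
      rw [hB]
      refine ⟨⟨(u.1, π.w * u.2), ⟨hu.1, D.O.mul_mem π.hw hu.2⟩, ?_⟩, ?_⟩
      · rw [dg_act]
        exact Prod.ext rfl (by show _ = β * (π.w * u.2); ring)
      · rw [ind_none, ite_one]
        show π.r (π.w * β * u.2) = 0
        rw [π.rmul _ (D.O.mul_mem π.hw hβ) _ hu.2, π.rmul _ π.hw _ hβ, π.rw0, zero_mul, zero_mul]
    · rintro ⟨⟨u, hu, rfl⟩, h⟩
      rw [dg_act, ind_none, ite_one] at h
      have h3 : π.r (β * u.2) = 0 := h
      rw [π.rmul _ hβ _ hu.2] at h3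
      have h4 := (mul_eq_zero.1 h3).resolve_left h2
      obtain ⟨b, hb, eb⟩ := (π.rker _ hu.2).1 h4
      refine ⟨(u.1, b), ⟨hu.1, hb⟩, ?_⟩
      rw [hB, dg_act]
      refine Prod.ext rfl ?_
      show β * u.2 = π.w * β * b
      rw [eb]
      ring

end RNP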