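import Pool.Agent.RNP.Bas

/-!
# RNP.Rg: facts on the order `O`

`O = ℤ + ℤ ω`, `ω = UNI.om a`, `Im ω > 0`, elements `UNI.xx a m`; `nrm_Ord` (in Defs): `x x̄ ∈ ℕ`.
All proofs are elementary.
* `nrm_nat`: `‖x‖² = x x̄` is a natural number; `nrm_one`: it is not `0` if `x ≠ 0`.
* `fin_ball`: `|Im x| = |m₂| Im ω` bounds `m₂`, then `|m₁|` is bounded.
* `cov`: round the real coordinates of `z` in the basis `1, ω`.
* `reps`: the residues `UNI.xx a (m₁ mod N, m₂ mod N)` (or: `cov` for `x / N` and `fin_ball`).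
* `unit_of`: `x⁻¹ = x̄`. `nonunit`: `‖x‖² ∈ ℕ`, not `0`, not `1`.
-/

open RNK

namespace RNP
variable {D : OD}

/-- the imaginary part of `ω` is positive -/
private theorem im_pos (a : UNI.Par) : 0 < (UNI.om a).im := by
  have h1 : (0 : ℝ) < 4 * a.n - a.t ^ 2 := by
    have h2 : ((a.t ^ 2 : ℤ) : ℝ) < ((4 * a.n : ℤ) : ℝ) := by exact_mod_cast a.h
    push_cast at h2
    linarith
  have h3 : (UNI.om a).im = Real.sqrt (4 * a.n - a.t ^ 2) / 2 := by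
    simp [UNI.om]
  rw [h3]
  have := Real.sqrt_pos.2 h1
  positivity

private theorem xx_im (a : UNI.Par) (m : ℤ × ℤ) :
    (UNI.xx a m).im = m.2 * (UNI.om a).im := by
  simp [UNI.xx]

private theorem xx_re (a : UNI.Par) (m : ℤ × ℤ) :
    (UNI.xx a m).re = m.1 + m.2 * (UNI.om a).re := by
  simp [UNI.xx]

private theorem mul_cj (x : ℂ) : x * (starRingEnd ℂ) x = ((‖x‖ ^ 2 : ℝ) : ℂ) := by
  rw [Complex.mul_conj, Complex.normSq_eq_norm_sq]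

theorem nrm_nat {x : ℂ} (hx : x ∈ D.O) : ∃ n : ℕ, ‖x‖ ^ 2 = (n : ℝ) := by
  obtain ⟨n, hn⟩ := nrm_Ord hx
  refine ⟨n, ?_⟩
  rw [mul_cj] at hn
  exact_mod_cast hn

theorem nrm_one {x : ℂ} (hx : x ∈ D.O) (h0 : x ≠ 0) : 1 ≤ ‖x‖ := by
  obtain ⟨n, hn⟩ := nrm_nat hx
  have h1 : 0 < ‖x‖ := norm_pos_iff.2 h0
  have h2 : (0 : ℝ) < n := by rw [← hn]; positivity
  have h3 : 1 ≤ n := by exact_mod_cast h2
  have h4 : (1 : ℝ) ≤ n := by exact_mod_cast h3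
  rw [← hn] at h4
  nlinarith

theorem fin_ball (D : OD) (R : ℝ) : {x : ℂ | x ∈ D.O ∧ ‖x‖ ≤ R}.Finite := by
  have hp := im_pos D.a
  set B : ℝ := R / (UNI.om D.a).im with hB
  set C : ℝ := R + B * ‖UNI.om D.a‖ with hC
  refine (((Set.finite_Icc (-⌈C⌉) ⌈C⌉).prod (Set.finite_Icc (-⌈B⌉) ⌈B⌉)).image
    (UNI.xx D.a)).subset ?_
  rintro x ⟨⟨m, rfl⟩, hx⟩
  have h1 : |(m.2 : ℝ)| ≤ B := by
    rw [hB, le_div_iff₀ hp]
    have h2 := Complex.abs_im_le_norm (UNI.xx D.a m)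
    rw [xx_im, abs_mul, abs_of_pos hp] at h2
    exact h2.trans hx
  have h2 : |(m.1 : ℝ)| ≤ C := by
    have h3 : (m.1 : ℂ) = UNI.xx D.a m - m.2 * UNI.om D.a := by
      simp only [UNI.xx]; ring
    have h4 : |(m.1 : ℝ)| = ‖(m.1 : ℂ)‖ := by
      rw [Complex.norm_intCast]
    rw [h4, h3]
    refine (norm_sub_le _ _).trans ?_
    rw [norm_mul, Complex.norm_intCast]
    exact add_le_add hx (mul_le_mul_of_nonneg_right h1 (norm_nonneg _))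
  have key : ∀ (k : ℤ) (r : ℝ), |(k : ℝ)| ≤ r → k ∈ Set.Icc (-⌈r⌉) ⌈r⌉ := by
    intro k r h
    rw [abs_le] at h
    have h5 := Int.le_ceil r
    constructor
    · have : ((-⌈r⌉ : ℤ) : ℝ) ≤ (k : ℝ) := by push_cast; linarith
      exact_mod_cast this
    · have : (k : ℝ) ≤ ((⌈r⌉ : ℤ) : ℝ) := by linarith
      exact_mod_cast this
  exact ⟨m, ⟨key _ _ h2, key _ _ h1⟩, rfl⟩

theorem fin_ball2 (D : OD) (R : ℝ) : {w : Vec | O2 D w ∧ nq w ≤ R}.Finite := by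
  refine ((fin_ball D (Real.sqrt R)).prod (fin_ball D (Real.sqrt R))).subset ?_
  rintro w ⟨hw, hR⟩
  have h0 := sq_nonneg ‖w.1‖
  have h1 := sq_nonneg ‖w.2‖
  unfold nq at hR
  refine ⟨⟨hw.1, ?_⟩, ⟨hw.2, ?_⟩⟩
  · exact Real.le_sqrt_of_sq_le (by linarith)
  · exact Real.le_sqrt_of_sq_le (by linarith)

theorem cov (D : OD) : ∃ R : ℝ, 0 < R ∧ ∀ z : ℂ, ∃ x ∈ D.O, ‖z - x‖ ≤ R := by
  have hp := im_pos D.a
  refine ⟨1 + (UNI.om D.a).im, by linarith, fun z => ?_⟩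
  refine ⟨UNI.xx D.a (round (z.re - round (z.im / (UNI.om D.a).im) * (UNI.om D.a).re),
    round (z.im / (UNI.om D.a).im)), ⟨_, rfl⟩, ?_⟩
  refine (Complex.norm_le_abs_re_add_abs_im _).trans ?_
  rw [Complex.sub_re, Complex.sub_im, xx_re, xx_im]
  set k : ℤ := round (z.im / (UNI.om D.a).im) with hk
  have h1 := abs_sub_round (z.re - k * (UNI.om D.a).re)
  have h2 := abs_sub_round (z.im / (UNI.om D.a).im)
  rw [← hk] at h2
  have h3 : z.im - k * (UNI.om D.a).im =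
      (z.im / (UNI.om D.a).im - k) * (UNI.om D.a).im := by
    field_simp
  have h4 : |z.im - k * (UNI.om D.a).im| ≤ (UNI.om D.a).im := by
    rw [h3, abs_mul, abs_of_pos hp]
    nlinarith
  have h5 : |z.re - (round (z.re - k * (UNI.om D.a).re) + k * (UNI.om D.a).re)| ≤ 1 / 2 := by
    have e : z.re - (round (z.re - k * (UNI.om D.a).re) + k * (UNI.om D.a).re) =
      z.re - k * (UNI.om D.a).re - round (z.re - k * (UNI.om D.a).re) := by ring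
    rw [e]
    exact h1
  linarith

theorem reps (D : OD) {N : ℕ} (hN : 0 < N) : ∃ S : Finset ℂ, (∀ r ∈ S, r ∈ D.O) ∧
    ∀ x ∈ D.O, ∃ r ∈ S, ∃ y ∈ D.O, x = r + N * y := by
  classical
  refine ⟨(Finset.Icc (0 : ℤ) N ×ˢ Finset.Icc (0 : ℤ) N).image (UNI.xx D.a), ?_, ?_⟩
  · intro r hr
    obtain ⟨m, -, rfl⟩ := Finset.mem_image.1 hr
    exact ⟨m, rfl⟩
  · rintro x ⟨m, rfl⟩
    have hN' : (0 : ℤ) < N := by exact_mod_cast hN
    have key : ∀ k : ℤ, k % N ∈ Finset.Icc (0 : ℤ) N := fun k =>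
      Finset.mem_Icc.2 ⟨Int.emod_nonneg _ hN'.ne', (Int.emod_lt_of_pos _ hN').le⟩
    refine ⟨UNI.xx D.a (m.1 % N, m.2 % N), Finset.mem_image.2 ⟨_, Finset.mem_product.2
      ⟨key _, key _⟩, rfl⟩, UNI.xx D.a (m.1 / N, m.2 / N), ⟨_, rfl⟩, ?_⟩
    have h1 : ((m.1 % N : ℤ) : ℂ) + N * ((m.1 / N : ℤ) : ℂ) = m.1 := by
      have := Int.emod_add_mul_ediv m.1 N
      exact_mod_cast this
    have h2 : ((m.2 % N : ℤ) : ℂ) + N * ((m.2 / N : ℤ) : ℂ) = m.2 := by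
      have := Int.emod_add_mul_ediv m.2 N
      exact_mod_cast this
    simp only [UNI.xx]
    linear_combination -h1 - UNI.om D.a * h2

theorem unit_of {x : ℂ} (hx : x ∈ D.O) (h : ‖x‖ = 1) : x⁻¹ ∈ D.O := by
  have h1 : x * (starRingEnd ℂ) x = 1 := by rw [mul_cj, h]; simp
  rw [inv_eq_of_mul_eq_one_right h1]
  exact cj_Ord hx

theorem norm_unit {x y : ℂ} (hx : x ∈ D.O) (hy : y ∈ D.O) (h : x * y = 1) : ‖x‖ = 1 := by
  have h0 : x ≠ 0 := by rintro rfl; simp at h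
  have h1 : y ≠ 0 := by rintro rfl; simp at h
  have h2 := nrm_one hx h0
  have h3 := nrm_one hy h1
  have h4 : ‖x‖ * ‖y‖ = 1 := by rw [← norm_mul, h, norm_one]
  nlinarith

theorem nonunit {x : ℂ} (hx : x ∈ D.O) (h0 : x ≠ 0) (h : ¬ ∃ y ∈ D.O, x * y = 1) :
    2 ≤ ‖x‖ ^ 2 := by
  obtain ⟨n, hn⟩ := nrm_nat hx
  have h1 : 0 < ‖x‖ := norm_pos_iff.2 h0
  have h2 : n ≠ 0 := by
    rintro rfl
    rw [Nat.cast_zero] at hn
    have : 0 < ‖x‖ ^ 2 := by positivity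
    linarith
  have h3 : n ≠ 1 := by
    rintro rfl
    refine h ⟨(starRingEnd ℂ) x, cj_Ord hx, ?_⟩
    rw [mul_cj, hn]
    simp
  have h4 : 2 ≤ n := by omega
  rw [hn]
  exact_mod_cast h4

/-- `x` divides its norm -/
theorem dvd_nsq {x : ℂ} (hx : x ∈ D.O) : ∃ y ∈ D.O, ((‖x‖ ^ 2 : ℝ) : ℂ) = x * y :=
  ⟨(starRingEnd ℂ) x, cj_Ord hx, (mul_cj x).symm⟩

end RNP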