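import Pool.Agent.RNP.Rg

/-!
# RNP.RgP: coprimality and vectors of minimal norm
-/

open RNK

namespace RNP
variable {D : OD}

theorem cop_mul {x y z : ℂ} (hx : Cop D x z) (hy : Cop D y z) : Cop D (x * y) z := by
  obtain ⟨hx0, hz0, u, hu, v, hv, e⟩ := hx
  obtain ⟨hy0, -, u', hu', v', hv', e'⟩ := hy
  refine ⟨D.O.mul_mem hx0 hy0, hz0, u * u', D.O.mul_mem hu hu',
    u * x * v' + v * (u' * y) + v * v' * z, ?_, ?_⟩
  · exact D.O.add_mem (D.O.add_mem (D.O.mul_mem (D.O.mul_mem hu hx0) hv')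
      (D.O.mul_mem hv (D.O.mul_mem hu' hy0))) (D.O.mul_mem (D.O.mul_mem hv hv') hz0)
  · linear_combination (u' * y + v' * z) * e + e'

/-- divisors of `z` -/
theorem cop_dvd {x y z : ℂ} (h : Cop D x z) (hy : y ∈ D.O) (hd : ∃ v ∈ D.O, z = y * v) :
    Cop D x y := by
  obtain ⟨hx0, -, u, hu, v, hv, e⟩ := h
  obtain ⟨w, hw, rfl⟩ := hd
  exact ⟨hx0, hy, u, hu, v * w, D.O.mul_mem hv hw, by linear_combination e⟩

/-- if `x, z` are coprime, `z w ∈ O²` and `x w ∈ O²`, then `w ∈ O²` -/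
theorem cop_O2 {x z : ℂ} (h : Cop D x z) {w : Vec} (h1 : O2 D (x • w)) (h2 : O2 D (z • w)) :
    O2 D w := by
  obtain ⟨-, -, u, hu, v, hv, e⟩ := h
  have h3 := O2_add (O2_smul hu h1) (O2_smul hv h2)
  have h4 : u • x • w + v • z • w = w := by
    rw [smul_smul, smul_smul, ← add_smul, e, one_smul]
  rwa [h4] at h3

/-- if `x, z` are coprime and `z` divides `x y` then `z` divides `y` -/
theorem cop_dvd_mul {x y z : ℂ} (h : Cop D x z) (hy : y ∈ D.O)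
    (hd : ∃ v ∈ D.O, x * y = z * v) : ∃ v ∈ D.O, y = z * v := by
  obtain ⟨-, -, u, hu, v, hv, e⟩ := h
  obtain ⟨w, hw, e'⟩ := hd
  exact ⟨u * w + v * y, D.O.add_mem (D.O.mul_mem hu hw) (D.O.mul_mem hv hy),
    by linear_combination (-y) * e + u * e'⟩

/-- vectors of `O²` on one line differ by an element of `K` -/
theorem O2_line {u v : Vec} (hu : O2 D u) (h0 : u ≠ 0) (hv : O2 D v) (h : det2 u v = 0) :
    ∃ x ∈ D.K, v = x • u := by
  by_cases hv0 : v = 0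
  · exact ⟨0, D.K.zero_mem, by rw [hv0, zero_smul]⟩
  obtain ⟨k, hk, -, e⟩ := (det2_eq_zero ⟨O2_K2 hu, h0⟩ ⟨O2_K2 hv, hv0⟩).1 h
  exact ⟨k, hk, e⟩

/-- every nonzero vector of `O²` is a multiple of one of minimal norm on its line -/
theorem prim_part {w : Vec} (hw : O2 D w) (h0 : w ≠ 0) :
    ∃ g ∈ D.K, g ≠ 0 ∧ 1 ≤ ‖g‖ ∧ ∃ w', Prim D w' ∧ w = g • w' := by
  have hfin : {v : Vec | O2 D v ∧ nq v ≤ nq w}.Finite := fin_ball2 D (nq w)
  have hfin' : {v : Vec | (O2 D v ∧ nq v ≤ nq w) ∧ v ≠ 0 ∧ ∃ t : ℂ, v = t • w}.Finite :=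
    hfin.subset fun v hv => hv.1
  obtain ⟨v, ⟨⟨hv, hvw⟩, hv0, t, et⟩, hmin⟩ := hfin'.exists_minimalFor nq _
    ⟨w, ⟨hw, le_rfl⟩, h0, 1, (one_smul _ _).symm⟩
  have ht0 : t ≠ 0 := by
    rintro rfl
    exact hv0 (by rw [et, zero_smul])
  have hwv : w = t⁻¹ • v := by rw [et, smul_smul, inv_mul_cancel₀ ht0, one_smul]
  have hmin' : ∀ s : ℂ, s ≠ 0 → O2 D (s • v) → 1 ≤ ‖s‖ := by
    intro s hs h1
    by_contra hlt
    push Not at hlt
    have hvpos := nq_pos hv0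
    have h2 : nq (s • v) < nq v := by
      rw [nq_smul]
      have : ‖s‖ ^ 2 < 1 := by
        have := norm_nonneg s
        nlinarith
      nlinarith
    have h3 := hmin ⟨⟨h1, h2.le.trans hvw⟩, smul_ne_zero hs hv0, s * t, by
      rw [et, smul_smul]⟩ h2.le
    exact absurd h3 (not_le.2 h2)
  have hdet : det2 v w = 0 := by
    rw [hwv]
    simp only [det2, Prod.smul_fst, Prod.smul_snd, smul_eq_mul]
    ring
  obtain ⟨g, hg, eg⟩ := O2_line hv hv0 hw hdet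
  have hg0 : g ≠ 0 := by
    rintro rfl
    exact h0 (by rw [eg, zero_smul])
  exact ⟨g, hg, hg0, hmin' g hg0 (by rw [← eg]; exact hw), v, ⟨hv, hv0, hmin'⟩, eg⟩

/-- a vector of `K²` has a nonzero natural multiple in `O²` -/
theorem clear {w : Vec} (hw : K2 D w) : ∃ n : ℕ, 0 < n ∧ O2 D ((n : ℂ) • w) := by
  obtain ⟨⟨m, hm, h1⟩, ⟨n, hn, h2⟩⟩ := hw
  refine ⟨m * n, Nat.mul_pos hm hn, ?_, ?_⟩
  · have e : ((((m * n : ℕ) : ℂ)) • w).1 = (n : ℂ) * (m * w.1) := by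
      simp only [Prod.smul_fst, smul_eq_mul]
      push_cast
      ring
    rw [e]
    exact D.O.mul_mem (nat_O n) h1
  · have e : ((((m * n : ℕ) : ℂ)) • w).2 = (m : ℂ) * (n * w.2) := by
      simp only [Prod.smul_snd, smul_eq_mul]
      push_cast
      ring
    rw [e]
    exact D.O.mul_mem (nat_O m) h2

/-- a cusp vector is a multiple of a primitive one -/
theorem prim_cusp {w : Vec} (hw : Cu D w) : ∃ g ∈ D.K, g ≠ 0 ∧ ∃ w', Prim D w' ∧ w = g • w' := by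
  obtain ⟨n, hn, h⟩ := clear hw.1
  have hn' : (n : ℂ) ≠ 0 := by exact_mod_cast hn.ne'
  obtain ⟨g, hg, hg0, -, w', hw', e⟩ := prim_part h (smul_ne_zero hn' hw.2)
  refine ⟨g / n, D.K.div_mem hg (natCast_mem _ n), div_ne_zero hg0 hn', w', hw', ?_⟩
  have h2 : w = (n : ℂ)⁻¹ • ((n : ℂ) • w) := by
    rw [smul_smul, inv_mul_cancel₀ hn', one_smul]
  rw [h2, e, smul_smul]
  congr 1
  rw [div_eq_mul_inv, mul_comm]

/-- vectors on the line of one of minimal norm -/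
theorem prim_line {u v : Vec} (hu : Prim D u) (hv : O2 D v) (h : det2 u v = 0) :
    ∃ x ∈ D.K, v = x • u ∧ (x ≠ 0 → 1 ≤ ‖x‖) := by
  obtain ⟨x, hx, e⟩ := O2_line hu.1 hu.2.1 hv h
  exact ⟨x, hx, e, fun h0 => hu.2.2 x h0 (by rw [← e]; exact hv)⟩

theorem Prim_e1 (D : OD) : Prim D e1 := by
  refine ⟨⟨D.O.one_mem, D.O.zero_mem⟩, by simp [e1], fun t ht h => ?_⟩
  have h1 : t * 1 ∈ D.O := h.1
  rw [mul_one] at h1
  exact nrm_one h1 ht

theorem fin_div (D : OD) {N : ℕ} (hN : 0 < N) :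
    {q : ℂ | q ∈ D.O ∧ ∃ z ∈ D.O, (N : ℂ) = q * z}.Finite := by
  refine (fin_ball D N).subset ?_
  rintro q ⟨hq, z, hz, e⟩
  refine ⟨hq, ?_⟩
  have hN' : (N : ℂ) ≠ 0 := by exact_mod_cast hN.ne'
  have hz0 : z ≠ 0 := by
    rintro rfl
    rw [mul_zero] at e
    exact hN' e
  have h1 := nrm_one hz hz0
  have h2 : (N : ℝ) = ‖q‖ * ‖z‖ := by
    rw [← norm_mul, ← e, Complex.norm_natCast]
  rw [h2]
  exact le_mul_of_one_le_right (norm_nonneg q) h1

private theorem rgp_xx_eq_zero {a : UNI.Par} {m : ℤ × ℤ} (h : UNI.xx a m = 0) : m = 0 := by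
  have h1 : (0 : ℝ) < 4 * a.n - a.t ^ 2 := by
    have h2 : ((a.t ^ 2 : ℤ) : ℝ) < ((4 * a.n : ℤ) : ℝ) := by exact_mod_cast a.h
    push_cast at h2
    linarith
  have h2 := Real.sqrt_pos.2 h1
  have h3 : (UNI.om a).im = Real.sqrt (4 * a.n - a.t ^ 2) / 2 := by
    have e : UNI.om a = (((a.t : ℝ) / 2 : ℝ) : ℂ) +
        ((Real.sqrt (4 * a.n - a.t ^ 2) / 2 : ℝ) : ℂ) * Complex.I := by
      simp only [UNI.om]
      push_cast
      ring
    rw [e]
    simp only [Complex.add_im, Complex.ofReal_im, Complex.mul_im, Complex.I_im, Complex.I_re,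
      Complex.ofReal_re]
    ring
  have h4 := congrArg Complex.im h
  have h5 : ((m.1 : ℂ)).im = 0 := Complex.intCast_im m.1
  have h6 : ((m.2 : ℂ)).im = 0 := Complex.intCast_im m.2
  have h7 : ((m.2 : ℂ)).re = m.2 := Complex.intCast_re m.2
  simp only [UNI.xx, Complex.add_im, Complex.mul_im, h5, h6, h7, Complex.zero_im, zero_mul,
    add_zero, zero_add, h3] at h4
  have h8 : (m.2 : ℝ) = 0 := by
    rcases mul_eq_zero.1 h4 with h8 | h8
    · exact h8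
    · exfalso
      linarith
  have h9 : m.2 = 0 := by exact_mod_cast h8
  have h10 : (m.1 : ℂ) = 0 := by
    have h := h
    simp only [UNI.xx, h9, Int.cast_zero, zero_mul, add_zero] at h
    exact h
  have h11 : m.1 = 0 := by exact_mod_cast h10
  exact Prod.ext h11 h9

private theorem rgp_xx_inj {a : UNI.Par} {m m' : ℤ × ℤ} (h : UNI.xx a m = UNI.xx a m') : m = m' := by
  have h1 : UNI.xx a (m + -m') = 0 := by
    rw [xx_add, xx_neg, h]
    ring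
  have h2 := rgp_xx_eq_zero h1
  exact add_neg_eq_zero.1 h2

private theorem rgp_xx_nat_mul {a : UNI.Par} (N : ℕ) (j : ℤ × ℤ) :
    (N : ℂ) * UNI.xx a j = UNI.xx a ((N : ℤ) * j.1, (N : ℤ) * j.2) := by
  simp only [UNI.xx]
  push_cast
  ring

/-- the elements `UNI.xx a (m₁, m₂)`, `0 ≤ m₁, m₂ < N`, are a complete system of residues mod `N`,
and translation by `γ` permutes it -/
theorem sum_resid (D : OD) (N : ℕ) [NeZero N] (F : ℂ → ℂ)
    (hF : ∀ x ∈ D.O, ∀ y ∈ D.O, F (x + N * y) = F x) {c : ℂ} (hc : Cop D c N) {γ : ℂ}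
    (hγ : γ ∈ D.O) :
    ∑ k : ZMod N × ZMod N, F (c * UNI.xx D.a ((k.1.val : ℤ), (k.2.val : ℤ)) + γ) =
      ∑ k : ZMod N × ZMod N, F (UNI.xx D.a ((k.1.val : ℤ), (k.2.val : ℤ))) := by
  obtain ⟨⟨d, rfl⟩, -, u, hu, v, hv, e⟩ := hc
  obtain ⟨g, rfl⟩ := hγ
  set vv : ZMod N × ZMod N → ℤ × ℤ := fun k => ((k.1.val : ℤ), (k.2.val : ℤ)) with hvv
  set red : ℤ × ℤ → ZMod N × ZMod N := fun m => ((m.1 : ZMod N), (m.2 : ZMod N)) with hred
  -- congruences
  have hcong : ∀ m m' : ℤ × ℤ, red m = red m' → ∃ j : ℤ × ℤ,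
      UNI.xx D.a m = UNI.xx D.a m' + N * UNI.xx D.a j := by
    intro m m' h
    have h1 : (m.1 : ZMod N) = (m'.1 : ZMod N) := congrArg Prod.fst h
    have h2 : (m.2 : ZMod N) = (m'.2 : ZMod N) := congrArg Prod.snd h
    rw [ZMod.intCast_eq_intCast_iff_dvd_sub] at h1 h2
    obtain ⟨j1, e1⟩ := h1
    obtain ⟨j2, e2⟩ := h2
    refine ⟨(-j1, -j2), ?_⟩
    have e1' : (m'.1 : ℂ) - m.1 = N * j1 := by exact_mod_cast e1
    have e2' : (m'.2 : ℂ) - m.2 = N * j2 := by exact_mod_cast e2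
    simp only [UNI.xx]
    push_cast
    linear_combination (-1 : ℂ) * e1' - UNI.om D.a * e2'
  have hcong' : ∀ m m' j : ℤ × ℤ, UNI.xx D.a m = UNI.xx D.a m' + N * UNI.xx D.a j →
      red m = red m' := by
    intro m m' j h
    rw [rgp_xx_nat_mul, ← xx_add] at h
    have h1 := rgp_xx_inj h
    rw [h1]
    simp [hred]
  have hvr : ∀ k, red (vv k) = k := by
    intro k
    simp [hred, hvv]
  have hG : ∀ m : ℤ × ℤ, F (UNI.xx D.a m) = F (UNI.xx D.a (vv (red m))) := by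
    intro m
    obtain ⟨j, hj⟩ := hcong m (vv (red m)) (hvr _).symm
    rw [hj]
    exact hF _ ⟨_, rfl⟩ _ ⟨_, rfl⟩
  have hL : ∀ k : ZMod N × ZMod N, F (UNI.xx D.a d * UNI.xx D.a (vv k) + UNI.xx D.a g) =
      F (UNI.xx D.a (vv (red (mulc D.a d (vv k) + g)))) := by
    intro k
    rw [← hG, xx_add, xx_mul]
  have hinj : Function.Injective fun k => red (mulc D.a d (vv k) + g) := by
    intro k k' h
    obtain ⟨j, hj⟩ := hcong _ _ h
    rw [xx_add, xx_add, xx_mul, xx_mul] at hj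
    obtain ⟨u', rfl⟩ := hu
    obtain ⟨v', rfl⟩ := hv
    have h1 : UNI.xx D.a (vv k) = UNI.xx D.a (vv k') +
        N * UNI.xx D.a (mulc D.a u' j + mulc D.a v' (vv k + -vv k')) := by
      rw [xx_add, xx_mul, xx_mul, xx_add, xx_neg]
      linear_combination (-(UNI.xx D.a (vv k) - UNI.xx D.a (vv k'))) * e + UNI.xx D.a u' * hj
    have h2 := hcong' _ _ _ h1
    rwa [hvr, hvr] at h2
  have hbij : Function.Bijective fun k => red (mulc D.a d (vv k) + g) :=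
    Finite.injective_iff_bijective.1 hinj
  calc ∑ k : ZMod N × ZMod N, F (UNI.xx D.a d * UNI.xx D.a (vv k) + UNI.xx D.a g)
      = ∑ k : ZMod N × ZMod N, F (UNI.xx D.a (vv (red (mulc D.a d (vv k) + g)))) :=
        Finset.sum_congr rfl fun k _ => hL k
    _ = ∑ k : ZMod N × ZMod N, F (UNI.xx D.a (vv k)) :=
        hbij.sum_comp fun k => F (UNI.xx D.a (vv k))

end RNP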