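import Pool.Agent.RNP.Lq
import Pool.Agent.RNP.PfF

/-!
# RNP.St: quadrangles of a strip

`Qd σ μ₀ μ₁ ν₀ ν₁ = σ μ₀ μ₁ ν₁ + σ μ₀ ν₁ ν₀`.

`quad_bound`: `μ_i` the weights of `B O²` at `A_h`, `A_{2h}`, `ν_i` at `A_h ut(γ)`, `A_{2h} ut(γ)`,
`h ≥ 1`. With `c = (1 + |γ|)²`-type constants:
* Lipschitz: `nq (A_h ut(γ) w) = |x + γ y|²/h + h |y|²`, and
  `| |x + γ y|² - |x|² | / h ≤ (2 |γ| |x| |y| + |γ|² |y|²) / h ≤ (|γ|/h) (|x|²/h + h |y|²) + (|γ|²/h²) h |y|²`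
  (`2 |x| |y| ≤ |x|²/h + h |y|²`), so `δ = (|γ| + |γ|²)/h` works in `lips` for `h ≥ 1`; the same for `2h`.
* all vectors of the four weights are local at `A = A_h` with `κ' = 8 (1 + |γ|)² κ` or so
  (`mu_loc`, `loc_pt`, `nq (A_h w) ≤ 2 nq (A_{2h} w)`, `nq (A_h w) ≤ 2 (1 + |γ|)² nq (A_h ut(γ) w)`).
* `σ μ₀ μ₁ ν₁ = σ μ₀ μ₁ (ν₁ - μ₁)` and `σ μ₀ ν₁ ν₀ = σ (μ₀ - ν₀) ν₁ ν₀` (`σ μ ν ν = 0`, `σ μ ν μ = 0` by
  alternation), then `sg_norm_le`-type bound of `sg_bound` (masses `K1 δ`, `1`, `1`; a difference of local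
  measures is local).

`quad_vanish`: if `B O²` has a primitive vector `v0` with `B v0` on the line `y = 0`, `|B v0|² ≤ R`, and
`κ R < h |det B|`, all four weights are supported on the line of `e1` (`mu_deep`; `ut γ` fixes this
line), so `Qd = 0`.
-/

open RNK

namespace RNP
variable {D : OD}

/-- two measures on the same line -/
private theorem sg_line0 (S : Coc D) {f : Vec → ℂ} (hf : AdmE D f) {p : Vec} (hp : K2 D p)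
    {μ ν ρ : Ms} (hμ : PM D μ) (hν : PM D ν) (hρ : PM D ρ) {c : Vec} (hc : Cu D c)
    (lμ : ∀ x, μ x ≠ 0 → det2 c x = 0) (lν : ∀ x, ν x ≠ 0 → det2 c x = 0) :
    S.sg f p μ ν ρ = 0 := by
  have hd : PM D (dl c) := PM_dl hc
  have h1 : S.sg f p μ ν ρ = S.sg f p (dl c) ν ρ := Sg_line S hf hp hμ hc lμ hν.cu hρ.cu
  have h2 : S.sg f p (dl c) ν ρ = -S.sg f p ν (dl c) ρ := Sg_a12 S hf hp hν.cu hd.cu hρ.cu
  have h3 : S.sg f p ν (dl c) ρ = S.sg f p (dl c) (dl c) ρ :=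
    Sg_line S hf hp hν hc lν hd.cu hρ.cu
  have h4 : S.sg f p (dl c) (dl c) ρ = -S.sg f p (dl c) (dl c) ρ :=
    Sg_a12 S hf hp hd.cu hd.cu hρ.cu
  have h5 : S.sg f p (dl c) (dl c) ρ = 0 := by
    have h6 : (2 : ℂ) * S.sg f p (dl c) (dl c) ρ = 0 := by linear_combination h4
    exact (mul_eq_zero.1 h6).resolve_left two_ne_zero
  rw [h1, h2, h3, h5, neg_zero]

private theorem sg_23 (S : Coc D) {f : Vec → ℂ} (hf : AdmE D f) {p : Vec} (hp : K2 D p)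
    {μ ν : Ms} (hμ : PM D μ) (hν : PM D ν) : S.sg f p μ ν ν = 0 := by
  have h4 : S.sg f p μ ν ν = -S.sg f p μ ν ν := Sg_a23 S hf hp hμ.cu hν.cu hν.cu
  have h6 : (2 : ℂ) * S.sg f p μ ν ν = 0 := by linear_combination h4
  exact (mul_eq_zero.1 h6).resolve_left two_ne_zero

private theorem sg_13 (S : Coc D) {f : Vec → ℂ} (hf : AdmE D f) {p : Vec} (hp : K2 D p)
    {μ ν : Ms} (hμ : PM D μ) (hν : PM D ν) : S.sg f p μ ν μ = 0 := by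
  have h4 : S.sg f p μ ν μ = -S.sg f p ν μ μ := Sg_a12 S hf hp hν.cu hμ.cu hμ.cu
  rw [h4, sg_23 S hf hp hν hμ, neg_zero]

private theorem nq_Ah_ut {h : ℝ} (hh : 0 < h) (γ : ℂ) (w : Vec) :
    nq (((Ah h).mul (ut γ)).act w) = ‖w.1 + γ * w.2‖ ^ 2 / h + h * ‖w.2‖ ^ 2 := by
  rw [act_mul, nq_Ah hh, ut_act]

private theorem det_Ah_ut {h : ℝ} (hh : 0 < h) (γ : ℂ) : ((Ah h).mul (ut γ)).det = 1 := by
  rw [det_mul, det_Ah hh, det_ut, one_mul]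

/-- the Lipschitz bound for `ut γ` -/
private theorem lip_ut {h : ℝ} (hh : 1 ≤ h) (γ : ℂ) (w : Vec) :
    (1 - (‖γ‖ + ‖γ‖ ^ 2) / h) * nq ((Ah h).act w) ≤ nq (((Ah h).mul (ut γ)).act w) ∧
      nq (((Ah h).mul (ut γ)).act w) ≤ (1 + (‖γ‖ + ‖γ‖ ^ 2) / h) * nq ((Ah h).act w) := by
  have h0 : 0 < h := by linarith
  rw [nq_Ah_ut h0, nq_Ah h0]
  set x := ‖w.1‖ with hx
  set y := ‖w.2‖ with hy
  set g := ‖γ‖ with hg
  have hx0 : 0 ≤ x := norm_nonneg _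
  have hy0 : 0 ≤ y := norm_nonneg _
  have hg0 : 0 ≤ g := norm_nonneg _
  have e1 : ‖w.1 + γ * w.2‖ ≤ x + g * y := by
    refine (norm_add_le _ _).trans ?_
    rw [norm_mul]
  have e2 : x ≤ ‖w.1 + γ * w.2‖ + g * y := by
    have h1 : w.1 = (w.1 + γ * w.2) + -(γ * w.2) := by ring
    calc x = ‖(w.1 + γ * w.2) + -(γ * w.2)‖ := by rw [← h1]
      _ ≤ ‖w.1 + γ * w.2‖ + ‖-(γ * w.2)‖ := norm_add_le _ _
      _ = _ := by rw [norm_neg, norm_mul]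
  set z := ‖w.1 + γ * w.2‖ with hz
  have hz0 : 0 ≤ z := norm_nonneg _
  have q1 : z ^ 2 ≤ x ^ 2 + 2 * g * x * y + g ^ 2 * y ^ 2 := by nlinarith [mul_nonneg hg0 hy0]
  have q2 : x ^ 2 - 2 * g * x * y - g ^ 2 * y ^ 2 ≤ z ^ 2 := by
    rcases le_total x (g * y) with h1 | h1
    · nlinarith [mul_nonneg hg0 hy0, sq_nonneg z, mul_nonneg (mul_nonneg hg0 hy0) hx0]
    · have h2 : x - g * y ≤ z := by linarith
      have h3 : (x - g * y) ^ 2 ≤ z ^ 2 := by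
        have h4 : 0 ≤ x - g * y := by linarith
        nlinarith
      nlinarith [mul_nonneg hg0 hy0, sq_nonneg (g * y)]
  have hN : 2 * x * y ≤ x ^ 2 / h + h * y ^ 2 := by
    have h1 : x ^ 2 / h * h = x ^ 2 := div_mul_cancel₀ _ h0.ne'
    have h2 : 0 ≤ (x / h - y) ^ 2 * h := mul_nonneg (sq_nonneg _) h0.le
    have h3 : (x / h - y) ^ 2 * h = x ^ 2 / h + h * y ^ 2 - 2 * x * y := by
      field_simp
      ring
    linarith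
  have hy2 : y ^ 2 ≤ x ^ 2 / h + h * y ^ 2 := by
    have h1 : 0 ≤ x ^ 2 / h := by positivity
    nlinarith [sq_nonneg y]
  set N := x ^ 2 / h + h * y ^ 2 with hNdef
  have hN0 : 0 ≤ N := by positivity
  have k1 : (2 * g * x * y + g ^ 2 * y ^ 2) / h ≤ (g + g ^ 2) / h * N := by
    rw [div_mul_eq_mul_div]
    apply div_le_div_of_nonneg_right _ h0.le
    nlinarith [mul_nonneg hg0 hg0]
  have z1 : z ^ 2 / h ≤ x ^ 2 / h + (2 * g * x * y + g ^ 2 * y ^ 2) / h := by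
    rw [← add_div]
    apply div_le_div_of_nonneg_right _ h0.le
    linarith
  have z2 : x ^ 2 / h - (2 * g * x * y + g ^ 2 * y ^ 2) / h ≤ z ^ 2 / h := by
    rw [← sub_div]
    apply div_le_div_of_nonneg_right _ h0.le
    linarith
  constructor
  · have : (1 - (g + g ^ 2) / h) * N = N - (g + g ^ 2) / h * N := by ring
    rw [this]
    linarith
  · have : (1 + (g + g ^ 2) / h) * N = N + (g + g ^ 2) / h * N := by ring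
    rw [this]
    linarith

private theorem pt_2h {h : ℝ} (hh : 1 ≤ h) (w : Vec) :
    nq ((Ah h).act w) ≤ 2 * nq ((Ah (2 * h)).act w) := by
  have h0 : 0 < h := by linarith
  rw [nq_Ah h0, nq_Ah (by linarith : (0 : ℝ) < 2 * h)]
  have h1 : 2 * (‖w.1‖ ^ 2 / (2 * h)) = ‖w.1‖ ^ 2 / h := by field_simp
  have h2 : 0 ≤ h * ‖w.2‖ ^ 2 := by positivity
  nlinarith

private theorem pt_ut {h : ℝ} (hh : 1 ≤ h) (γ : ℂ) (w : Vec) :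
    nq ((Ah h).act w) ≤ (2 + 2 * ‖γ‖ ^ 2) * nq (((Ah h).mul (ut γ)).act w) := by
  have h0 : 0 < h := by linarith
  rw [nq_Ah h0, nq_Ah_ut h0]
  have hg0 : 0 ≤ ‖γ‖ := norm_nonneg _
  have hy0 : 0 ≤ ‖w.2‖ := norm_nonneg _
  have e2 : ‖w.1‖ ≤ ‖w.1 + γ * w.2‖ + ‖γ‖ * ‖w.2‖ := by
    have h1 : w.1 = (w.1 + γ * w.2) + -(γ * w.2) := by ring
    calc ‖w.1‖ = ‖(w.1 + γ * w.2) + -(γ * w.2)‖ := by rw [← h1]
      _ ≤ ‖w.1 + γ * w.2‖ + ‖-(γ * w.2)‖ := norm_add_le _ _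
      _ = _ := by rw [norm_neg, norm_mul]
  have hx0 : 0 ≤ ‖w.1‖ := norm_nonneg _
  have hz0 : 0 ≤ ‖w.1 + γ * w.2‖ := norm_nonneg _
  have q : ‖w.1‖ ^ 2 ≤ 2 * ‖w.1 + γ * w.2‖ ^ 2 + 2 * ‖γ‖ ^ 2 * ‖w.2‖ ^ 2 := by
    have h1 : ‖w.1‖ ^ 2 ≤ (‖w.1 + γ * w.2‖ + ‖γ‖ * ‖w.2‖) ^ 2 := by
      have := mul_self_le_mul_self hx0 e2
      nlinarith
    nlinarith [sq_nonneg (‖w.1 + γ * w.2‖ - ‖γ‖ * ‖w.2‖)]
  have q1 : ‖w.1‖ ^ 2 / h ≤ 2 * (‖w.1 + γ * w.2‖ ^ 2 / h) + 2 * ‖γ‖ ^ 2 * (‖w.2‖ ^ 2 / h) := by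
    have := div_le_div_of_nonneg_right q h0.le
    calc ‖w.1‖ ^ 2 / h ≤ _ := this
      _ = _ := by ring
  have q2 : ‖w.2‖ ^ 2 / h ≤ h * ‖w.2‖ ^ 2 := by
    rw [div_le_iff₀ h0]
    nlinarith [sq_nonneg ‖w.2‖, mul_le_mul hh hh (by norm_num) h0.le]
  have q3 : 0 ≤ ‖w.1 + γ * w.2‖ ^ 2 / h := by positivity
  have q4 : 0 ≤ h * ‖w.2‖ ^ 2 := by positivity
  have q5 : 0 ≤ ‖γ‖ ^ 2 := sq_nonneg _
  nlinarith [mul_nonneg q5 q3, mul_nonneg q5 q4, mul_le_mul_of_nonneg_left q2 q5]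

private theorem locM_sub {B A : Mat} {κ' : ℝ} {μ ν : Ms} (h1 : LocM D B A κ' μ)
    (h2 : LocM D B A κ' ν) : LocM D B A κ' (μ - ν) := by
  intro x hx
  by_cases h : μ x = 0
  · refine h2 x fun e => hx ?_
    rw [Finsupp.sub_apply, h, e, sub_zero]
  · exact h1 x h

private theorem locM_pt {κ : ℝ} (hκ : Kap D κ) {B A A' : Mat} (hB : GK D B) (hA : A.det = 1)
    (hA' : A'.det = 1) {c C : ℝ} (hc : 0 ≤ c) (hcC : c ≤ C)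
    (h : ∀ w, nq (A.act w) ≤ c * nq (A'.act w)) :
    LocM D B A (C * κ) (mu D κ B A') := by
  intro x hx
  have h1 := mu_loc hκ hB (by rw [hA']; exact one_ne_zero : A'.det ≠ 0) x hx
  have hκ0 : 0 ≤ κ := by linarith [hκ.one]
  refine ⟨h1.1, ?_⟩
  have h2 := loc_pt (A := A) (c := c) (c' := 1) hκ0 hc h (by rw [hA, hA']; simp) h1.2
  refine loc_mono ?_ h2
  rw [mul_one]
  exact mul_le_mul_of_nonneg_right hcC hκ0

theorem quad_bound (S : Coc D) {κ : ℝ} (hκ : Kap D κ) {M : ℕ} (hM : 0 < M) (V : Finset ℂ)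
    (hV : ∀ v ∈ V, v ∈ D.K) {γ : ℂ} (hγ : γ ∈ D.O) : ∃ C : ℝ, 0 < C ∧
    ∀ (f : Vec → ℂ) (B : Mat), GK D B → AdmE D f → Fn D M V (fun w => f (B.act w)) →
    ∀ h : ℝ, 1 ≤ h → ∀ p, K2 D p →
      ‖Qd (S.sg f p) (mu D κ B (Ah h)) (mu D κ B (Ah (2 * h))) (mu D κ B ((Ah h).mul (ut γ)))
        (mu D κ B ((Ah (2 * h)).mul (ut γ)))‖ ≤
        C * ((‖B.det‖ ^ 3)⁻¹ * (nq ((Ah h).act p) / h)) := by
  obtain ⟨K1, hK1, hlip⟩ := lips hκ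
  obtain ⟨K0, hK0, hb⟩ := sg_bound S hM V hV ((4 + 4 * ‖γ‖ ^ 2) * κ)
  have hg0 : 0 ≤ ‖γ‖ := norm_nonneg _
  refine ⟨K0 * (2 * K1 * (‖γ‖ + ‖γ‖ ^ 2)) + 1, by positivity, ?_⟩
  intro f B hB hf hF h hh p hp
  have h0 : 0 < h := by linarith
  have h20 : 0 < 2 * h := by linarith
  have hh2 : 1 ≤ 2 * h := by linarith
  have d0 : (Ah h).det = 1 := det_Ah h0
  have d1 : (Ah (2 * h)).det = 1 := det_Ah h20
  have e0 : ((Ah h).mul (ut γ)).det = 1 := det_Ah_ut h0 γ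
  have e1 : ((Ah (2 * h)).mul (ut γ)).det = 1 := det_Ah_ut h20 γ
  set μ0 := mu D κ B (Ah h) with hμ0
  set μ1 := mu D κ B (Ah (2 * h)) with hμ1
  set ν0 := mu D κ B ((Ah h).mul (ut γ)) with hν0
  set ν1 := mu D κ B ((Ah (2 * h)).mul (ut γ)) with hν1
  have P0 : PM D μ0 := mu_PM hκ hB (by rw [d0]; exact one_ne_zero)
  have P1 : PM D μ1 := mu_PM hκ hB (by rw [d1]; exact one_ne_zero)
  have R0 : PM D ν0 := mu_PM hκ hB (by rw [e0]; exact one_ne_zero)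
  have R1 : PM D ν1 := mu_PM hκ hB (by rw [e1]; exact one_ne_zero)
  have g2 : 0 ≤ ‖γ‖ ^ 2 := sq_nonneg _
  have L0 : LocM D B (Ah h) ((4 + 4 * ‖γ‖ ^ 2) * κ) μ0 :=
    locM_pt hκ hB d0 d0 (c := 1) (by norm_num) (by linarith) (fun w => by rw [one_mul])
  have L1 : LocM D B (Ah h) ((4 + 4 * ‖γ‖ ^ 2) * κ) μ1 :=
    locM_pt hκ hB d0 d1 (c := 2) (by norm_num) (by linarith) (fun w => pt_2h hh w)
  have L2 : LocM D B (Ah h) ((4 + 4 * ‖γ‖ ^ 2) * κ) ν0 :=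
    locM_pt hκ hB d0 e0 (c := 2 + 2 * ‖γ‖ ^ 2) (by positivity) (by linarith)
      (fun w => pt_ut hh γ w)
  have L3 : LocM D B (Ah h) ((4 + 4 * ‖γ‖ ^ 2) * κ) ν1 :=
    locM_pt hκ hB d0 e1 (c := 4 + 4 * ‖γ‖ ^ 2) (by positivity) le_rfl (fun w => by
      have h1 := pt_2h hh w
      have h2 := pt_ut hh2 γ w
      nlinarith)
  -- the two differences
  have m0 : ms (μ0 - ν0) ≤ K1 * ((‖γ‖ + ‖γ‖ ^ 2) / h) :=
    hlip B (Ah h) ((Ah h).mul (ut γ)) _ hB (by rw [d0]; exact one_ne_zero) (by rw [d0, e0])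
      (by positivity) (fun w => lip_ut hh γ w)
  have m1 : ms (μ1 - ν1) ≤ K1 * ((‖γ‖ + ‖γ‖ ^ 2) / h) := by
    refine (hlip B (Ah (2 * h)) ((Ah (2 * h)).mul (ut γ)) _ hB (by rw [d1]; exact one_ne_zero)
      (by rw [d1, e1]) (by positivity) (fun w => lip_ut hh2 γ w)).trans ?_
    apply mul_le_mul_of_nonneg_left _ hK1.le
    apply div_le_div_of_nonneg_left (by positivity) h0 (by linarith)
  have q0 : 0 ≤ (‖B.det‖ ^ 3)⁻¹ * (nq ((Ah h).act p) / ‖(Ah h).det‖) := by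
    have := nq_nonneg ((Ah h).act p)
    positivity
  have b0 : ‖S.sg f p (μ0 - ν0) ν1 ν0‖ ≤
      K0 * ((‖B.det‖ ^ 3)⁻¹ * (nq ((Ah h).act p) / ‖(Ah h).det‖)) *
        (K1 * ((‖γ‖ + ‖γ‖ ^ 2) / h)) := by
    have h1 := (hb f B (Ah h) hB (by rw [d0]; exact one_ne_zero) hf hF (μ0 - ν0) ν1 ν0
      (locM_sub L0 L2) L3 L2 p p hp hp).1
    rw [PM_ms R1, PM_ms R0, mul_one, mul_one] at h1
    exact h1.trans (mul_le_mul_of_nonneg_left m0 (mul_nonneg hK0.le q0))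
  have b1 : ‖S.sg f p μ0 μ1 (μ1 - ν1)‖ ≤
      K0 * ((‖B.det‖ ^ 3)⁻¹ * (nq ((Ah h).act p) / ‖(Ah h).det‖)) *
        (K1 * ((‖γ‖ + ‖γ‖ ^ 2) / h)) := by
    have h1 := (hb f B (Ah h) hB (by rw [d0]; exact one_ne_zero) hf hF μ0 μ1 (μ1 - ν1)
      L0 L1 (locM_sub L1 L3) p p hp hp).1
    rw [PM_ms P0, PM_ms P1, one_mul, one_mul] at h1
    exact h1.trans (mul_le_mul_of_nonneg_left m1 (mul_nonneg hK0.le q0))
  have s1 : S.sg f p μ0 μ1 ν1 = -S.sg f p μ0 μ1 (μ1 - ν1) := by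
    have h1 : S.sg f p μ0 μ1 (μ1 - ν1) = S.sg f p μ0 μ1 μ1 - S.sg f p μ0 μ1 ν1 :=
      sg_sub3 _ _ _ _ _
    rw [h1, sg_23 S hf hp P0 P1]
    ring
  have s0 : S.sg f p μ0 ν1 ν0 = S.sg f p (μ0 - ν0) ν1 ν0 := by
    have h1 : S.sg f p (μ0 - ν0) ν1 ν0 = S.sg f p μ0 ν1 ν0 - S.sg f p ν0 ν1 ν0 :=
      sg_sub1 _ _ _ _ _
    rw [h1, sg_13 S hf hp R0 R1, sub_zero]
  have hQ : Qd (S.sg f p) μ0 μ1 ν0 ν1 = -S.sg f p μ0 μ1 (μ1 - ν1) +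
      S.sg f p (μ0 - ν0) ν1 ν0 := by
    unfold Qd
    rw [s1, s0]
  rw [hQ]
  refine (norm_add_le _ _).trans ?_
  rw [norm_neg]
  rw [d0, norm_one, div_one] at b0 b1
  have hX : 0 ≤ (‖B.det‖ ^ 3)⁻¹ * (nq ((Ah h).act p) / h) := by
    have := nq_nonneg ((Ah h).act p)
    positivity
  have hE : K0 * ((‖B.det‖ ^ 3)⁻¹ * nq ((Ah h).act p)) * (K1 * ((‖γ‖ + ‖γ‖ ^ 2) / h)) =
      K0 * (K1 * (‖γ‖ + ‖γ‖ ^ 2)) * ((‖B.det‖ ^ 3)⁻¹ * (nq ((Ah h).act p) / h)) := by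
    ring
  rw [hE] at b0 b1
  nlinarith

theorem quad_vanish (S : Coc D) {κ : ℝ} (hκ : Kap D κ) {γ : ℂ} (hγ : γ ∈ D.O)
    {f : Vec → ℂ} {B : Mat} (hB : GK D B) (hf : AdmE D f) {v0 : Vec} (hv : Prim D v0)
    (h0 : (B.act v0).2 = 0) {R : ℝ} (hR : ‖(B.act v0).1‖ ^ 2 ≤ R) {h : ℝ} (hh : 1 ≤ h)
    (hk : κ * R < h * ‖B.det‖) {p : Vec} (hp : K2 D p) :
    Qd (S.sg f p) (mu D κ B (Ah h)) (mu D κ B (Ah (2 * h))) (mu D κ B ((Ah h).mul (ut γ)))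
        (mu D κ B ((Ah (2 * h)).mul (ut γ))) = 0 := by
  have hp0 : 0 < h := by linarith
  have hκ0 : 0 < κ := by linarith [hκ.one]
  have hc : Cu D (B.act v0) := Cu_act hB (Prim_Cu hv)
  have hR0 : 0 ≤ R := (sq_nonneg _).trans hR
  have hBd : 0 < ‖B.det‖ := norm_pos_iff.2 hB.2
  -- one point
  have key : ∀ (t : ℝ), h ≤ t → ∀ A : Mat, A.det = 1 →
      nq (A.act (B.act v0)) = ‖(B.act v0).1‖ ^ 2 / t →
      PM D (mu D κ B A) ∧ ∀ x, mu D κ B A x ≠ 0 → det2 (B.act v0) x = 0 := by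
    intro t ht A hA hn
    have hA0 : A.det ≠ 0 := by rw [hA]; exact one_ne_zero
    have ht0 : 0 < t := by linarith
    refine ⟨mu_PM hκ hB hA0, fun x hx => mu_deep hκ hB hA0 hv ?_ hx⟩
    rw [hn, det_mul, hA, one_mul, ← mul_div_assoc, div_lt_iff₀ ht0]
    have a1 : κ * ‖(B.act v0).1‖ ^ 2 ≤ κ * R := mul_le_mul_of_nonneg_left hR hκ0.le
    have a2 : h * ‖B.det‖ ≤ t * ‖B.det‖ := mul_le_mul_of_nonneg_right ht hBd.le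
    linarith
  have n1 : ∀ t : ℝ, 0 < t → nq ((Ah t).act (B.act v0)) = ‖(B.act v0).1‖ ^ 2 / t := by
    intro t ht
    rw [nq_Ah ht, h0]
    simp
  have n2 : ∀ t : ℝ, 0 < t →
      nq (((Ah t).mul (ut γ)).act (B.act v0)) = ‖(B.act v0).1‖ ^ 2 / t := by
    intro t ht
    rw [nq_Ah_ut ht, h0]
    simp
  have h2 : 0 < 2 * h := by linarith
  obtain ⟨P0, l0⟩ := key h le_rfl (Ah h) (det_Ah hp0) (n1 h hp0)
  obtain ⟨P1, l1⟩ := key (2 * h) (by linarith) (Ah (2 * h)) (det_Ah h2) (n1 _ h2)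
  obtain ⟨R0', k0⟩ := key h le_rfl _ (det_Ah_ut hp0 γ) (n2 h hp0)
  obtain ⟨R1', k1⟩ := key (2 * h) (by linarith) _ (det_Ah_ut h2 γ) (n2 _ h2)
  unfold Qd
  rw [sg_line0 S hf hp P0 P1 R1' hc l0 l1, sg_line0 S hf hp P0 R1' R0' hc l0 k1, add_zero]

end RNP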