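import Pool.Agent.RNP.St

/-!
# RNP.StS: the total of a strip

`nq (A_h p) ≤ 2 h` for `h ≥ 1`, `nq p ≤ 2`. `quad_bound`: each quadrangle is `≤ 2 C p^{-3/2}`
(`‖det B‖ = √p`). `quad_vanish` with `R = p`: it is `0` if `2^k √p > κ p`. So at most
`1 + log₂ (κ √p)` terms.
-/

open RNK

namespace RNP
variable {D : OD}

private theorem nq_Ah_le {h : ℝ} (hh : 1 ≤ h) {p : Vec} (hp : nq p ≤ 2) :
    nq ((Ah h).act p) / h ≤ 2 := by
  have h0 : 0 < h := by linarith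
  have hs : 0 < Real.sqrt h := Real.sqrt_pos.2 h0
  have hsq : Real.sqrt h ^ 2 = h := Real.sq_sqrt h0.le
  have e : nq ((Ah h).act p) = ‖p.1‖ ^ 2 / h + h * ‖p.2‖ ^ 2 := by
    simp only [nq, Ah, dg, Mat.act, zero_mul, add_zero, zero_add, norm_mul, mul_pow,
      Complex.norm_real, Real.norm_eq_abs, sq_abs, inv_pow, hsq]
    rw [div_eq_inv_mul]
  rw [e, div_le_iff₀ h0]
  have h1 : ‖p.1‖ ^ 2 / h ≤ h * ‖p.1‖ ^ 2 := by
    rw [div_le_iff₀ h0]
    have h2 : 0 ≤ ‖p.1‖ ^ 2 := sq_nonneg _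
    nlinarith [mul_le_mul hh hh (by norm_num) h0.le]
  have h3 : nq p = ‖p.1‖ ^ 2 + ‖p.2‖ ^ 2 := rfl
  rw [h3] at hp
  nlinarith

/-- the total of a strip: `n` quadrangles, at most `1 + log₂ (κ p) ` of them not zero -/
theorem strip (S : Coc D) {κ : ℝ} (hκ : Kap D κ) {M : ℕ} (hM : 0 < M) (V : Finset ℂ)
    (hV : ∀ v ∈ V, v ∈ D.K) {γ : ℂ} (hγ : γ ∈ D.O) : ∃ C : ℝ, 0 < C ∧
    ∀ (π : PD D) (f : Vec → ℂ) (B : Mat), GK D B → AdmE D f →
      Fn D M V (fun w => f (B.act w)) → ‖B.det‖ ^ 2 = π.p →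
      (∃ v0, Prim D v0 ∧ (B.act v0).2 = 0 ∧ ‖(B.act v0).1‖ ^ 2 ≤ π.p) →
    ∀ p, K2 D p → nq p ≤ 2 → ∀ n : ℕ,
      ‖∑ k ∈ Finset.range n, Qd (S.sg f p) (mu D κ B (Ah (2 ^ k))) (mu D κ B (Ah (2 ^ (k + 1))))
        (mu D κ B ((Ah (2 ^ k)).mul (ut γ))) (mu D κ B ((Ah (2 ^ (k + 1))).mul (ut γ)))‖ ≤
        C * ((π.p : ℝ) ^ (-(3 / 2 : ℝ)) * (1 + Real.log π.p)) := by
  classical
  obtain ⟨C0, hC0, hb⟩ := quad_bound S hκ hM V hV hγ
  have hκ1 := hκ.one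
  have hlκ : 0 ≤ Real.log κ := Real.log_nonneg hκ1
  refine ⟨2 * C0 * (2 + 2 * Real.log κ), by positivity, ?_⟩
  intro π f B hB hf hF hdet hv p hp hnp n
  obtain ⟨v0, hv0, hv1, hv2⟩ := hv
  have hp1 : (1 : ℝ) ≤ π.p := by exact_mod_cast π.one_lt.le
  have hp0 : (0 : ℝ) < π.p := by linarith
  have hlp : 0 ≤ Real.log π.p := Real.log_nonneg hp1
  have hd : ‖B.det‖ = Real.sqrt π.p := by
    rw [← hdet, Real.sqrt_sq (norm_nonneg _)]
  have hd3 : (‖B.det‖ ^ 3)⁻¹ = (π.p : ℝ) ^ (-(3 / 2 : ℝ)) := by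
    rw [hd, Real.rpow_neg hp0.le, Real.sqrt_eq_rpow, ← Real.rpow_natCast, ← Real.rpow_mul hp0.le]
    norm_num
  have hs1 : 1 ≤ Real.sqrt π.p := Real.one_le_sqrt.2 hp1
  have hX : 1 ≤ κ * Real.sqrt π.p := one_le_mul_of_one_le_of_one_le hκ1 hs1
  set X : ℝ := κ * Real.sqrt π.p with hXdef
  set m : ℕ := ⌊Real.log X / Real.log 2⌋₊ + 1 with hm
  have hl2 : 0 < Real.log 2 := Real.log_pos (by norm_num)
  -- the terms
  have hterm : ∀ k ∈ Finset.range n,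
      ‖Qd (S.sg f p) (mu D κ B (Ah (2 ^ k))) (mu D κ B (Ah (2 ^ (k + 1))))
        (mu D κ B ((Ah (2 ^ k)).mul (ut γ))) (mu D κ B ((Ah (2 ^ (k + 1))).mul (ut γ)))‖ ≤
        if k < m then 2 * C0 * (π.p : ℝ) ^ (-(3 / 2 : ℝ)) else 0 := by
    intro k _
    have hh : (1 : ℝ) ≤ 2 ^ k := one_le_pow₀ (by norm_num)
    have e2 : (2 : ℝ) ^ (k + 1) = 2 * 2 ^ k := by ring
    rw [e2]
    split_ifs with hk
    · refine (hb f B hB hf hF (2 ^ k) hh p hp).trans ?_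
      rw [hd3]
      have h1 := nq_Ah_le hh hnp
      have h2 : 0 ≤ (π.p : ℝ) ^ (-(3 / 2 : ℝ)) := Real.rpow_nonneg hp0.le _
      calc C0 * ((π.p : ℝ) ^ (-(3 / 2 : ℝ)) * (nq ((Ah (2 ^ k)).act p) / 2 ^ k))
          ≤ C0 * ((π.p : ℝ) ^ (-(3 / 2 : ℝ)) * 2) := by gcongr
        _ = _ := by ring
    · refine le_of_eq ?_
      rw [norm_eq_zero]
      refine quad_vanish S hκ hγ hB hf hv0 hv1 hv2 hh ?_ hp
      rw [hd]
      have hk' : m ≤ k := by omega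
      have h3 : Real.log X / Real.log 2 < k := by
        have h4 : Real.log X / Real.log 2 < (⌊Real.log X / Real.log 2⌋₊ : ℝ) + 1 :=
          Nat.lt_floor_add_one _
        have h5 : ((m : ℕ) : ℝ) ≤ k := by exact_mod_cast hk'
        rw [hm] at h5
        push_cast at h5
        linarith
      rw [div_lt_iff₀ hl2, ← Real.log_pow] at h3
      have h6 : X < 2 ^ k := (Real.log_lt_log_iff (by linarith) (by positivity)).1 h3
      have h7 : κ * (π.p : ℝ) = X * Real.sqrt π.p := by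
        rw [hXdef, mul_assoc, Real.mul_self_sqrt hp0.le]
      rw [h7]
      exact mul_lt_mul_of_pos_right h6 (by linarith)
  have hcount : (∑ k ∈ Finset.range n,
      if k < m then 2 * C0 * (π.p : ℝ) ^ (-(3 / 2 : ℝ)) else 0) ≤
      m * (2 * C0 * (π.p : ℝ) ^ (-(3 / 2 : ℝ))) := by
    rw [← Finset.sum_filter, Finset.sum_const, nsmul_eq_mul]
    have h1 : ((Finset.range n).filter (fun k => k < m)).card ≤ m := by
      calc ((Finset.range n).filter (fun k => k < m)).card ≤ (Finset.range m).card := by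
            refine Finset.card_le_card ?_
            intro k hk
            rw [Finset.mem_filter] at hk
            exact Finset.mem_range.2 hk.2
        _ = m := Finset.card_range m
    have h2 : 0 ≤ (π.p : ℝ) ^ (-(3 / 2 : ℝ)) := Real.rpow_nonneg hp0.le _
    have h3 : (((Finset.range n).filter (fun k => k < m)).card : ℝ) ≤ m := by exact_mod_cast h1
    gcongr
  have hmle : (m : ℝ) ≤ (2 + 2 * Real.log κ) * (1 + Real.log π.p) := by
    have h1 : (⌊Real.log X / Real.log 2⌋₊ : ℝ) ≤ Real.log X / Real.log 2 :=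
      Nat.floor_le (div_nonneg (Real.log_nonneg hX) hl2.le)
    have h2 : Real.log X = Real.log κ + Real.log π.p / 2 := by
      rw [hXdef, Real.log_mul (by linarith) (by linarith), Real.log_sqrt hp0.le]
    have h3 : (1 : ℝ) / 2 ≤ Real.log 2 := by
      have := Real.log_two_gt_d9
      linarith
    have h4 : Real.log X / Real.log 2 ≤ 2 * Real.log X := by
      rw [div_le_iff₀ hl2]
      have := Real.log_nonneg hX
      nlinarith
    rw [hm]
    push_cast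
    nlinarith [mul_nonneg hlκ hlp]
  calc ‖∑ k ∈ Finset.range n, Qd (S.sg f p) (mu D κ B (Ah (2 ^ k))) (mu D κ B (Ah (2 ^ (k + 1))))
        (mu D κ B ((Ah (2 ^ k)).mul (ut γ))) (mu D κ B ((Ah (2 ^ (k + 1))).mul (ut γ)))‖
      ≤ ∑ k ∈ Finset.range n, if k < m then 2 * C0 * (π.p : ℝ) ^ (-(3 / 2 : ℝ)) else 0 :=
        norm_sum_le_of_le _ hterm
    _ ≤ m * (2 * C0 * (π.p : ℝ) ^ (-(3 / 2 : ℝ))) := hcount
    _ ≤ ((2 + 2 * Real.log κ) * (1 + Real.log π.p)) *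
          (2 * C0 * (π.p : ℝ) ^ (-(3 / 2 : ℝ))) := by
        have h2 : 0 ≤ (π.p : ℝ) ^ (-(3 / 2 : ℝ)) := Real.rpow_nonneg hp0.le _
        gcongr
    _ = _ := by ring

end RNP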