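import Pool.Agent.RNP.Eg
import Pool.Agent.RNP.StS

/-!
# RNP.Tr: the ideal triangle for one index

`tri_t`: for one `t`, put `F = f 1_t`, `B = B_t` (lattice `L_t ⊆ O²`, `|det B| = √p`), `μ, ν, λ` the weights
along the geodesics `P = 1` (`Ah 1`) from `X = e2` to `Y = e1`, `P = ut (-1)` from `Z = v11` to `Y`,
`P = g3i` from `Z` to `X`. `RNK.Po.triangle` for `sgP` (`muP_ends`) with `n` large:
`s F X Y Z v + ep (XY) - ep (ZY) + ep (ZX) = σ (μ₀ ν₀ λ₀) + Σ_{k < n} (three quadrangles)`.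
Bounds, all `O (p^{-3/2} (1 + log p))`, constants only depending on `S, κ, M, V`:
* centre: `sg_bound` at the point `A_1` (the three points are at bounded distance: `loc_pt`).
* `Y`-strip: `Qd` at `μ_k, μ_{k+1}, ν_k, ν_{k+1}`: exactly `strip` with `γ = -1`
  (`pt (Ah 1) k = Ah (2^k)`, `pt (ut (-1)) k = (Ah (2^k)).mul (ut (-1))`).
* `X`-strip: `Qd` at `λ_k, λ_{k+1}, μ_{-k}, μ_{-k-1}`. Transport by `swp` (`Sg_act`, `mu_map`):
  `λ_k = mu B (A_{2^k} g3i)`, `g3i = ut (-1) swp`, so `λ_k` is the image under `swp` of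
  `mu (swp B) (A_{2^k} ut (-1))`; `μ_{-k} = mu B (A_{2^{-k}})`, which is the image under `swp` of
  `mu (swp B) (A_{2^k})` (`nq (A_{2^{-k}} swp w) = nq (A_{2^k} w)`). Reversed orientation:
  `Qd σ a a' b b' = - Qd σ b b' a a'` for probability measures (alternation and the four term relation).
  So it is `-` the `strip` for `F ∘ swp`, `swp B`, `γ = -1`, `p = swp v = v`.
* `Z`-strip: `Qd` at `ν_{-k}, ν_{-k-1}, λ_{-k}, λ_{-k-1}`. Transport by `g = ut 1 swp = ⟨1, 1, 1, 0⟩`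
  (`g⁻¹ = swp ut (-1) = ⟨0, 1, 1, -1⟩ : (x, y) ↦ (y, x - y)`, `g⁻¹ v = e1`): `ν_{-k} = mu B (A_{2^{-k}} ut (-1))`
  is the image under `g` of `mu (g⁻¹ B) (A_{2^{-k}} ut (-1) g) = mu (g⁻¹ B) (A_{2^{-k}} swp)`, that is of
  `mu (g⁻¹ B) (A_{2^k})`; `λ_{-k} = mu B (A_{2^{-k}} g3i)` is the image of `mu (g⁻¹ B) (A_{2^{-k}} g3i g)`,
  `g3i g = ⟨0, -1, 1, 1⟩`, `|A_{1/h} (−y, x + y)|² = h |y|² + |x + y|²/h`, that is `A_h ut (1)`.
  So it is the `strip` for `F ∘ g`, `g⁻¹ B`, `γ = 1`, `p = e1`.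
  The primitive vectors on the line `y = 0` of the lattices `B O²`, `swp B O²`, `g⁻¹ B O²` (they contain
  `π O²`, since `L_t ⊇ π O²`) have norm `≤ |π|`: take the primitive part of `B⁻¹` of `π e1` etc.
* `F ∘ B ∈ Fn D M V` is `Fn_B` (with `α = β = 1`), and for `swp B` : `(F ∘ swp) ∘ (swp B) = F ∘ B`.
-/

open RNK

namespace RNP
variable {D : OD}

private theorem ends_mono {P : Type*} {σ : P → P → P → ℂ} {n0 n : ℕ} (h : n0 ≤ n) {μ : ℤ → P}
    {x y : P} (H : Ends σ n0 μ x y) : Ends σ n μ x y := by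
  intro k
  refine ⟨fun hk => (H k).1 (by omega), fun hk => (H k).2 (by omega)⟩

private theorem QP_rev {P : Type*} {σ : P → P → P → ℂ} (hσ : AC σ) (a a' b b' : P) :
    QP σ a a' b b' = -QP σ b b' a a' := by
  unfold QP
  have h1 := hσ.coc a a' b' b
  have h2 : σ a' b' b = -σ b b' a' := by
    rw [hσ.a12 b' a' b, hσ.a23 b' b a', hσ.a12 b b' a']
    ring
  have h3 : σ a a' b = -σ b a' a := by
    rw [hσ.a12 a' a b, hσ.a23 a' b a, hσ.a12 b a' a]
    ring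
  linear_combination -h1 + h2 + h3

/-- transport of one value -/
private theorem sg_trans (S : Coc D) {κ : ℝ} {F : Vec → ℂ} (hF : AdmE D F)
    {g g' B : Mat} (hg : GK D g) (hn : ‖g.det‖ = 1) (h1 : ∀ w, g.act (g'.act w) = w)
    (h2 : ∀ w, g'.act (g.act w) = w) {p : Vec} (hp : K2 D p) {A1 A2 A3 : Mat}
    (k1 : PM D (mu D κ (g'.mul B) A1)) (k2 : PM D (mu D κ (g'.mul B) A2))
    (k3 : PM D (mu D κ (g'.mul B) A3)) :
    S.sg (fun w => F (g.act w)) p (mu D κ (g'.mul B) A1) (mu D κ (g'.mul B) A2)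
      (mu D κ (g'.mul B) A3) =
    S.sg F (g.act p) (mu D κ B (A1.mul g')) (mu D κ B (A2.mul g')) (mu D κ B (A3.mul g')) := by
  have key : ∀ A : Mat, (mu D κ (g'.mul B) A).mapDomain g.act = mu D κ B (A.mul g') := by
    intro A
    have e1 : (A.mul g').mul g = A := mat_ext_act fun w => by rw [act_mul, act_mul, h2]
    have e2 : g.mul (g'.mul B) = B := mat_ext_act fun w => by rw [act_mul, act_mul, h1]
    have e3 := mu_map D κ (g'.mul B) (A.mul g') g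
    rw [e1, e2] at e3
    exact e3
  rw [Sg_act S hF hg hp k1.cu k2.cu k3.cu, key, key, key, hn]
  simp

private theorem r_one (π : PD D) : π.r 1 ≠ 0 := by
  rw [π.rone]
  exact one_ne_zero

/-- the short vector on the line `y = 0` -/
private theorem short_vec (π : PD D) (t : π.T) {h h' : Mat} (hh : MO D h')
    (h1 : ∀ w, h.act (h'.act w) = w) :
    ∃ v0, Prim D v0 ∧ ((h.mul (π.B 1 1 t)).act v0).2 = 0 ∧
      ‖((h.mul (π.B 1 1 t)).act v0).1‖ ^ 2 ≤ π.p := by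
  have hO1 : (1 : ℂ) ∈ D.O := D.O.one_mem
  have he1 : O2 D e1 := ⟨D.O.one_mem, D.O.zero_mem⟩
  have hv' : O2 D (h'.act e1) := O2_act hh he1
  have hind : π.ind t (π.w • h'.act e1) = 1 := by
    have a1 : ∀ x ∈ D.O, π.r (π.w * x) = 0 := fun x hx => by
      rw [π.rmul _ π.hw _ hx, π.rw0, zero_mul]
    have b1 : π.r (π.w • h'.act e1).1 = 0 := a1 _ hv'.1
    have b2 : π.r (π.w • h'.act e1).2 = 0 := a1 _ hv'.2
    rcases t with _ | τ
    · simp only [PD.ind, b2, if_true]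
    · simp only [PD.ind, b1, b2, mul_zero, if_true]
  obtain ⟨u, hu, e⟩ := (B_lat π hO1 hO1 (r_one π) (r_one π) t (π.w • h'.act e1)).2
    ⟨⟨π.w • h'.act e1, O2_smul π.hw hv', (one_act _).symm⟩, hind⟩
  have hBu : (h.mul (π.B 1 1 t)).act u = (π.w, 0) := by
    rw [act_mul, ← e, act_smul, h1]
    ext <;> simp [e1]
  have hu0 : u ≠ 0 := by
    rintro rfl
    rw [act_zero] at hBu
    exact π.wne (congrArg Prod.fst hBu).symm
  obtain ⟨g0, -, hg1, hgn, v0, hv0, e0⟩ := prim_part hu hu0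
  refine ⟨v0, hv0, ?_, ?_⟩
  · rw [e0, act_smul] at hBu
    have := congrArg Prod.snd hBu
    rw [Prod.smul_snd, smul_eq_mul] at this
    exact (mul_eq_zero.1 this).resolve_left hg1
  · rw [e0, act_smul] at hBu
    have h3 := congrArg Prod.fst hBu
    rw [Prod.smul_fst, smul_eq_mul] at h3
    have h4 : ‖g0‖ * ‖((h.mul (π.B 1 1 t)).act v0).1‖ = ‖π.w‖ := by
      rw [← norm_mul, h3]
    have h5 := hgn
    have h6 := norm_nonneg ((h.mul (π.B 1 1 t)).act v0).1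
    rw [← π.nsq, ← h4, mul_pow]
    have h7 : 1 ≤ ‖g0‖ ^ 2 := one_le_pow₀ h5
    nlinarith [sq_nonneg ‖((h.mul (π.B 1 1 t)).act v0).1‖]

private theorem geo_u (D : OD) : Geo D (ut (-1)) e1 v11 := by
  refine ⟨?_, Cu_e1, Cu_v11, ?_, ?_⟩
  · rw [det_ut]
    exact one_ne_zero
  · simp [ut, Mat.act, e1]
  · simp [ut, Mat.act, v11]

/-- the matrix `ut 1 swp` -/
private noncomputable def gz : Mat := ⟨1, 1, 1, 0⟩

/-- its inverse -/
private noncomputable def gz' : Mat := ⟨0, 1, 1, -1⟩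

private theorem gz_gz' (w : Vec) : gz.act (gz'.act w) = w := by
  ext <;> simp [gz, gz', Mat.act]

private theorem gz'_gz (w : Vec) : gz'.act (gz.act w) = w := by
  ext <;> simp [gz, gz', Mat.act]

private theorem MO_gz (D : OD) : MO D gz :=
  ⟨⟨D.O.one_mem, D.O.one_mem, D.O.one_mem, D.O.zero_mem⟩, by simp [gz, Mat.det]⟩

private theorem MO_gz' (D : OD) : MO D gz' :=
  ⟨⟨D.O.zero_mem, D.O.one_mem, D.O.one_mem, D.O.neg_mem D.O.one_mem⟩, by simp [gz', Mat.det]⟩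

private theorem swp_swp (w : Vec) : swp.act (swp.act w) = w := by
  simp [swp_act]

private theorem nq_pos_pt {P : Mat} (k : ℤ) (w : Vec) :
    nq ((pt P k).act w) = ‖(P.act w).1‖ ^ 2 / (2 : ℝ) ^ k + (2 : ℝ) ^ k * ‖(P.act w).2‖ ^ 2 := by
  rw [pt_act, nq_Ah (by positivity)]

private theorem det3 (π : PD D) (t : π.T) :
    (‖(π.B 1 1 t).det‖ ^ 3)⁻¹ = (π.p : ℝ) ^ (-(3 / 2 : ℝ)) := by
  have hp0 : (0 : ℝ) < π.p := by exact_mod_cast π.ppos
  have hd : ‖(π.B 1 1 t).det‖ = Real.sqrt π.p := by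
    rw [det_B, mul_one, mul_one, ← π.nsq, Real.sqrt_sq (norm_nonneg _)]
  rw [hd, Real.rpow_neg hp0.le, Real.sqrt_eq_rpow, ← Real.rpow_natCast, ← Real.rpow_mul hp0.le]
  norm_num

private theorem loc3 {κ : ℝ} (hκ : Kap D κ) {B P : Mat} (hB : GK D B) (hP : ‖P.det‖ = 1)
    (h : ∀ w, nq w ≤ 3 * nq (P.act w)) : LocM D B (Ah 1) (3 * 1 * κ) (mu D κ B (pt P 0)) := by
  have hP0 : P.det ≠ 0 := by
    intro h0
    rw [h0, norm_zero] at hP
    exact zero_ne_one hP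
  intro x hx
  obtain ⟨h1, h2⟩ := mu_loc hκ hB (by rw [det_pt]; exact hP0) x hx
  refine ⟨h1, loc_pt (by linarith [hκ.one]) (by norm_num) ?_ ?_ h2⟩
  · intro w
    rw [nq_pos_pt, nq_Ah one_pos]
    have := h w
    unfold nq at this
    simpa using this
  · rw [det_pt, hP, det_Ah one_pos]
    simp

theorem tri_t (S : Coc D) {κ : ℝ} (hκ : Kap D κ) {M : ℕ} (hM : 0 < M) (V : Finset ℂ)
    (hV : ∀ v ∈ V, v ∈ D.K) : ∃ C : ℝ, 0 < C ∧ ∀ (π : PD D) (f : Vec → ℂ), Fn D M V f →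
    ∀ t : π.T,
      ‖S.s (fun w => f w * π.ind t w) e2 e1 v11 v11
        + ep S κ (π.B 1 1 t) (Ah 1) e1 (fun w => f w * π.ind t w) v11
        - ep S κ (π.B 1 1 t) (ut (-1)) e1 (fun w => f w * π.ind t w) v11
        + ep S κ (π.B 1 1 t) g3i e2 (fun w => f w * π.ind t w) v11‖ ≤
        C * ((π.p : ℝ) ^ (-(3 / 2 : ℝ)) * (1 + Real.log π.p)) := by
  have hm1 : (-1 : ℂ) ∈ D.O := D.O.neg_mem D.O.one_mem
  obtain ⟨C1, hC1, hs1⟩ := strip S hκ hM V hV hm1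
  obtain ⟨C2, hC2, hs2⟩ := strip S hκ hM V hV D.O.one_mem
  obtain ⟨K0, hK0, hb⟩ := sg_bound S hM V hV (3 * 1 * κ)
  refine ⟨K0 * 2 + C1 + C2 + C1, by positivity, ?_⟩
  intro π f hf t
  set B := π.B 1 1 t with hBdef
  set F : Vec → ℂ := fun w => f w * π.ind t w with hFdef
  have hO1 : (1 : ℂ) ∈ D.O := D.O.one_mem
  have hBK : GK D B := MO_GK (MO_B π hO1 hO1 one_ne_zero one_ne_zero t)
  have hFA : AdmE D F := AdmE_ind π (Fn_AdmE hM hV hf) hf.supp t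
  have hSI : SuppIn D 1 1 f := fun w hw => ⟨w, hf.supp w hw, (one_act w).symm⟩
  have hFB : Fn D M V (fun w => F (B.act w)) :=
    Fn_B π hf hO1 hO1 (r_one π) (r_one π) hSI t
  have hpv : K2 D v11 := Cu_v11.1
  have hdet : ‖B.det‖ ^ 2 = π.p := by
    rw [hBdef, det_B, mul_one, mul_one, π.nsq]
  have hp1 : (1 : ℝ) ≤ π.p := by exact_mod_cast π.one_lt.le
  have hlp : 0 ≤ Real.log π.p := Real.log_nonneg hp1
  have hX0 : 0 ≤ (π.p : ℝ) ^ (-(3 / 2 : ℝ)) := Real.rpow_nonneg (by linarith) _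
  -- the three geodesics
  have G1 : Geo D (Ah 1) e1 e2 := geo_Ah D one_pos
  have G2 : Geo D (ut (-1)) e1 v11 := geo_u D
  have G3 : Geo D g3i e2 v11 := geo_g3i D
  obtain ⟨n1, hn1⟩ := muP_ends hκ hBK G1 S
  obtain ⟨n2, hn2⟩ := muP_ends hκ hBK G2 S
  obtain ⟨n3, hn3⟩ := muP_ends hκ hBK G3 S
  set n := max n1 (max n2 n3) with hn
  have hσ : AC (sgP S F v11) := sgP_AC S hFA hpv
  set σ := sgP S F v11 with hσdef
  set μ : ℤ → PMs D := muP hκ hBK G1.det with hμdef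
  set ν : ℤ → PMs D := muP hκ hBK G2.det with hνdef
  set l : ℤ → PMs D := muP hκ hBK G3.det with hldef
  have T1 : Ends σ n μ (dlP G1.cu') (dlP G1.cu) :=
    ends_mono (by omega) (hn1 F hFA v11 hpv)
  have T2 : Ends σ n ν (dlP G2.cu') (dlP G2.cu) :=
    ends_mono (by omega) (hn2 F hFA v11 hpv)
  have T3 : Ends σ n l (dlP G3.cu') (dlP G3.cu) :=
    ends_mono (by omega) (hn3 F hFA v11 hpv)
  have tri := triangle hσ (le_refl n) T1 T2 T3
  have hL : S.s F e2 e1 v11 v11 + ep S κ B (Ah 1) e1 F v11 - ep S κ B (ut (-1)) e1 F v11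
      + ep S κ B g3i e2 F v11 =
      σ (dlP G1.cu') (dlP G1.cu) (dlP G2.cu') + ∑ᶠ k : ℤ, σ (dlP G1.cu) (μ k) (μ (k + 1))
        - ∑ᶠ k : ℤ, σ (dlP G1.cu) (ν k) (ν (k + 1))
        + ∑ᶠ k : ℤ, σ (dlP G1.cu') (l k) (l (k + 1)) := by
    have h0 : σ (dlP G1.cu') (dlP G1.cu) (dlP G2.cu') = S.s F e2 e1 v11 v11 :=
      Sg_dl S e2 e1 v11
    rw [h0]
    rfl
  rw [hL, tri]
  -- points
  have hpow : ∀ k : ℕ, (0 : ℝ) < 2 ^ k := fun k => by positivity
  have m_nat : ∀ k : ℕ, (μ (k : ℤ)).1 = mu D κ B (Ah (2 ^ k)) := by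
    intro k
    show mu D κ B (pt (Ah 1) (k : ℤ)) = _
    unfold pt
    rw [Ah_mul (by positivity), mul_one, zpow_natCast]
  have m_nat1 : ∀ k : ℕ, (μ ((k : ℤ) + 1)).1 = mu D κ B (Ah (2 ^ (k + 1))) := by
    intro k
    have := m_nat (k + 1)
    rwa [Nat.cast_add, Nat.cast_one] at this
  have n_nat : ∀ k : ℕ, (ν (k : ℤ)).1 = mu D κ B ((Ah (2 ^ k)).mul (ut (-1))) := by
    intro k
    show mu D κ B (pt (ut (-1)) (k : ℤ)) = _
    unfold pt
    rw [zpow_natCast]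
  have n_nat1 : ∀ k : ℕ, (ν ((k : ℤ) + 1)).1 = mu D κ B ((Ah (2 ^ (k + 1))).mul (ut (-1))) := by
    intro k
    have := n_nat (k + 1)
    rwa [Nat.cast_add, Nat.cast_one] at this
  have l_nat : ∀ k : ℕ, (l (k : ℤ)).1 =
      mu D κ B (((Ah (2 ^ k)).mul (ut (-1))).mul swp) := by
    intro k
    show mu D κ B (pt g3i (k : ℤ)) = _
    unfold pt
    rw [zpow_natCast, mul_assoc']
    congr 2
    ext <;> simp [g3i, ut, swp, Mat.mul]
  have l_nat1 : ∀ k : ℕ, (l ((k : ℤ) + 1)).1 =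
      mu D κ B (((Ah (2 ^ (k + 1))).mul (ut (-1))).mul swp) := by
    intro k
    have := l_nat (k + 1)
    rwa [Nat.cast_add, Nat.cast_one] at this
  have m_neg : ∀ k : ℕ, (μ (-(k : ℤ))).1 = mu D κ B ((Ah (2 ^ k)).mul swp) := by
    intro k
    show mu D κ B (pt (Ah 1) (-(k : ℤ))) = _
    refine mu_congr one_pos (fun w => ?_) ?_
    · rw [nq_pos_pt, act_mul, nq_Ah (hpow k), swp_act, zpow_neg, zpow_natCast]
      have e : (Ah 1).act w = w := by ext <;> simp [Ah, dg, Mat.act]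
      rw [e]
      field_simp
      ring
    · rw [det_pt, det_mul, det_Ah one_pos, det_Ah (hpow k), det_swp]
      simp
  have m_neg1 : ∀ k : ℕ, (μ (-((k : ℤ) + 1))).1 = mu D κ B ((Ah (2 ^ (k + 1))).mul swp) := by
    intro k
    have := m_neg (k + 1)
    rwa [Nat.cast_add, Nat.cast_one] at this
  have n_neg : ∀ k : ℕ, (ν (-(k : ℤ))).1 = mu D κ B ((Ah (2 ^ k)).mul gz') := by
    intro k
    show mu D κ B (pt (ut (-1)) (-(k : ℤ))) = _
    refine mu_congr one_pos (fun w => ?_) ?_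
    · rw [nq_pos_pt, act_mul, nq_Ah (hpow k), ut_act, zpow_neg, zpow_natCast]
      have e : gz'.act w = (w.2, w.1 + -1 * w.2) := by ext <;> simp [gz', Mat.act]
      rw [e]
      field_simp
      ring
    · rw [det_pt, det_mul, det_ut, det_Ah (hpow k)]
      simp [gz', Mat.det]
  have n_neg1 : ∀ k : ℕ, (ν (-((k : ℤ) + 1))).1 = mu D κ B ((Ah (2 ^ (k + 1))).mul gz') := by
    intro k
    have := n_neg (k + 1)
    rwa [Nat.cast_add, Nat.cast_one] at this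
  have l_neg : ∀ k : ℕ, (l (-(k : ℤ))).1 =
      mu D κ B (((Ah (2 ^ k)).mul (ut 1)).mul gz') := by
    intro k
    show mu D κ B (pt g3i (-(k : ℤ))) = _
    refine mu_congr one_pos (fun w => ?_) ?_
    · rw [nq_pos_pt, act_mul, act_mul, nq_Ah (hpow k), ut_act, zpow_neg, zpow_natCast]
      have e : gz'.act w = (w.2, w.1 - w.2) := by
        ext <;> simp [gz', Mat.act]
        ring
      have e' : g3i.act w = (w.2 - w.1, w.1) := by
        ext <;> simp [g3i, Mat.act]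
        ring
      rw [e, e', norm_sub_rev w.2 w.1]
      have e3 : w.2 + 1 * (w.1 - w.2) = w.1 := by ring
      simp only [e3]
      field_simp
      ring
    · rw [det_pt, det_mul, det_mul, det_ut, det_Ah (hpow k)]
      simp [gz', g3i, Mat.det]
  have l_neg1 : ∀ k : ℕ, (l (-((k : ℤ) + 1))).1 =
      mu D κ B (((Ah (2 ^ (k + 1))).mul (ut 1)).mul gz') := by
    intro k
    have := l_neg (k + 1)
    rwa [Nat.cast_add, Nat.cast_one] at this
  -- the Y strip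
  have Y : ‖∑ k ∈ Finset.range n, QP σ (μ (k : ℤ)) (μ (k + 1 : ℤ)) (ν (k : ℤ)) (ν (k + 1 : ℤ))‖ ≤
      C1 * ((π.p : ℝ) ^ (-(3 / 2 : ℝ)) * (1 + Real.log π.p)) := by
    have hv : ∃ v0, Prim D v0 ∧ (B.act v0).2 = 0 ∧ ‖(B.act v0).1‖ ^ 2 ≤ π.p := by
      have h := short_vec π t (h := dg 1 1) (h' := dg 1 1)
        (MO_dg hO1 hO1 one_ne_zero one_ne_zero) (fun w => by rw [one_act, one_act])
      have e : (dg 1 1).mul (π.B 1 1 t) = B := mat_ext_act fun w => by rw [act_mul, one_act]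
      rwa [e] at h
    have h := hs1 π F B hBK hFA hFB hdet hv v11 hpv (by simp [nq, v11]; norm_num) n
    refine le_trans (le_of_eq (congrArg norm (Finset.sum_congr rfl fun k _ => ?_))) h
    show S.sg F v11 (μ (k : ℤ)).1 (μ ((k : ℤ) + 1)).1 (ν ((k : ℤ) + 1)).1 +
      S.sg F v11 (μ (k : ℤ)).1 (ν ((k : ℤ) + 1)).1 (ν (k : ℤ)).1 = _
    rw [m_nat, m_nat1, n_nat, n_nat1]
    rfl
  -- the X strip
  have X : ‖∑ k ∈ Finset.range n,
      QP σ (l (k : ℤ)) (l (k + 1 : ℤ)) (μ (-(k : ℤ))) (μ (-(k + 1 : ℤ)))‖ ≤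
      C1 * ((π.p : ℝ) ^ (-(3 / 2 : ℝ)) * (1 + Real.log π.p)) := by
    have hg : GK D swp := GO_GK GO_swp
    have hB' : GK D (swp.mul B) := GK_mul hg hBK
    have hn1' : ‖swp.det‖ = 1 := by rw [det_swp]; simp
    have hv := short_vec π t (h := swp) (h' := swp) GO_swp.1 swp_swp
    have hFB' : Fn D M V (fun w => (fun v => F (swp.act v)) ((swp.mul B).act w)) := by
      have e : (fun w => (fun v => F (swp.act v)) ((swp.mul B).act w)) =
          fun w => F (B.act w) := by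
        funext w
        show F (swp.act ((swp.mul B).act w)) = _
        rw [act_mul, swp_swp]
      rw [e]
      exact hFB
    have h := hs1 π (fun w => F (swp.act w)) (swp.mul B) hB' (AdmE_act hg hFA) hFB'
      (by rw [det_mul, norm_mul, hn1', one_mul, hdet]) hv v11 hpv (by simp [nq, v11]; norm_num) n
    have hPM : ∀ A : Mat, A.det ≠ 0 → PM D (mu D κ (swp.mul B) A) := fun A hA =>
      mu_PM hκ hB' hA
    have hA1 : ∀ k : ℕ, (Ah (2 ^ k)).det ≠ 0 := fun k => by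
      rw [det_Ah (hpow k)]; exact one_ne_zero
    have hA2 : ∀ k : ℕ, ((Ah (2 ^ k)).mul (ut (-1))).det ≠ 0 := fun k => by
      rw [det_mul, det_Ah (hpow k), det_ut]; simp
    have hsv : swp.act v11 = v11 := by simp [swp_act, v11]
    rw [← norm_neg, ← Finset.sum_neg_distrib]
    refine le_trans (le_of_eq (congrArg norm (Finset.sum_congr rfl fun k _ => ?_))) h
    rw [QP_rev hσ, neg_neg]
    show S.sg F v11 (μ (-(k : ℤ))).1 (μ (-((k : ℤ) + 1))).1 (l ((k : ℤ) + 1)).1 +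
      S.sg F v11 (μ (-(k : ℤ))).1 (l ((k : ℤ) + 1)).1 (l (k : ℤ)).1 = _
    unfold Qd
    rw [sg_trans S hFA hg hn1' swp_swp swp_swp hpv (hPM _ (hA1 k)) (hPM _ (hA1 (k + 1)))
      (hPM _ (hA2 (k + 1))), sg_trans S hFA hg hn1' swp_swp swp_swp hpv (hPM _ (hA1 k))
      (hPM _ (hA2 (k + 1))) (hPM _ (hA2 k)), hsv, m_neg, m_neg1, l_nat, l_nat1]
  -- the Z strip
  have Z : ‖∑ k ∈ Finset.range n,
      QP σ (ν (-(k : ℤ))) (ν (-(k + 1 : ℤ))) (l (-(k : ℤ))) (l (-(k + 1 : ℤ)))‖ ≤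
      C2 * ((π.p : ℝ) ^ (-(3 / 2 : ℝ)) * (1 + Real.log π.p)) := by
    have hg : GK D gz := MO_GK (MO_gz D)
    have hg' : GK D gz' := MO_GK (MO_gz' D)
    have hB' : GK D (gz'.mul B) := GK_mul hg' hBK
    have hn1' : ‖gz.det‖ = 1 := by simp [gz, Mat.det]
    have hn2' : ‖gz'.det‖ = 1 := by simp [gz', Mat.det]
    have hv := short_vec π t (h := gz') (h' := gz) (MO_gz D) gz'_gz
    have hFB' : Fn D M V (fun w => (fun v => F (gz.act v)) ((gz'.mul B).act w)) := by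
      have e : (fun w => (fun v => F (gz.act v)) ((gz'.mul B).act w)) =
          fun w => F (B.act w) := by
        funext w
        show F (gz.act ((gz'.mul B).act w)) = _
        rw [act_mul, gz_gz']
      rw [e]
      exact hFB
    have hpe : K2 D e1 := Cu_e1.1
    have h := hs2 π (fun w => F (gz.act w)) (gz'.mul B) hB' (AdmE_act hg hFA) hFB'
      (by rw [det_mul, norm_mul, hn2', one_mul, hdet]) hv e1 hpe (by simp [nq, e1]) n
    have hPM : ∀ A : Mat, A.det ≠ 0 → PM D (mu D κ (gz'.mul B) A) := fun A hA =>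
      mu_PM hκ hB' hA
    have hA1 : ∀ k : ℕ, (Ah (2 ^ k)).det ≠ 0 := fun k => by
      rw [det_Ah (hpow k)]; exact one_ne_zero
    have hA2 : ∀ k : ℕ, ((Ah (2 ^ k)).mul (ut 1)).det ≠ 0 := fun k => by
      rw [det_mul, det_Ah (hpow k), det_ut]; simp
    have hsv : gz.act e1 = v11 := by simp [gz, Mat.act, e1, v11]
    refine le_trans (le_of_eq (congrArg norm (Finset.sum_congr rfl fun k _ => ?_))) h
    show S.sg F v11 (ν (-(k : ℤ))).1 (ν (-((k : ℤ) + 1))).1 (l (-((k : ℤ) + 1))).1 +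
      S.sg F v11 (ν (-(k : ℤ))).1 (l (-((k : ℤ) + 1))).1 (l (-(k : ℤ))).1 = _
    unfold Qd
    rw [sg_trans S hFA hg hn1' gz_gz' gz'_gz hpe (hPM _ (hA1 k)) (hPM _ (hA1 (k + 1)))
      (hPM _ (hA2 (k + 1))), sg_trans S hFA hg hn1' gz_gz' gz'_gz hpe (hPM _ (hA1 k))
      (hPM _ (hA2 (k + 1))) (hPM _ (hA2 k)), hsv, n_neg, n_neg1, l_neg, l_neg1]
  -- the centre
  have W : ‖σ (μ 0) (ν 0) (l 0)‖ ≤ K0 * 2 * (π.p : ℝ) ^ (-(3 / 2 : ℝ)) := by
    have q1 : LocM D B (Ah 1) (3 * 1 * κ) (μ 0).1 := by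
      refine loc3 hκ hBK (by rw [det_Ah one_pos]; simp) fun w => ?_
      have e : (Ah 1).act w = w := by ext <;> simp [Ah, dg, Mat.act]
      rw [e]
      linarith [nq_nonneg w]
    have tri_ineq : ∀ a b : ℂ, ‖a‖ ^ 2 ≤ 2 * ‖a + -1 * b‖ ^ 2 + 2 * ‖b‖ ^ 2 := by
      intro a b
      have h1 : ‖a‖ ≤ ‖a + -1 * b‖ + ‖b‖ := by
        have := norm_add_le (a + -1 * b) b
        rwa [show a + -1 * b + b = a by ring] at this
      have h2 := mul_self_le_mul_self (norm_nonneg a) h1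
      nlinarith [sq_nonneg (‖a + -1 * b‖ - ‖b‖)]
    have q2 : LocM D B (Ah 1) (3 * 1 * κ) (ν 0).1 := by
      refine loc3 hκ hBK (by rw [det_ut]; simp) fun w => ?_
      rw [ut_act]
      have h1 := tri_ineq w.1 w.2
      unfold nq
      have h2 := sq_nonneg ‖w.1 + -1 * w.2‖
      simp only
      linarith
    have q3 : LocM D B (Ah 1) (3 * 1 * κ) (l 0).1 := by
      refine loc3 hκ hBK (by simp [g3i, Mat.det]) fun w => ?_
      have e' : g3i.act w = (w.2 + -1 * w.1, w.1) := by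
        ext <;> simp [g3i, Mat.act]
        ring
      rw [e']
      have h1 := tri_ineq w.2 w.1
      unfold nq
      have h2 := sq_nonneg ‖w.2 + -1 * w.1‖
      simp only
      linarith
    have h := (hb F B (Ah 1) hBK (by rw [det_Ah one_pos]; exact one_ne_zero) hFA hFB
      (μ 0).1 (ν 0).1 (l 0).1 q1 q2 q3 v11 v11 hpv hpv).1
    rw [PM_ms (μ 0).2, PM_ms (ν 0).2, PM_ms (l 0).2, det_Ah one_pos, norm_one, div_one,
      hBdef, det3 π t] at h
    have e : nq ((Ah 1).act v11) = 2 := by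
      rw [nq_Ah one_pos]
      simp [v11]
      norm_num
    rw [e] at h
    refine h.trans (le_of_eq ?_)
    ring
  have hsplit : ∀ a b c d : ℂ, ‖a + (b + c + d)‖ ≤ ‖a‖ + ‖b‖ + ‖c‖ + ‖d‖ := by
    intro a b c d
    calc ‖a + (b + c + d)‖ ≤ ‖a‖ + ‖b + c + d‖ := norm_add_le _ _
      _ ≤ ‖a‖ + (‖b + c‖ + ‖d‖) := by gcongr; exact norm_add_le _ _
      _ ≤ ‖a‖ + (‖b‖ + ‖c‖ + ‖d‖) := by gcongr; exact norm_add_le _ _
      _ = _ := by ring
  rw [Finset.sum_add_distrib, Finset.sum_add_distrib]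
  refine (hsplit _ _ _ _).trans ?_
  have hW' : K0 * 2 * (π.p : ℝ) ^ (-(3 / 2 : ℝ)) ≤
      K0 * 2 * ((π.p : ℝ) ^ (-(3 / 2 : ℝ)) * (1 + Real.log π.p)) := by
    have : (π.p : ℝ) ^ (-(3 / 2 : ℝ)) ≤ (π.p : ℝ) ^ (-(3 / 2 : ℝ)) * (1 + Real.log π.p) :=
      le_mul_of_one_le_right hX0 (by linarith)
    gcongr
  calc _ ≤ K0 * 2 * ((π.p : ℝ) ^ (-(3 / 2 : ℝ)) * (1 + Real.log π.p)) +
      C1 * ((π.p : ℝ) ^ (-(3 / 2 : ℝ)) * (1 + Real.log π.p)) +
      C2 * ((π.p : ℝ) ^ (-(3 / 2 : ℝ)) * (1 + Real.log π.p)) +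
      C1 * ((π.p : ℝ) ^ (-(3 / 2 : ℝ)) * (1 + Real.log π.p)) := by
        gcongr
        exact W.trans hW'
    _ = _ := by ring

end RNP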